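import Pool.Agent.Helper235.Count

open Finset

namespace Pool.Agent.Helper235.Chars

open Pool.Agent.Helper235.Round

/-- `N` is `ε`-good. -/
def IsGood (ε : ℝ) (N : ℕ) : Prop :=
  ∀ δ : ℝ, 0 < δ → δ ≤ 1 → ∀ A : Finset ℤ, A ⊆ Finset.Icc 1 (N : ℤ) → δ * N ≤ (A.card : ℝ) →
    ∃ y : ℤ, y ≠ 0 ∧ (δ ^ 2 - ε) * N ≤ ((A.filter (fun x => x + y ^ 2 ∈ A)).card : ℝ)

lemma D_trunc (N h : ℕ) (hh : h ≠ 0) (hN : h ≤ N) (f : ℕ → ℝ) :
    D N h (fun x => if x < N then f x else 0) = ∑ x ∈ range (N - h), f x * f (x + h) := by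
  unfold D
  rw [if_neg hh]
  obtain ⟨m, rfl⟩ := Nat.exists_eq_add_of_le hN
  have e : h + m = m + h := add_comm h m
  rw [e, Finset.sum_range_add, Nat.add_sub_cancel]
  have h1 : ∀ x ∈ range m, (if x < m + h then f x else 0) *
      (if x + h < m + h then f (x + h) else 0) = f x * f (x + h) := by
    intro x hx
    rw [Finset.mem_range] at hx
    rw [if_pos (by omega), if_pos (by omega)]
  have h2 : ∀ x ∈ range h, (if m + x < m + h then f (m + x) else 0) *
      (if m + x + h < m + h then f (m + x + h) else 0) = 0 := by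
    intro x hx
    rw [if_neg (by omega : ¬ m + x + h < m + h), mul_zero]
  rw [Finset.sum_congr rfl h1, Finset.sum_congr rfl h2]
  simp

lemma D_trunc_zero (N : ℕ) (f : ℕ → ℝ) :
    D N 0 (fun x => if x < N then f x else 0) = ∑ x ∈ range N, f x := by
  unfold D
  rw [if_pos rfl]
  apply Finset.sum_congr rfl
  intro x hx
  rw [Finset.mem_range] at hx
  simp [hx]

theorem not_good {L k s : ℕ} {Pa Pb : Finset ℕ} {c : ℕ} (H : Data L Pa Pb c) (hk : 18 ≤ k)
    (hL : 128 ≤ L) (hsa : s + 2 * k ≤ Pa.card) (hsb : s + 2 * k ≤ Pb.card)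
    (hcond : 2 * (L : ℝ) ^ 4 * ((2 * k : ℕ) : ℝ) ^ 2 + 1 ≤ (2 * L - 2) * (s : ℝ) ^ 2)
    (ε : ℝ) (hε : ε ≤ 1 / (32 * (L : ℝ) ^ 16)) : ¬ IsGood ε (L ^ (4 * k)) := by
  intro hgood
  have hL0 : (0 : ℝ) < L := by exact_mod_cast (by omega : 0 < L)
  have hL1 : (1 : ℝ) ≤ L := by exact_mod_cast (by omega : 1 ≤ L)
  have hL128 : (128 : ℝ) ≤ L := by exact_mod_cast hL
  set M : ℕ := L ^ (2 * k) with hM
  set N : ℕ := L ^ (4 * k) with hN
  have hNM : N = M * M := by rw [hN, hM, ← pow_add]; congr 1; ring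
  have hMpos : 0 < M := by rw [hM]; positivity
  have hNpos : 0 < N := by rw [hN]; positivity
  set X : ℝ := (L : ℝ) ^ (3 * k) with hX
  have hXpos : 0 < X := by rw [hX]; positivity
  have hNr : (N : ℝ) = (L : ℝ) ^ (4 * k) := by rw [hN]; push_cast; ring
  have hMr : (M : ℝ) = (L : ℝ) ^ (2 * k) := by rw [hM]; push_cast; ring
  set f' : ℕ → ℝ := fun x => if x < N then ff L Pa Pb x else 0 with hf'
  set J : Finset ℕ := insert 0 ((Finset.Ico 1 M).image (fun y => y ^ 2)) with hJ
  have hJcard : J.card ≤ M := by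
    calc J.card ≤ ((Finset.Ico 1 M).image (fun y => y ^ 2)).card + 1 := Finset.card_insert_le _ _
      _ ≤ (Finset.Ico 1 M).card + 1 := by
          apply Nat.add_le_add_right Finset.card_image_le
      _ = M := by rw [Nat.card_Ico]; omega
  have hf'01 : ∀ x, 0 ≤ f' x ∧ f' x ≤ 1 := by
    intro x
    simp only [hf']
    split_ifs
    · exact ff_mem H x
    · norm_num
  have hf'N : ∀ x, N ≤ x → f' x = 0 := by
    intro x hx
    simp only [hf']
    rw [if_neg (by omega)]
  obtain ⟨F, hF, hF01, hFN, hΦ⟩ := rounding N J f' hf'01 hf'N N le_rfl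
  have hdev : ∀ h ∈ J, |D N h F - D N h f'| ≤ X := by
    intro h hh
    have h1 : (D N h F - D N h f') ^ 2 ≤ ∑ h ∈ J, (D N h F - D N h f') ^ 2 :=
      Finset.single_le_sum (f := fun h => (D N h F - D N h f') ^ 2) (fun i _ => sq_nonneg _) hh
    have h2 : (N : ℝ) * J.card ≤ X ^ 2 := by
      calc (N : ℝ) * J.card ≤ N * M := by
            apply mul_le_mul_of_nonneg_left _ (by positivity)
            exact_mod_cast hJcard
        _ = X ^ 2 := by rw [hNr, hMr, hX, ← pow_add, ← pow_mul]; congr 1; ring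
    exact abs_le_of_sq_le_sq (by linarith) hXpos.le
  -- the set
  set B : Finset ℕ := (range N).filter (fun x => F x = 1) with hB
  set A : Finset ℤ := B.image (fun x : ℕ => (x : ℤ) + 1) with hA
  have hinj : Function.Injective (fun x : ℕ => (x : ℤ) + 1) := by
    intro a b hab
    simpa using hab
  have hAcard : (A.card : ℝ) = D N 0 F := by
    rw [hA, Finset.card_image_of_injective _ hinj, hB, Finset.card_filter]
    unfold D
    rw [if_pos rfl]
    push_cast
    apply Finset.sum_congr rfl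
    intro x hx
    rw [Finset.mem_range] at hx
    rcases hF01 x hx with h | h <;> simp [h]
  have hAsub : A ⊆ Finset.Icc 1 (N : ℤ) := by
    intro z hz
    rw [hA, Finset.mem_image] at hz
    obtain ⟨x, hx, rfl⟩ := hz
    rw [hB, Finset.mem_filter, Finset.mem_range] at hx
    rw [Finset.mem_Icc]
    have := hx.1
    constructor
    · linarith [Int.natCast_nonneg x]
    · have : (x : ℤ) < N := by exact_mod_cast hx.1
      linarith
  have hAle : (A.card : ℝ) ≤ N := by
    have := Finset.card_le_card hAsub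
    simp at this
    exact_mod_cast this
  have hA1 : ((N : ℝ) - (L : ℝ) ^ 4) / 2 - X ≤ A.card := by
    have h0 : (0 : ℕ) ∈ J := by rw [hJ]; exact Finset.mem_insert_self _ _
    have h1 := (abs_le.mp (hdev 0 h0)).1
    have h2 : D N 0 f' = ∑ x ∈ range N, ff L Pa Pb x := D_trunc_zero N _
    have h3 := ff_sum H N
    rw [hAcard]
    linarith
  -- size relations
  have hXL : (L : ℝ) ^ 8 ≤ X := by
    rw [hX]; exact pow_le_pow_right₀ hL1 (by omega)
  have hL4 : (L : ℝ) ^ 4 ≤ (L : ℝ) ^ 8 := pow_le_pow_right₀ hL1 (by norm_num)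
  have hNX : 16384 * (L : ℝ) ^ 16 * X ≤ N := by
    have h1 : (L : ℝ) ^ 18 ≤ (L : ℝ) ^ k := pow_le_pow_right₀ hL1 hk
    have h2 : (N : ℝ) = (L : ℝ) ^ k * X := by
      rw [hNr, hX, ← pow_add]; congr 1; ring
    have h3 : 16384 * (L : ℝ) ^ 16 ≤ (L : ℝ) ^ 18 := by
      have : (16384 : ℝ) ≤ (L : ℝ) ^ 2 := by nlinarith
      calc 16384 * (L : ℝ) ^ 16 ≤ (L : ℝ) ^ 2 * (L : ℝ) ^ 16 :=
            mul_le_mul_of_nonneg_right this (by positivity)
        _ = (L : ℝ) ^ 18 := by ring
    rw [h2]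
    exact mul_le_mul_of_nonneg_right (h3.trans h1) hXpos.le
  have hL16 : (1 : ℝ) ≤ (L : ℝ) ^ 16 := one_le_pow₀ hL1
  have hNbig : 16384 * X ≤ N := by
    have : 16384 * X ≤ 16384 * (L : ℝ) ^ 16 * X := by
      have := mul_le_mul_of_nonneg_right hL16 (by positivity : (0:ℝ) ≤ 16384 * X)
      linarith
    linarith
  have hNr0 : (0 : ℝ) < N := by exact_mod_cast hNpos
  have hApos : (0 : ℝ) < A.card := by linarith
  -- apply goodness
  obtain ⟨y, hy0, hy⟩ := hgood ((A.card : ℝ) / N) (by positivity) (by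
    rw [div_le_one hNr0]; exact hAle) A hAsub (by
    rw [div_mul_cancel₀ _ hNr0.ne'])
  -- bound the count
  set h : ℕ := y.natAbs ^ 2 with hh
  have hyh : y ^ 2 = (h : ℤ) := by
    rw [hh]; push_cast; rw [sq_abs]
  have hna : 0 < y.natAbs := Int.natAbs_pos.mpr hy0
  have hcount : ((A.filter (fun x => x + y ^ 2 ∈ A)).card : ℝ) ≤
      ((N : ℝ) * (1 - 1 / (4 * (L : ℝ) ^ 16)) + 5 * (L : ℝ) ^ 8) / 4 + X := by
    have hsub : A.filter (fun x => x + y ^ 2 ∈ A) ⊆
        ((range N).filter (fun x => F x = 1 ∧ F (x + h) = 1 ∧ x + h < N)).image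
          (fun x : ℕ => (x : ℤ) + 1) := by
      intro z hz
      rw [Finset.mem_filter, hA, Finset.mem_image] at hz
      obtain ⟨⟨x, hx, rfl⟩, hz2⟩ := hz
      rw [Finset.mem_image] at hz2
      obtain ⟨x', hx', he⟩ := hz2
      rw [hB, Finset.mem_filter, Finset.mem_range] at hx hx'
      have : x' = x + h := by
        rw [hyh] at he
        have : (x' : ℤ) = x + h := by linarith
        exact_mod_cast this
      subst this
      rw [Finset.mem_image]
      refine ⟨x, ?_, rfl⟩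
      rw [Finset.mem_filter, Finset.mem_range]
      exact ⟨hx.1, hx.2, hx'.2, hx'.1⟩
    have hc1 := (Finset.card_le_card hsub).trans Finset.card_image_le
    by_cases hyM : y.natAbs < M
    · have hhJ : h ∈ J := by
        rw [hJ, Finset.mem_insert]
        right
        rw [Finset.mem_image]
        exact ⟨y.natAbs, by rw [Finset.mem_Ico]; omega, rfl⟩
      have hh0 : h ≠ 0 := by rw [hh]; positivity
      have hhN : h ≤ N := by
        rw [hh, hNM, sq]; exact Nat.mul_le_mul hyM.le hyM.le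
      have h1 := (abs_le.mp (hdev h hhJ)).2
      have h2 : D N h f' = ∑ x ∈ range (N - h), ff L Pa Pb x * ff L Pa Pb (x + h) :=
        D_trunc N h hh0 hhN _
      have h3 := ff_corr H y.natAbs (N - h) (sum_mq_neg H y.natAbs (2 * k) s hna hyM hsa hsb hcond)
      rw [← hh, ← h2] at h3
      have h4 : (((N - h : ℕ) : ℝ)) * (1 - 1 / (4 * (L : ℝ) ^ 16)) ≤
          N * (1 - 1 / (4 * (L : ℝ) ^ 16)) := by
        apply mul_le_mul_of_nonneg_right
        · exact_mod_cast Nat.sub_le N h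
        · have : 1 / (4 * (L : ℝ) ^ 16) ≤ 1 := by
            rw [div_le_one (by positivity)]; linarith
          linarith
      have h5 : (((range N).filter (fun x => F x = 1 ∧ F (x + h) = 1 ∧ x + h < N)).card : ℝ) ≤
          D N h F := by
        unfold D
        rw [if_neg hh0, Finset.card_filter]
        push_cast
        apply Finset.sum_le_sum
        intro x _
        split_ifs with hc
        · rw [hc.1, hc.2.1]; norm_num
        · exact mul_nonneg (hF x).1 (hF (x + h)).1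
      have h6 : ((A.filter (fun x => x + y ^ 2 ∈ A)).card : ℝ) ≤
          (((range N).filter (fun x => F x = 1 ∧ F (x + h) = 1 ∧ x + h < N)).card : ℝ) := by
        exact_mod_cast hc1
      linarith
    · have hhN : N ≤ h := by
        rw [hh, hNM, sq]; exact Nat.mul_le_mul (not_lt.mp hyM) (not_lt.mp hyM)
      have hempty : (range N).filter (fun x => F x = 1 ∧ F (x + h) = 1 ∧ x + h < N) = ∅ := by
        apply Finset.filter_eq_empty_iff.mpr
        intro x _ hc
        omega
      rw [hempty, Finset.card_empty] at hc1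
      have h6 : ((A.filter (fun x => x + y ^ 2 ∈ A)).card : ℝ) ≤ 0 := by exact_mod_cast hc1
      have h7 : 0 ≤ (N : ℝ) * (1 - 1 / (4 * (L : ℝ) ^ 16)) := by
        apply mul_nonneg hNr0.le
        have : 1 / (4 * (L : ℝ) ^ 16) ≤ 1 := by
          rw [div_le_one (by positivity)]; linarith
        linarith
      have h8 : 0 ≤ (L : ℝ) ^ 8 := by positivity
      linarith
  -- final contradiction
  set a : ℝ := (A.card : ℝ) with ha
  set cN : ℝ := ((A.filter (fun x => x + y ^ 2 ∈ A)).card : ℝ) with hcN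
  set η : ℝ := (L : ℝ) ^ 4 / 2 + X with hη
  have hη0 : 0 < η := by rw [hη]; positivity
  have ha1 : N / 2 - η ≤ a := by rw [hη]; linarith
  have hb0 : 0 ≤ (N : ℝ) / 2 - η := by rw [hη]; linarith
  have e1 : ((a / N) ^ 2 - ε) * N = a ^ 2 / N - ε * N := by
    field_simp
  have e2 : (N : ℝ) / 4 - η ≤ a ^ 2 / N := by
    rw [le_div_iff₀ hNr0]
    have : ((N : ℝ) / 2 - η) ^ 2 ≤ a ^ 2 := pow_le_pow_left₀ hb0 ha1 2
    nlinarith [sq_nonneg η]
  have e3 : ε * N ≤ N / (32 * (L : ℝ) ^ 16) := by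
    have := mul_le_mul_of_nonneg_right hε hNr0.le
    calc ε * N ≤ _ := this
      _ = _ := by ring
  rw [e1] at hy
  have e4 : (N : ℝ) * (1 - 1 / (4 * (L : ℝ) ^ 16)) = N - 8 * (N / (32 * (L : ℝ) ^ 16)) := by
    field_simp; ring
  rw [e4] at hcount
  have e5 : 512 * X ≤ N / (32 * (L : ℝ) ^ 16) := by
    rw [le_div_iff₀ (by positivity)]
    linarith
  rw [hη] at e2
  linarith

end Pool.Agent.Helper235.Chars
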