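import Pool.Agent.Helper235.Chars

open Finset

namespace Pool.Agent.Helper235.Chars

/-- building block attached to two primes -/
noncomputable def G (L : ℝ) (p q x : ℕ) : ℝ := rr p x * rr q x - L * (ch p x * ch q x)

lemma per_G (L : ℝ) (p q : ℕ) : Per (p * q) (G L p q) := by
  unfold G
  apply Per.sub
  · exact ((per_rr p).of_dvd (dvd_mul_right p q)).mul ((per_rr q).of_dvd (dvd_mul_left q p))
  · exact (((per_ch p).of_dvd (dvd_mul_right p q)).mul
      ((per_ch q).of_dvd (dvd_mul_left q p))).const_mul L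

lemma sum_range_rr (p : ℕ) (hp : p.Prime) : ∑ x ∈ range p, rr p x = 0 := by
  haveI := Fact.mk hp
  simp_rw [rr_eq]
  rw [sum_range_zmod, sum_rz]

lemma sum_range_ch (p : ℕ) (hp : p.Prime) (h2 : p ≠ 2) : ∑ x ∈ range p, ch p x = 0 := by
  haveI := Fact.mk hp
  simp_rw [ch_eq]
  rw [sum_range_zmod, sum_cz p h2]

lemma G_zero (L : ℝ) (p q m : ℕ) (hp : p.Prime) (h2 : p ≠ 2) (hq : 0 < q) (hm : 0 < m)
    (hco : Nat.Coprime p (q * m)) (w : ℕ → ℝ) (hw : Per m w) :
    ∑ x ∈ range (p * (q * m)), G L p q x * w x = 0 := by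
  have e : ∀ x, G L p q x * w x = rr p x * (rr q x * w x) - L * (ch p x * (ch q x * w x)) := by
    intro x; unfold G; ring
  simp_rw [e]
  rw [Finset.sum_sub_distrib, ← Finset.mul_sum]
  have hqm : 0 < q * m := Nat.mul_pos hq hm
  rw [sum_crt p (q * m) hco hp.pos hqm (rr p) (fun x => rr q x * w x) (per_rr p)
    (((per_rr q).of_dvd (dvd_mul_right q m)).mul (hw.of_dvd (dvd_mul_left m q)))]
  rw [sum_crt p (q * m) hco hp.pos hqm (ch p) (fun x => ch q x * w x) (per_ch p)
    (((per_ch q).of_dvd (dvd_mul_right q m)).mul (hw.of_dvd (dvd_mul_left m q)))]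
  rw [sum_range_rr p hp, sum_range_ch p hp h2]
  ring

lemma rz_bound_G (p q : ℕ) (hp : p.Prime) (hq : q.Prime) (L : ℝ) (hL : 0 ≤ L) (hL2 : L ≤ p * q)
    (x : ℕ) : |G L p q x| ≤ 2 * (p * q) := by
  have hr : ∀ p : ℕ, p.Prime → ∀ x, |rr p x| ≤ p := by
    intro p hp x
    have : (2 : ℝ) ≤ p := by exact_mod_cast hp.two_le
    unfold rr
    split_ifs
    · rw [abs_le]; constructor <;> linarith
    · rw [abs_le]; constructor <;> linarith
  have hc : ∀ p : ℕ, ∀ x, |ch p x| ≤ 1 := by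
    intro p x
    unfold ch
    rcases jacobiSym.trichotomy (x : ℤ) p with h | h | h <;> simp [h]
  unfold G
  have h1 := hr p hp x
  have h2 := hr q hq x
  have h3 := hc p x
  have h4 := hc q x
  calc |rr p x * rr q x - L * (ch p x * ch q x)| ≤ |rr p x * rr q x| + |L * (ch p x * ch q x)| :=
        abs_sub _ _
    _ = |rr p x| * |rr q x| + L * (|ch p x| * |ch q x|) := by
        rw [abs_mul, abs_mul, abs_mul, abs_of_nonneg hL]
    _ ≤ p * q + L * (1 * 1) := by
        apply add_le_add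
        · exact mul_le_mul h1 h2 (abs_nonneg _) (by positivity)
        · apply mul_le_mul_of_nonneg_left _ hL
          exact mul_le_mul h3 h4 (abs_nonneg _) (by positivity)
    _ ≤ 2 * (p * q) := by linarith

section
variable (p q : ℕ) [hp : Fact p.Prime] [hq : Fact q.Prime]

lemma sum_range_corr (p : ℕ) [hp : Fact p.Prime] (u v : ZMod p → ℝ) (h : ℕ) :
    ∑ x ∈ range p, u (x : ZMod p) * v ((x + h : ℕ) : ZMod p) = ∑ a : ZMod p, u a * v (a + h) := by
  rw [← sum_range_zmod p (fun a => u a * v (a + h))]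
  simp

lemma G_diag (L : ℝ) (hpq : p ≠ q) (hp2 : p ≠ 2) (hq2 : q ≠ 2)
    (hs : cz p (-1) * cz q (-1) = 1) (h : ℕ) :
    ∑ x ∈ range (p * q), G L p q x * G L p q (x + h) =
      ((p : ℝ) * q + L ^ 2) * (rr p h * rr q h) - 2 * L * (p * q) * (ch p h * ch q h) := by
  have hco : Nat.Coprime p q := (Nat.coprime_primes hp.out hq.out).mpr hpq
  have e : ∀ x, G L p q x * G L p q (x + h) =
      (rr p x * rr p (x + h)) * (rr q x * rr q (x + h))
      - L * ((rr p x * ch p (x + h)) * (rr q x * ch q (x + h)))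
      - L * ((ch p x * rr p (x + h)) * (ch q x * rr q (x + h)))
      + L ^ 2 * ((ch p x * ch p (x + h)) * (ch q x * ch q (x + h))) := by
    intro x; unfold G; ring
  simp_rw [e]
  rw [Finset.sum_add_distrib, Finset.sum_sub_distrib, Finset.sum_sub_distrib, ← Finset.mul_sum,
    ← Finset.mul_sum, ← Finset.mul_sum]
  have pp := hp.out.pos
  have qp := hq.out.pos
  rw [sum_crt p q hco pp qp (fun x => rr p x * rr p (x + h)) (fun x => rr q x * rr q (x + h))
    ((per_rr p).mul ((per_rr p).shift h)) ((per_rr q).mul ((per_rr q).shift h))]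
  rw [sum_crt p q hco pp qp (fun x => rr p x * ch p (x + h)) (fun x => rr q x * ch q (x + h))
    ((per_rr p).mul ((per_ch p).shift h)) ((per_rr q).mul ((per_ch q).shift h))]
  rw [sum_crt p q hco pp qp (fun x => ch p x * rr p (x + h)) (fun x => ch q x * rr q (x + h))
    ((per_ch p).mul ((per_rr p).shift h)) ((per_ch q).mul ((per_rr q).shift h))]
  rw [sum_crt p q hco pp qp (fun x => ch p x * ch p (x + h)) (fun x => ch q x * ch q (x + h))
    ((per_ch p).mul ((per_ch p).shift h)) ((per_ch q).mul ((per_ch q).shift h))]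
  simp_rw [rr_eq, ch_eq]
  simp_rw [sum_range_corr]
  rw [corr_rr, corr_rr, corr_rc p hp2, corr_rc q hq2, corr_cr p hp2, corr_cr q hq2,
    corr_cc p hp2, corr_cc q hq2]
  have hn1 : cz p (-(h : ZMod p)) = cz p (-1) * cz p (h : ZMod p) := by
    unfold cz
    rw [← neg_one_mul, map_mul]; push_cast; ring
  have hn2 : cz q (-(h : ZMod q)) = cz q (-1) * cz q (h : ZMod q) := by
    unfold cz
    rw [← neg_one_mul, map_mul]; push_cast; ring
  rw [hn1, hn2]
  have : (p : ℝ) * (cz p (-1) * cz p (h : ZMod p)) * (q * (cz q (-1) * cz q (h : ZMod q))) =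
      p * q * (cz p (h : ZMod p) * cz q (h : ZMod q)) * (cz p (-1) * cz q (-1)) := by ring
  rw [this, hs]
  ring

lemma cz_neg_one (hp2 : p ≠ 2) (hq2 : q ≠ 2) (hm : p % 4 = q % 4) :
    cz p (-1) * cz q (-1) = 1 := by
  unfold cz
  have r1 : ringChar (ZMod p) ≠ 2 := by rw [ZMod.ringChar_zmod_n]; exact hp2
  have r2 : ringChar (ZMod q) ≠ 2 := by rw [ZMod.ringChar_zmod_n]; exact hq2
  have e1 := quadraticChar_neg_one r1
  have e2 := quadraticChar_neg_one r2
  rw [ZMod.card] at e1 e2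
  have e3 : ((p : ℕ) : ZMod 4) = ((q : ℕ) : ZMod 4) := (ZMod.natCast_eq_natCast_iff' p q 4).mpr hm
  rw [e3, ← e2] at e1
  have e4 := quadraticChar_sq_one (F := ZMod q) (a := -1) (neg_ne_zero.mpr one_ne_zero)
  have : (quadraticChar (ZMod p) (-1) : ℤ) * quadraticChar (ZMod q) (-1) = 1 := by
    rw [e1, ← sq]; exact e4
  exact_mod_cast this

lemma ch_sq (y : ℕ) : ch p (y ^ 2) = if p ∣ y then 0 else 1 := by
  rw [ch_eq]
  unfold cz
  push_cast
  by_cases h : p ∣ y
  · have : (y : ZMod p) = 0 := (ZMod.natCast_eq_zero_iff y p).mpr h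
    simp [h, this]
  · have h0 : (y : ZMod p) ≠ 0 := fun hc => h ((ZMod.natCast_eq_zero_iff y p).mp hc)
    rw [quadraticChar_sq_one' h0, if_neg h]
    simp

lemma rr_sq (y : ℕ) : rr p (y ^ 2) = (if p ∣ y then (p : ℝ) else 0) - 1 := by
  unfold rr
  have : p ∣ y ^ 2 ↔ p ∣ y := ⟨fun h => hp.out.dvd_of_dvd_pow h, fun h => dvd_pow h two_ne_zero⟩
  simp [this]

end

/-- upper bound for the mean of the autocorrelation at a square -/
noncomputable def mq (L : ℝ) (p q y : ℕ) : ℝ :=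
  if p ∣ y then (if q ∣ y then 2 * (p * q) else 0) else (if q ∣ y then 0 else 2 - 2 * L)

lemma G_diag_le (L : ℝ) (p q : ℕ) (hp : p.Prime) (hq : q.Prime) (hpq : p ≠ q) (hp2 : p ≠ 2)
    (hq2 : q ≠ 2) (hm : p % 4 = q % 4) (hL : 0 ≤ L) (hLp : L ≤ p) (hLq : L ≤ q) (y : ℕ) :
    ∑ x ∈ range (p * q), G L p q x * G L p q (x + y ^ 2) ≤ ((p * q : ℕ) : ℝ) * mq L p q y := by
  haveI := Fact.mk hp
  haveI := Fact.mk hq
  rw [G_diag p q L hpq hp2 hq2 (cz_neg_one p q hp2 hq2 hm), ch_sq, ch_sq, rr_sq, rr_sq]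
  unfold mq
  have h1 : (2 : ℝ) ≤ p := by exact_mod_cast hp.two_le
  have h2 : (2 : ℝ) ≤ q := by exact_mod_cast hq.two_le
  have hLL : L ^ 2 ≤ p * q := by
    rw [sq]; exact mul_le_mul hLp hLq hL (by linarith)
  have hLL0 : 0 ≤ L ^ 2 := sq_nonneg L
  have hpq0 : (0 : ℝ) < p * q := by positivity
  push_cast
  by_cases c1 : p ∣ y <;> by_cases c2 : q ∣ y
  · simp only [c1, c2, if_true]
    have a1 : ((p : ℝ) - 1) * (q - 1) ≤ p * q := by nlinarith
    have a2 : 0 ≤ ((p : ℝ) - 1) * (q - 1) := mul_nonneg (by linarith) (by linarith)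
    have a3 : ((p : ℝ) * q + L ^ 2) * (((p : ℝ) - 1) * (q - 1)) ≤ (2 * (p * q)) * (p * q) :=
      mul_le_mul (by linarith) a1 a2 (by positivity)
    nlinarith
  · simp only [c1, c2, if_true, if_false]
    have a1 : 0 ≤ ((p : ℝ) * q + L ^ 2) * ((p : ℝ) - 1) :=
      mul_nonneg (by positivity) (by linarith)
    nlinarith
  · simp only [c1, c2, if_true, if_false]
    have a1 : 0 ≤ ((p : ℝ) * q + L ^ 2) * ((q : ℝ) - 1) :=
      mul_nonneg (by positivity) (by linarith)
    nlinarith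
  · simp only [c1, c2, if_false]
    nlinarith

end Pool.Agent.Helper235.Chars
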