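import Mathlib

open Finset

namespace Pool.Agent.Helper235.Chars

/-- periodicity modulo `m` -/
def Per (m : ℕ) (u : ℕ → ℝ) : Prop := ∀ x, u (x % m) = u x

lemma Per.of_dvd {m M : ℕ} {u : ℕ → ℝ} (h : Per m u) (hd : m ∣ M) : Per M u := by
  intro x
  rw [← h (x % M), Nat.mod_mod_of_dvd x hd, h x]

lemma Per.mul {m : ℕ} {u v : ℕ → ℝ} (hu : Per m u) (hv : Per m v) : Per m (fun x => u x * v x) := by
  intro x
  simp only [hu x, hv x]

lemma Per.sub {m : ℕ} {u v : ℕ → ℝ} (hu : Per m u) (hv : Per m v) : Per m (fun x => u x - v x) := by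
  intro x
  simp only [hu x, hv x]

lemma Per.const_mul {m : ℕ} {u : ℕ → ℝ} (hu : Per m u) (c : ℝ) : Per m (fun x => c * u x) := by
  intro x
  simp only [hu x]

lemma Per.sub_const {m : ℕ} {u : ℕ → ℝ} (hu : Per m u) (c : ℝ) : Per m (fun x => u x - c) := by
  intro x
  simp only [hu x]

lemma Per.shift {m : ℕ} {u : ℕ → ℝ} (hu : Per m u) (h : ℕ) : Per m (fun x => u (x + h)) := by
  intro x
  show u (x % m + h) = u (x + h)
  rw [← hu (x % m + h), Nat.mod_add_mod, hu]

lemma sum_crt (m n : ℕ) (hmn : Nat.Coprime m n) (hm : 0 < m) (hn : 0 < n) (u v : ℕ → ℝ)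
    (hu : Per m u) (hv : Per n v) :
    ∑ x ∈ range (m * n), u x * v x = (∑ x ∈ range m, u x) * ∑ x ∈ range n, v x := by
  rw [Finset.sum_mul_sum, ← Finset.sum_product']
  refine Finset.sum_nbij' (fun x => (x % m, x % n))
    (fun ab => (Nat.chineseRemainder hmn ab.1 ab.2 : ℕ)) ?_ ?_ ?_ ?_ ?_
  · intro x _
    simp only [mem_product, mem_range]
    exact ⟨Nat.mod_lt _ hm, Nat.mod_lt _ hn⟩
  · intro ab _
    simp only [mem_range]
    exact Nat.chineseRemainder_lt_mul hmn _ _ hm.ne' hn.ne'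
  · intro x hx
    simp only [mem_range] at hx
    have h1 : x ≡ Nat.chineseRemainder hmn (x % m) (x % n) [MOD m * n] :=
      Nat.chineseRemainder_modEq_unique hmn (Nat.mod_modEq x m).symm (Nat.mod_modEq x n).symm
    have h2 := Nat.chineseRemainder_lt_mul hmn (x % m) (x % n) hm.ne' hn.ne'
    exact (Nat.ModEq.eq_of_lt_of_lt h1 hx h2).symm
  · rintro ⟨a, b⟩ hab
    simp only [mem_product, mem_range] at hab
    have h1 := (Nat.chineseRemainder hmn a b).2.1
    have h2 := (Nat.chineseRemainder hmn a b).2.2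
    ext
    · simp only
      rw [h1]; exact Nat.mod_eq_of_lt hab.1
    · simp only
      rw [h2]; exact Nat.mod_eq_of_lt hab.2
  · intro x _
    simp only [hu x, hv x]

lemma sum_mul_period (T : ℕ) (g : ℕ → ℝ) (hg : Per T g) (k : ℕ) :
    ∑ x ∈ range (T * k), g x = k * ∑ x ∈ range T, g x := by
  induction k with
  | zero => simp
  | succ k ih =>
    rw [Nat.mul_succ, Finset.sum_range_add, ih]
    have : ∀ x ∈ range T, g (T * k + x) = g x := by
      intro x hx
      rw [← hg (T * k + x)]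
      simp only [mem_range] at hx
      rw [Nat.mul_add_mod, Nat.mod_eq_of_lt hx]
    rw [Finset.sum_congr rfl this]
    push_cast
    ring

lemma incomplete (T : ℕ) (hT : 0 < T) (g : ℕ → ℝ) (hg : Per T g)
    (hz : ∑ x ∈ range T, g x = 0) (b : ℝ) (hb : ∀ x, |g x| ≤ b) (n : ℕ) :
    |∑ x ∈ range n, g x| ≤ T * b := by
  have hb0 : 0 ≤ b := le_trans (abs_nonneg _) (hb 0)
  rw [← Nat.div_add_mod n T, Finset.sum_range_add, sum_mul_period T g hg, hz, mul_zero, zero_add]
  calc |∑ x ∈ range (n % T), g (T * (n / T) + x)| ≤ ∑ x ∈ range (n % T), |g (T * (n / T) + x)| :=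
        Finset.abs_sum_le_sum_abs _ _
    _ ≤ ∑ x ∈ range (n % T), b := Finset.sum_le_sum (fun x _ => hb _)
    _ = (n % T : ℕ) * b := by simp
    _ ≤ T * b := by
        apply mul_le_mul_of_nonneg_right _ hb0
        exact_mod_cast (Nat.mod_lt n hT).le

lemma incomplete_mean (T : ℕ) (hT : 0 < T) (g : ℕ → ℝ) (hg : Per T g)
    (W : ℝ) (hz : ∑ x ∈ range T, g x = T * W) (b : ℝ) (hb : ∀ x, |g x| ≤ b) (n : ℕ) :
    ∑ x ∈ range n, g x ≤ n * W + T * (2 * b) := by
  have hT' : (0 : ℝ) < T := by exact_mod_cast hT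
  have hW : |W| ≤ b := by
    have h1 : |(T : ℝ) * W| ≤ T * b := by
      rw [← hz]
      calc |∑ x ∈ range T, g x| ≤ ∑ x ∈ range T, |g x| := Finset.abs_sum_le_sum_abs _ _
        _ ≤ ∑ x ∈ range T, b := Finset.sum_le_sum (fun x _ => hb _)
        _ = T * b := by simp
    rw [abs_mul, abs_of_pos hT'] at h1
    exact le_of_mul_le_mul_left h1 hT'
  have := incomplete T hT (fun x => g x - W) (hg.sub_const W) (by
    rw [Finset.sum_sub_distrib, hz]; simp) (2 * b) (by
      intro x
      calc |g x - W| ≤ |g x| + |W| := abs_sub _ _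
        _ ≤ 2 * b := by linarith [hb x]) n
  rw [Finset.sum_sub_distrib] at this
  simp only [sum_const, card_range, nsmul_eq_mul] at this
  linarith [(abs_le.mp this).2]

/-! ### The local functions -/

/-- `p * 1_{p ∣ x} - 1` -/
noncomputable def rr (p x : ℕ) : ℝ := (if p ∣ x then (p : ℝ) else 0) - 1

/-- the quadratic character -/
noncomputable def ch (p x : ℕ) : ℝ := ((jacobiSym (x : ℤ) p : ℤ) : ℝ)

lemma per_rr (p : ℕ) : Per p (rr p) := by
  intro x
  unfold rr
  have : p ∣ x % p ↔ p ∣ x := (Nat.dvd_mod_iff (dvd_refl p))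
  simp [this]

lemma per_ch (p : ℕ) : Per p (ch p) := by
  intro x
  unfold ch
  rw [jacobiSym.mod_left (x : ℤ) p]
  push_cast
  rfl

section prime
variable (p : ℕ) [hp : Fact p.Prime]

/-- version on `ZMod p` -/
noncomputable def rz (a : ZMod p) : ℝ := (if a = 0 then (p : ℝ) else 0) - 1
/-- version on `ZMod p` -/
noncomputable def cz (a : ZMod p) : ℝ := ((quadraticChar (ZMod p) a : ℤ) : ℝ)

lemma rr_eq (x : ℕ) : rr p x = rz p (x : ZMod p) := by
  unfold rr rz
  simp [ZMod.natCast_eq_zero_iff]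

lemma ch_eq (x : ℕ) : ch p x = cz p (x : ZMod p) := by
  unfold ch cz
  rw [← jacobiSym.legendreSym.to_jacobiSym]
  simp [legendreSym]

lemma sum_range_zmod (u : ZMod p → ℝ) : ∑ x ∈ range p, u (x : ZMod p) = ∑ a : ZMod p, u a := by
  refine Finset.sum_nbij' (fun x => (x : ZMod p)) (fun a => a.val) ?_ ?_ ?_ ?_ ?_
  · intro x _; simp
  · intro a _; simpa using ZMod.val_lt a
  · intro x hx
    simp only [mem_range] at hx
    exact ZMod.val_natCast_of_lt hx
  · intro a _; simp
  · intro x _; rfl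

lemma sum_rz : ∑ a : ZMod p, rz p a = 0 := by
  unfold rz
  rw [Finset.sum_sub_distrib, Finset.sum_ite_eq']
  simp [ZMod.card]

lemma sum_cz (h2 : p ≠ 2) : ∑ a : ZMod p, cz p a = 0 := by
  unfold cz
  have : ringChar (ZMod p) ≠ 2 := by rw [ZMod.ringChar_zmod_n]; exact h2
  have h := quadraticChar_sum_zero this
  exact_mod_cast h

lemma sum_rz_mul (v : ZMod p → ℝ) : ∑ a : ZMod p, rz p a * v a = p * v 0 - ∑ a, v a := by
  unfold rz
  simp_rw [sub_mul, one_mul]
  rw [Finset.sum_sub_distrib]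
  congr 1
  simp

lemma sum_shift (v : ZMod p → ℝ) (h : ZMod p) : ∑ a : ZMod p, v (a + h) = ∑ a, v a :=
  Fintype.sum_equiv (Equiv.addRight h) _ _ (fun _ => rfl)

lemma corr_rr (h : ZMod p) : ∑ a : ZMod p, rz p a * rz p (a + h) = p * rz p h := by
  rw [sum_rz_mul p (fun a => rz p (a + h)), sum_shift p (rz p) h, sum_rz]
  simp

lemma corr_rc (h2 : p ≠ 2) (h : ZMod p) : ∑ a : ZMod p, rz p a * cz p (a + h) = p * cz p h := by
  rw [sum_rz_mul p (fun a => cz p (a + h)), sum_shift p (cz p) h, sum_cz p h2]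
  simp

lemma corr_cr (h2 : p ≠ 2) (h : ZMod p) : ∑ a : ZMod p, cz p a * rz p (a + h) = p * cz p (-h) := by
  have : ∑ a : ZMod p, cz p a * rz p (a + h) = ∑ a : ZMod p, cz p (a + -h) * rz p (a + -h + h) :=
    (sum_shift p (fun a => cz p a * rz p (a + h)) (-h)).symm
  rw [this]
  simp only [neg_add_cancel_right]
  simp_rw [mul_comm (cz p _)]
  exact corr_rc p h2 (-h)

lemma corr_cc (h2 : p ≠ 2) (h : ZMod p) : ∑ a : ZMod p, cz p a * cz p (a + h) = rz p h := by
  by_cases hh : h = 0
  · subst hh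
    simp only [add_zero]
    have h1 : ∀ a : ZMod p, cz p a * cz p a = 1 - (if a = 0 then 1 else 0) := by
      intro a
      unfold cz
      by_cases ha : a = 0
      · simp [ha]
      · have := quadraticChar_sq_one (F := ZMod p) ha
        rw [if_neg ha, ← sq]
        exact_mod_cast this
    simp_rw [h1]
    rw [Finset.sum_sub_distrib]
    unfold rz
    simp [ZMod.card]
  · -- reduce to a sum over nonzero elements
    have h1 : ∀ a : ZMod p, cz p a * cz p (a + h) =
        if a = 0 then 0 else cz p (1 + h * a⁻¹) := by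
      intro a
      by_cases ha : a = 0
      · simp [ha, cz]
      · rw [if_neg ha]
        unfold cz
        have e : a + h = a * (1 + h * a⁻¹) := by
          field_simp
        rw [e, map_mul]
        have := quadraticChar_sq_one (F := ZMod p) ha
        have e2 : (quadraticChar (ZMod p) a : ℤ) * ((quadraticChar (ZMod p) a : ℤ) *
          (quadraticChar (ZMod p) (1 + h * a⁻¹) : ℤ)) = quadraticChar (ZMod p) (1 + h * a⁻¹) := by
          rw [← mul_assoc, ← sq, this, one_mul]
        exact_mod_cast e2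
    simp_rw [h1]
    have h3 : ∑ a : ZMod p, (if a = 0 then (0 : ℝ) else cz p (1 + h * a⁻¹)) =
        ∑ b : ZMod p, (if b = 1 then (0 : ℝ) else cz p b) := by
      refine Finset.sum_bij_ne_zero (fun a _ _ => 1 + h * a⁻¹) ?_ ?_ ?_ ?_
      · intro a _ _; exact Finset.mem_univ _
      · intro a _ ha b _ hb hab
        have ha0 : a ≠ 0 := by rintro rfl; simp at ha
        have hb0 : b ≠ 0 := by rintro rfl; simp at hb
        have : h * a⁻¹ = h * b⁻¹ := by linear_combination hab
        have := mul_left_cancel₀ hh this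
        exact inv_injective this
      · intro b _ hb
        have hb1 : b ≠ 1 := by rintro rfl; simp at hb
        have hb1' : b - 1 ≠ 0 := sub_ne_zero.mpr hb1
        refine ⟨h * (b - 1)⁻¹, Finset.mem_univ _, ?_, ?_⟩
        · have hne : h * (b - 1)⁻¹ ≠ 0 := mul_ne_zero hh (inv_ne_zero hb1')
          rw [if_neg hne]
          have : 1 + h * (h * (b - 1)⁻¹)⁻¹ = b := by
            rw [mul_inv, inv_inv, ← mul_assoc, mul_inv_cancel₀ hh]; ring
          rw [this]
          rw [if_neg hb1] at hb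
          exact hb
        · rw [mul_inv, inv_inv, ← mul_assoc, mul_inv_cancel₀ hh]; ring
      · intro a _ ha
        have ha0 : a ≠ 0 := by rintro rfl; simp at ha
        have : 1 + h * a⁻¹ ≠ 1 := by
          intro hc
          have : h * a⁻¹ = 0 := by linear_combination hc
          rcases mul_eq_zero.mp this with h' | h'
          · exact hh h'
          · exact ha0 (inv_eq_zero.mp h')
        rw [if_neg ha0, if_neg this]
    rw [h3]
    have h4 : ∀ b : ZMod p, (if b = 1 then (0 : ℝ) else cz p b) = cz p b - (if b = 1 then 1 else 0) := by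
      intro b
      by_cases hb : b = 1
      · subst hb; simp [cz]
      · simp [hb]
    simp_rw [h4]
    rw [Finset.sum_sub_distrib, sum_cz p h2]
    unfold rz
    simp [hh]

end prime

end Pool.Agent.Helper235.Chars
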