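import Mathlib
set_option autoImplicit false

namespace Pool.Agent.Helper235.CosetBip

open Finset

variable {V : Type*} [AddCommGroup V] {ι : Type*}

/-- Cayley-type graph on R -/
def cayR (g : ι → V) (R : Set V) (h2 : ∀ x : V, x + x = 0) (h0 : ∀ i, g i ≠ 0) : SimpleGraph V where
  Adj x y := x ∈ R ∧ y ∈ R ∧ ∃ i, x + g i = y
  symm := ⟨by
    rintro x y ⟨hx, hy, i, rfl⟩
    exact ⟨hy, hx, i, by rw [add_assoc, h2, add_zero]⟩⟩
  loopless := ⟨by
    rintro x ⟨_, _, i, hi⟩
    exact h0 i (by simpa using hi)⟩

lemma walk_list (g : ι → V) (R : Set V) (h2 : ∀ x : V, x + x = 0) (h0 : ∀ i, g i ≠ 0)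
    {x y : V} (w : (cayR g R h2 h0).Walk x y) :
    ∃ l : List ι, l.length = w.length ∧ x + (l.map g).sum = y := by
  induction w with
  | nil => exact ⟨[], rfl, by simp⟩
  | @cons u v z h p ih =>
    obtain ⟨l, hl, hs⟩ := ih
    obtain ⟨_, _, i, hi⟩ := h
    refine ⟨i :: l, by simp [hl], ?_⟩
    rw [List.map_cons, List.sum_cons, ← add_assoc, hi, hs]

lemma path_short (g : ι → V) (R : Set V) (h2 : ∀ x : V, x + x = 0) (h0 : ∀ i, g i ≠ 0) (v : ℕ)
    (hv : 2 ≤ v)
    (hpath : ∀ (x : V) (lam : ℕ → ι), (∀ k < v, x + ∑ t ∈ range k, g (lam t) ∈ R) →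
      ¬ (∀ k < v, ∀ k' < v, k < k' → ∑ t ∈ range k, g (lam t) ≠ ∑ t ∈ range k', g (lam t)))
    {x y : V} (p : (cayR g R h2 h0).Walk x y) (hp : p.IsPath) : p.length + 1 < v := by
  by_contra hlen
  rw [not_lt] at hlen
  have hadj : ∀ t < p.length, ∃ i, p.getVert t + g i = p.getVert (t+1) := by
    intro t ht
    exact (p.adj_getVert_succ ht).2.2
  have hι : Nonempty ι := by
    obtain ⟨i, _⟩ := hadj 0 (by omega)
    exact ⟨i⟩
  classical
  let lam : ℕ → ι := fun t => if ht : t < p.length then (hadj t ht).choose else Classical.choice hι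
  have hlam : ∀ t < p.length, p.getVert t + g (lam t) = p.getVert (t+1) := by
    intro t ht
    have : lam t = (hadj t ht).choose := by simp [lam, ht]
    rw [this]
    exact (hadj t ht).choose_spec
  have hsum : ∀ k, k ≤ p.length → x + ∑ t ∈ range k, g (lam t) = p.getVert k := by
    intro k
    induction k with
    | zero => intro _; simp
    | succ k ih =>
      intro hk
      rw [sum_range_succ, ← add_assoc, ih (by omega), hlam k (by omega)]
  have hR : ∀ k ≤ p.length, p.getVert k ∈ R := by
    intro k hk
    rcases Nat.lt_or_ge k p.length with h | h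
    · exact (p.adj_getVert_succ h).1
    · have hk' : k = p.length := le_antisymm hk h
      have h1 := (p.adj_getVert_succ (i := p.length - 1) (by omega)).2.1
      have h3 : p.length - 1 + 1 = k := by omega
      rwa [h3] at h1
  apply hpath x lam
  · intro k hk
    rw [hsum k (by omega)]
    exact hR k (by omega)
  · intro k hk k' hk' hkk' heq
    have h1 : p.getVert k = p.getVert k' := by
      rw [← hsum k (by omega), ← hsum k' (by omega), heq]
    have := hp.getVert_injOn (by simpa using (by omega : k ≤ p.length)) (by simpa using (by omega : k' ≤ p.length)) h1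
    omega

/-- two-colouring of Cayley graph restricted to R. -/
theorem exists_coloring (g : ι → V) (R : Set V) (h2 : ∀ x : V, x + x = 0) (v : ℕ)
    (hv : 2 ≤ v)
    (hpath : ∀ (x : V) (lam : ℕ → ι), (∀ k < v, x + ∑ t ∈ range k, g (lam t) ∈ R) →
      ¬ (∀ k < v, ∀ k' < v, k < k' → ∑ t ∈ range k, g (lam t) ≠ ∑ t ∈ range k', g (lam t)))
    (hodd : ∀ lam : ℕ → ι, ∑ t ∈ range (2*v-1), g (lam t) ≠ 0) :
    ∃ c : V → Bool, ∀ x ∈ R, ∀ y ∈ R, ∀ i, x + g i = y → c x ≠ c y := by
  classical
  -- odd lists have nonzero sum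
  have hoddl : ∀ l : List ι, Odd l.length → l.length ≤ 2*v-1 → (l.map g).sum ≠ 0 := by
    intro l hl hlen hs
    have hne : l ≠ [] := by
      rintro rfl
      simp at hl
    have i0 : ι := l.head hne
    let lam : ℕ → ι := fun t => if h : t < l.length then l.get ⟨t, h⟩ else i0
    apply hodd lam
    have h1 : ∑ t ∈ range l.length, g (lam t) = (l.map g).sum := by
      rw [Finset.sum_range]
      rw [← List.sum_ofFn]
      congr 1
      apply List.ext_get
      · simp
      · intro n h1 h2
        simp only [List.length_ofFn] at h1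
        simp [lam]
    have h3 : ∀ m, ∑ t ∈ Ico l.length (l.length + 2*m), g (lam t) = 0 := by
      intro m
      rw [Finset.sum_Ico_eq_sum_range]
      have : ∀ t ∈ range (l.length + 2*m - l.length), g (lam (l.length + t)) = g i0 := by
        intro t _
        simp [lam]
      rw [Finset.sum_congr rfl this, Finset.sum_const, Finset.card_range]
      have : l.length + 2*m - l.length = m * 2 := by omega
      rw [this, mul_nsmul', two_nsmul, h2, nsmul_zero]
    obtain ⟨r, hr⟩ := hl
    obtain ⟨m, hm⟩ : ∃ m, 2*v-1 = l.length + 2*m := ⟨v - 1 - r, by omega⟩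
    rw [hm, ← Finset.sum_range_add_sum_Ico _ (Nat.le_add_right _ _), h1, h3, hs, add_zero]
  have h0 : ∀ i, g i ≠ 0 := by
    intro i
    have := hoddl [i] (by simp) (by simp; omega)
    simpa using this
  let G := cayR g R h2 h0
  have hdist : ∀ x y, G.Reachable x y → G.dist x y + 1 < v := by
    intro x y hxy
    obtain ⟨p, hp⟩ := hxy.exists_walk_length_eq_dist
    have := path_short g R h2 h0 v hv hpath p (p.isPath_of_length_eq_dist hp)
    omega
  let root : V → V := fun x => (G.connectedComponentMk x).out
  have hroot : ∀ x, G.Reachable (root x) x := by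
    intro x
    have : G.connectedComponentMk (root x) = G.connectedComponentMk x := Quot.out_eq _
    exact SimpleGraph.ConnectedComponent.exact this
  refine ⟨fun x => decide (Odd (G.dist (root x) x)), ?_⟩
  intro x hx y hy i hi
  have hadj : G.Adj x y := ⟨hx, hy, i, hi⟩
  have hr : root y = root x := by
    have : G.connectedComponentMk y = G.connectedComponentMk x :=
      (SimpleGraph.ConnectedComponent.sound hadj.reachable).symm
    simp only [root, this]
  intro heq
  simp only [hr, decide_eq_decide] at heq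
  obtain ⟨p, hp⟩ := (hroot x).exists_walk_length_eq_dist
  have hry : G.Reachable (root x) y := hr ▸ hroot y
  obtain ⟨q, hq⟩ := hry.exists_walk_length_eq_dist
  have hd1 := hdist _ _ (hroot x)
  have hd2 := hdist _ _ hry
  obtain ⟨l, hl, hs⟩ := walk_list g R h2 h0 ((p.append (SimpleGraph.Walk.cons hadj SimpleGraph.Walk.nil)).append q.reverse)
  have hlen : l.length = G.dist (root x) x + 1 + G.dist (root x) y := by
    rw [hl]; simp [hp, hq]
  apply hoddl l
  · rw [hlen]
    by_cases ho : Odd (G.dist (root x) x)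
    · have := heq.mp ho
      grind
    · have h' : ¬ Odd (G.dist (root x) y) := fun h => ho (heq.mpr h)
      grind
  · omega
  · simpa using hs

end Pool.Agent.Helper235.CosetBip
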