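import Mathlib
set_option autoImplicit false

namespace Pool.Agent.Helper235.CosetSign

open Finset

/-- sign of a bit -/
def sgn (b : Bool) : ℤ := if b then 1 else -1

lemma sum_sgn {J : Type*} [Fintype J] (G : J → Bool) :
    ∑ j, sgn (G j) = 2 * (#{j | G j = true} : ℤ) - Fintype.card J := by
  have h : ∀ j, sgn (G j) = 2 * (if G j = true then 1 else 0) - 1 := by
    intro j
    unfold sgn
    split_ifs <;> norm_num
  simp_rw [h]
  rw [Finset.sum_sub_distrib, ← Finset.mul_sum]
  simp

lemma card_sum_eq {J : Type*} [Fintype J] [DecidableEq J] (a : J → Bool) (t : ℤ) :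
    #{G : J → Bool | ∑ j, sgn (xor (a j) (G j)) = t} ≤
      (Fintype.card J).choose (Fintype.card J / 2) := by
  rcases Finset.eq_empty_or_nonempty ({G : J → Bool | ∑ j, sgn (xor (a j) (G j)) = t} : Finset (J → Bool)) with h | ⟨G0, hG0⟩
  · rw [h]; simp
  · have h0 : ∑ j, sgn (xor (a j) (G0 j)) = t := by simpa using hG0
    set k := #{j | xor (a j) (G0 j) = true} with hk
    have hinj : Set.InjOn (fun G : J → Bool => ({j | xor (a j) (G j) = true} : Finset J))
        ({G : J → Bool | ∑ j, sgn (xor (a j) (G j)) = t} : Finset (J → Bool)) := by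
      intro G _ G' _ h
      funext j
      have := Finset.ext_iff.mp h j
      simp only [Finset.mem_filter, Finset.mem_univ, true_and] at this
      cases ha : a j <;> cases hG : G j <;> cases hG' : G' j <;> simp_all
    calc #{G : J → Bool | ∑ j, sgn (xor (a j) (G j)) = t}
        = #(({G : J → Bool | ∑ j, sgn (xor (a j) (G j)) = t} : Finset (J → Bool)).image
            (fun G : J → Bool => ({j | xor (a j) (G j) = true} : Finset J))) :=
          (Finset.card_image_of_injOn hinj).symm
      _ ≤ #(Finset.powersetCard k (Finset.univ : Finset J)) := by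
          apply Finset.card_le_card
          intro s hs
          simp only [Finset.mem_image, Finset.mem_filter, Finset.mem_univ, true_and] at hs
          obtain ⟨G, hG, rfl⟩ := hs
          rw [Finset.mem_powersetCard]
          refine ⟨Finset.subset_univ _, ?_⟩
          have h1 := sum_sgn (fun j => xor (a j) (G j))
          have h2 := sum_sgn (fun j => xor (a j) (G0 j))
          rw [hG] at h1
          rw [h0] at h2
          have : (#{j | xor (a j) (G j) = true} : ℤ) = #{j | xor (a j) (G0 j) = true} := by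
            linarith
          exact_mod_cast this
      _ = (Fintype.card J).choose k := by rw [Finset.card_powersetCard, Finset.card_univ]
      _ ≤ _ := Nat.choose_le_middle _ _

lemma card_interval {J : Type*} [Fintype J] [DecidableEq J] (a : J → Bool) (c : ℤ) (C : ℕ) :
    #{G : J → Bool | |∑ j, sgn (xor (a j) (G j)) + c| ≤ 2 * (C : ℤ)} ≤
      (4 * C + 1) * (Fintype.card J).choose (Fintype.card J / 2) := by
  calc #{G : J → Bool | |∑ j, sgn (xor (a j) (G j)) + c| ≤ 2 * (C : ℤ)}
      ≤ #((Finset.Icc (-2 * (C:ℤ) - c) (2 * (C:ℤ) - c)).biUnion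
          (fun t => ({G : J → Bool | ∑ j, sgn (xor (a j) (G j)) = t} : Finset (J → Bool)))) := by
        apply Finset.card_le_card
        intro G hG
        simp only [Finset.mem_filter, Finset.mem_univ, true_and] at hG
        simp only [Finset.mem_biUnion, Finset.mem_Icc, Finset.mem_filter, Finset.mem_univ, true_and]
        rw [abs_le] at hG
        exact ⟨_, ⟨by linarith, by linarith⟩, rfl⟩
    _ ≤ ∑ t ∈ Finset.Icc (-2 * (C:ℤ) - c) (2 * (C:ℤ) - c),
          #{G : J → Bool | ∑ j, sgn (xor (a j) (G j)) = t} := Finset.card_biUnion_le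
    _ ≤ ∑ t ∈ Finset.Icc (-2 * (C:ℤ) - c) (2 * (C:ℤ) - c),
          (Fintype.card J).choose (Fintype.card J / 2) :=
        Finset.sum_le_sum (fun t _ => card_sum_eq a t)
    _ = _ := by
        rw [Finset.sum_const, smul_eq_mul]
        congr 1
        rw [Int.card_Icc]
        omega

lemma centralBinom_sq (k : ℕ) : (3 * k + 1) * (Nat.centralBinom k) ^ 2 ≤ 16 ^ k := by
  induction k with
  | zero => simp
  | succ k ih =>
    have h := Nat.succ_mul_centralBinom_succ k
    -- (k+1) * cb (k+1) = 2 * (2k+1) * cb k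
    have h2 : (k+1)^2 * (Nat.centralBinom (k+1))^2 = 4 * (2*k+1)^2 * (Nat.centralBinom k)^2 := by
      calc (k+1)^2 * (Nat.centralBinom (k+1))^2 = ((k+1) * Nat.centralBinom (k+1))^2 := by ring
        _ = (2 * (2*k+1) * Nat.centralBinom k)^2 := by rw [h]
        _ = _ := by ring
    have h3 : (3*k+1) * (k+1)^2 * ((3*(k+1)+1) * (Nat.centralBinom (k+1))^2) ≤
        (3*k+1) * (k+1)^2 * 16^(k+1) := by
      calc (3*k+1) * (k+1)^2 * ((3*(k+1)+1) * (Nat.centralBinom (k+1))^2)
          = (3*k+1) * (3*(k+1)+1) * ((k+1)^2 * (Nat.centralBinom (k+1))^2) := by ring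
        _ = (3*(k+1)+1) * 4 * (2*k+1)^2 * ((3*k+1) * (Nat.centralBinom k)^2) := by rw [h2]; ring
        _ ≤ (3*(k+1)+1) * 4 * (2*k+1)^2 * 16^k := Nat.mul_le_mul_left _ ih
        _ ≤ (3*k+1) * (k+1)^2 * 16 * 16^k := by
            apply Nat.mul_le_mul_right
            nlinarith [sq_nonneg (k:ℤ)]
        _ = _ := by ring
    exact Nat.le_of_mul_le_mul_left h3 (by positivity)

lemma choose_sq (N : ℕ) : N * (N.choose (N/2))^2 ≤ 4^N := by
  rcases Nat.even_or_odd' N with ⟨k, rfl | rfl⟩
  · have h := centralBinom_sq k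
    rw [Nat.mul_div_cancel_left _ (by norm_num : 0 < 2)]
    rw [← Nat.centralBinom_eq_two_mul_choose]
    calc 2 * k * (Nat.centralBinom k)^2 ≤ (3*k+1) * (Nat.centralBinom k)^2 :=
          Nat.mul_le_mul_right _ (by omega)
      _ ≤ 16^k := h
      _ = 4^(2*k) := by rw [pow_mul]; norm_num
  · have h := centralBinom_sq (k+1)
    have h1 : (2*k+1)/2 = k := by omega
    rw [h1]
    have h2 : Nat.centralBinom (k+1) = 2 * (2*k+1).choose k := by
      rw [Nat.centralBinom_eq_two_mul_choose]
      have : 2 * (k+1) = 2*k+1+1 := by ring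
      rw [this, Nat.choose_succ_succ, Nat.succ_eq_add_one]
      have h3 : (2*k+1).choose (k+1) = (2*k+1).choose k := by
        rw [← Nat.choose_symm_of_eq_add (by ring : 2*k+1 = k + (k+1))]
      omega
    rw [h2] at h
    have h4 : 4 * ((2*k+1) * ((2*k+1).choose k)^2) ≤ 4 * 4^(2*k+1) := by
      calc 4 * ((2*k+1) * ((2*k+1).choose k)^2) ≤ (3*(k+1)+1) * (2 * (2*k+1).choose k)^2 := by
            have : (3*(k+1)+1) * (2 * (2*k+1).choose k)^2 = 4 * ((3*(k+1)+1) * ((2*k+1).choose k)^2) := by ring
            rw [this]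
            apply Nat.mul_le_mul_left
            apply Nat.mul_le_mul_right
            omega
        _ ≤ 16^(k+1) := h
        _ = 4 * 4^(2*k+1) := by
            rw [← pow_succ', (by norm_num : 16 = 4^2), ← pow_mul]
            congr 1
    omega

section xorlemma

variable {I K B Y : Type*} [Fintype I] [DecidableEq I] [Fintype K] [DecidableEq K]
  [Fintype B] [DecidableEq B] [Fintype Y] [DecidableEq Y]

/-- perturbation of the bits at the private coordinates -/
noncomputable def pert (J : Finset B) (r : K → B → Y) (G : I × K → (J → Bool)) (i : I) (j : B) (y : Y) : Bool := by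
  classical
  exact decide (∃ k, ∃ hj : j ∈ J, r k j = y ∧ G (i, k) ⟨j, hj⟩ = true)

lemma pert_mem (J : Finset B) (r : K → B → Y) (hr : ∀ j ∈ J, Function.Injective (fun k => r k j))
    (G : I × K → (J → Bool)) (i : I) (k : K) (j : B) (hj : j ∈ J) :
    pert J r G i j (r k j) = G (i, k) ⟨j, hj⟩ := by
  classical
  unfold pert
  rw [Bool.eq_iff_iff]
  simp only [decide_eq_true_eq]
  constructor
  · rintro ⟨k', hj', h1, h2⟩
    have := hr j hj h1
    subst this
    exact h2
  · intro h
    exact ⟨k, hj, rfl, h⟩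

lemma pert_not_mem (J : Finset B) (r : K → B → Y)
    (G : I × K → (J → Bool)) (i : I) (y : Y) (j : B) (hj : j ∉ J) :
    pert J r G i j y = false := by
  classical
  unfold pert
  simp [hj]

theorem count_h (J : Finset B) (r : K → B → Y) (s : K → B → Bool) (C : ℕ)
    (hr : ∀ j ∈ J, Function.Injective (fun k => r k j)) :
    #{h : I → B → Y → Bool | ∀ i k, |∑ j, sgn (xor (h i j (r k j)) (s k j))| ≤ 2 * (C : ℤ)} *
      (2 ^ #J) ^ (Fintype.card I * Fintype.card K) ≤
    Fintype.card (I → B → Y → Bool) *
      ((4 * C + 1) * (#J).choose (#J / 2)) ^ (Fintype.card I * Fintype.card K) := by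
  classical
  let X : (I → B → Y → Bool) → (I × K → (J → Bool)) → (I → B → Y → Bool) :=
    fun h G i j y => xor (h i j y) (pert J r G i j y)
  let T : (I → B → Y → Bool) → I → K → Prop := fun h i k =>
    |∑ j, sgn (xor (h i j (r k j)) (s k j))| ≤ 2 * (C : ℤ)
  have hX : ∀ h G i k, ∑ j, sgn (xor (X h G i j (r k j)) (s k j)) =
      ∑ j : J, sgn (xor (xor (h i j (r k j)) (s k j)) (G (i, k) j)) +
        ∑ j ∈ Jᶜ, sgn (xor (h i j (r k j)) (s k j)) := by
    intro h G i k
    rw [← Finset.sum_add_sum_compl J]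
    congr 1
    · rw [← Finset.sum_coe_sort J]
      apply Finset.sum_congr rfl
      rintro ⟨j, hj⟩ _
      simp only [X, pert_mem J r hr G i k j hj]
      congr 1
      cases h i j (r k j) <;> cases s k j <;> cases G (i, k) ⟨j, hj⟩ <;> rfl
    · apply Finset.sum_congr rfl
      intro j hj
      rw [Finset.mem_compl] at hj
      simp only [X, pert_not_mem J r G i (r k j) j hj, Bool.xor_false]
  -- count for fixed h
  have h1 : ∀ h : I → B → Y → Bool, #{G : I × K → (J → Bool) | ∀ i k, T (X h G) i k} ≤
      ((4 * C + 1) * (#J).choose (#J / 2)) ^ (Fintype.card I * Fintype.card K) := by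
    intro h
    have h2 : ({G : I × K → (J → Bool) | ∀ i k, T (X h G) i k} : Finset (I × K → (J → Bool))) =
        Fintype.piFinset (fun a : I × K => ({Ga : J → Bool |
          |∑ j : J, sgn (xor (xor (h a.1 j (r a.2 j)) (s a.2 j)) (Ga j)) +
            ∑ j ∈ Jᶜ, sgn (xor (h a.1 j (r a.2 j)) (s a.2 j))| ≤ 2 * (C : ℤ)} : Finset (J → Bool))) := by
      ext G
      simp only [Finset.mem_filter, Finset.mem_univ, true_and, Fintype.mem_piFinset, Prod.forall, T, hX]
    rw [h2, Fintype.card_piFinset]
    calc _ ≤ ∏ a : I × K, ((4 * C + 1) * (#J).choose (#J / 2)) := by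
          apply Finset.prod_le_prod'
          intro a _
          have := card_interval (fun j : J => xor (h a.1 j (r a.2 j)) (s a.2 j))
            (∑ j ∈ Jᶜ, sgn (xor (h a.1 j (r a.2 j)) (s a.2 j))) C
          simpa using this
      _ = _ := by rw [Finset.prod_const, Finset.card_univ, Fintype.card_prod]
  have h3 : ∀ G : I × K → (J → Bool), #{h : I → B → Y → Bool | ∀ i k, T (X h G) i k} =
      #{h : I → B → Y → Bool | ∀ i k, T h i k} := by
    intro G
    have hinv : ∀ h, X (X h G) G = h := by
      intro h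
      funext i j y
      simp [X]
    apply Finset.card_bij (fun h _ => X h G)
    · intro h hh
      simpa using hh
    · intro a _ b _ hab
      rw [← hinv a, hab, hinv b]
    · intro b hb
      refine ⟨X b G, ?_, hinv b⟩
      simpa [hinv] using hb
  have h4 : ∑ G : I × K → (J → Bool), #{h : I → B → Y → Bool | ∀ i k, T (X h G) i k} =
      ∑ h : I → B → Y → Bool, #{G : I × K → (J → Bool) | ∀ i k, T (X h G) i k} := by
    simp_rw [Finset.card_filter]
    exact Finset.sum_comm
  have h5 : Fintype.card (I × K → (J → Bool)) = (2 ^ #J) ^ (Fintype.card I * Fintype.card K) := by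
    rw [Fintype.card_fun, Fintype.card_fun, Fintype.card_bool, Fintype.card_coe, Fintype.card_prod]
  rw [Finset.sum_congr rfl (fun G _ => h3 G), Finset.sum_const, smul_eq_mul, Finset.card_univ, h5] at h4
  rw [mul_comm]
  calc _ = ∑ h : I → B → Y → Bool, #{G : I × K → (J → Bool) | ∀ i k, T (X h G) i k} := h4
    _ ≤ ∑ h : I → B → Y → Bool, ((4 * C + 1) * (#J).choose (#J / 2)) ^ (Fintype.card I * Fintype.card K) :=
        Finset.sum_le_sum (fun h _ => h1 h)
    _ = _ := by rw [Finset.sum_const, smul_eq_mul, Finset.card_univ]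

end xorlemma

end Pool.Agent.Helper235.CosetSign
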