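import Mathlib
import Pool.Agent.Helper235.CosetSign
set_option autoImplicit false

namespace Pool.Agent.Helper235.CosetFun

open Finset Pool.Agent.Helper235.CosetSign

/-- a block of coordinates -/
abbrev Blk (b : ℕ) := Fin b → ZMod 2

/-- j-th block of a vector -/
def blk {m b : ℕ} (x : Fin (m * b) → ZMod 2) (j : Fin m) : Blk b :=
  fun t => x (finProdFinEquiv (j, t))

lemma blk_add {m b : ℕ} (x y : Fin (m * b) → ZMod 2) (j : Fin m) :
    blk (x + y) j = blk x j + blk y j := rfl

/-- representative of a block modulo the all-ones vector -/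
def rep {b : ℕ} (t0 : Fin b) (y : Blk b) : Blk b := if y t0 = 0 then y else y + 1

/-- which of the two representatives -/
def par {b : ℕ} (t0 : Fin b) (y : Blk b) : Bool := decide (y t0 = 0)

lemma zmod2_cases (a : ZMod 2) : a = 0 ∨ a = 1 := by
  revert a; decide

lemma par_add_one {b : ℕ} (t0 : Fin b) (y : Blk b) : par t0 (y + 1) = !(par t0 y) := by
  unfold par
  have key : ∀ a : ZMod 2, decide (a + 1 = 0) = !(decide (a = 0)) := by decide
  exact key (y t0)

lemma add_one_add_one {b : ℕ} (y : Blk b) : y + 1 + 1 = y := by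
  funext t
  simp only [Pi.add_apply, Pi.one_apply]
  rcases zmod2_cases (y t) with h | h <;> rw [h] <;> decide

lemma rep_add_one {b : ℕ} (t0 : Fin b) (y : Blk b) : rep t0 (y + 1) = rep t0 y := by
  unfold rep
  by_cases h : y t0 = 0
  · rw [if_pos h, if_neg (by change ¬ (y t0 + 1 = 0); rw [h]; decide), add_one_add_one]
  · have h1 : y t0 = 1 := (zmod2_cases (y t0)).resolve_left h
    rw [if_neg h, if_pos (by change y t0 + 1 = 0; rw [h1]; decide)]

lemma rep_eq {b : ℕ} (t0 : Fin b) (y z : Blk b) (h : rep t0 y = rep t0 z) :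
    y + z = 0 ∨ y + z = 1 := by
  have hz : ∀ z : Blk b, z + z = 0 := by
    intro z; funext t
    simp only [Pi.add_apply, Pi.zero_apply]
    rcases zmod2_cases (z t) with h | h <;> rw [h] <;> decide
  unfold rep at h
  split_ifs at h with h1 h2 h2
  · left; rw [h, hz]
  · right; rw [h]
    rw [add_right_comm, hz, zero_add]
  · right
    have : z = y + 1 := h.symm
    rw [this, ← add_assoc, hz, zero_add]
  · left
    have : y = z := add_right_cancel h
    rw [this, hz]

/-- the random function -/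
def F {m b : ℕ} {I : Type*} (t0 : Fin b) (h : I → Fin m → Blk b → Bool) (i : I)
    (x : Fin (m * b) → ZMod 2) : ℤ :=
  ∑ j, sgn (xor (h i j (rep t0 (blk x j))) (par t0 (blk x j)))

lemma sgn_abs (b : Bool) : |sgn b| = 1 := by
  cases b <;> simp [sgn]

lemma sgn_xor_not (a b : Bool) : sgn (xor a (!b)) = - sgn (xor a b) := by
  cases a <;> cases b <;> simp [sgn]

lemma F_flip {m b : ℕ} {I : Type*} (t0 : Fin b) (h : I → Fin m → Blk b → Bool) (i : I)
    (x d : Fin (m * b) → ZMod 2) (C : ℕ)
    (hd : #{j | blk d j ≠ 1} ≤ C) :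
    |F t0 h i (x + d) + F t0 h i x| ≤ 2 * (C : ℤ) := by
  classical
  unfold F
  rw [← Finset.sum_add_distrib]
  have h1 : ∀ j ∉ ({j | blk d j ≠ 1} : Finset (Fin m)),
      sgn (xor (h i j (rep t0 (blk (x + d) j))) (par t0 (blk (x + d) j))) +
      sgn (xor (h i j (rep t0 (blk x j))) (par t0 (blk x j))) = 0 := by
    intro j hj
    have hj' : blk d j = 1 := by simpa using hj
    rw [blk_add, hj', rep_add_one, par_add_one, sgn_xor_not]
    ring
  rw [← Finset.sum_subset (Finset.subset_univ ({j | blk d j ≠ 1} : Finset (Fin m)))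
    (fun j _ hj => h1 j hj)]
  calc _ ≤ ∑ j ∈ ({j | blk d j ≠ 1} : Finset (Fin m)),
        |sgn (xor (h i j (rep t0 (blk (x + d) j))) (par t0 (blk (x + d) j))) +
      sgn (xor (h i j (rep t0 (blk x j))) (par t0 (blk x j)))| := Finset.abs_sum_le_sum_abs _ _
    _ ≤ ∑ j ∈ ({j | blk d j ≠ 1} : Finset (Fin m)), 2 := by
        apply Finset.sum_le_sum
        intro j _
        have h3 := abs_add_le (sgn (xor (h i j (rep t0 (blk (x + d) j))) (par t0 (blk (x + d) j))))
          (sgn (xor (h i j (rep t0 (blk x j))) (par t0 (blk x j))))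
        rw [sgn_abs, sgn_abs] at h3
        linarith
    _ = 2 * (#{j | blk d j ≠ 1} : ℤ) := by simp [mul_comm]
    _ ≤ 2 * (C : ℤ) := by
        have : (#{j | blk d j ≠ 1} : ℤ) ≤ C := by exact_mod_cast hd
        linarith

/-- the middle set -/
def Mid {m b : ℕ} {I : Type*} (t0 : Fin b) (C : ℕ) (h : I → Fin m → Blk b → Bool) :
    Set (Fin (m * b) → ZMod 2) := {x | ∀ i, |F t0 h i x| ≤ 2 * (C : ℤ)}

theorem exists_h {m b M v T C l : ℕ} (t0 : Fin b) (g : Fin M → (Fin (m * b) → ZMod 2))
    (hgood : ∀ lam : ℕ → Fin M,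
      (∀ k < v, ∀ k' < v, k < k' → ∑ t ∈ range k, g (lam t) ≠ ∑ t ∈ range k', g (lam t)) →
      ∃ J : Finset (Fin m), m ≤ 2 * #J ∧ ∀ j ∈ J, ∀ k < v, ∀ k' < v, k < k' →
        ¬ (blk (∑ t ∈ range k, g (lam t) + ∑ t ∈ range k', g (lam t)) j = 0 ∨
          blk (∑ t ∈ range k, g (lam t) + ∑ t ∈ range k', g (lam t)) j = 1))
    (hB : ∀ N : ℕ, m ≤ 2 * N → (4 * C + 1) * N.choose (N / 2) * 2 ^ l ≤ 2 ^ N)
    (hnum : 2 ^ (m * b) * M ^ v < (2 ^ l) ^ (T * v)) :
    ∃ h : Fin T → Fin m → Blk b → Bool, ∀ (x : Fin (m * b) → ZMod 2) (lam : ℕ → Fin M),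
      (∀ k < v, x + ∑ t ∈ range k, g (lam t) ∈ Mid t0 C h) →
      ¬ (∀ k < v, ∀ k' < v, k < k' → ∑ t ∈ range k, g (lam t) ≠ ∑ t ∈ range k', g (lam t)) := by
  classical
  by_contra hcon
  push Not at hcon
  rcases Nat.eq_zero_or_pos v with hv0 | hv
  · subst hv0
    simp at hnum
  -- M positive
  have hM : Nonempty (Fin M) := by
    obtain ⟨x, lam, _⟩ := hcon (fun _ _ _ => false)
    exact ⟨lam 0⟩
  let ext : (Fin v → Fin M) → (ℕ → Fin M) := fun mu t => if ht : t < v then mu ⟨t, ht⟩ else Classical.choice hM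
  let Bad : (Fin (m * b) → ZMod 2) × (Fin v → Fin M) → Finset (Fin T → Fin m → Blk b → Bool) :=
    fun p => {h | (∀ k < v, p.1 + ∑ t ∈ range k, g (ext p.2 t) ∈ Mid t0 C h) ∧
      (∀ k < v, ∀ k' < v, k < k' → ∑ t ∈ range k, g (ext p.2 t) ≠ ∑ t ∈ range k', g (ext p.2 t))}
  have hcover : (Finset.univ : Finset (Fin T → Fin m → Blk b → Bool)) ⊆ Finset.univ.biUnion Bad := by
    intro h _
    obtain ⟨x, lam, h1, h2⟩ := hcon h
    rw [Finset.mem_biUnion]
    refine ⟨(x, fun t => lam t), Finset.mem_univ _, ?_⟩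
    have hS : ∀ k, k ≤ v → ∑ t ∈ range k, g (ext (fun t : Fin v => lam t) t) = ∑ t ∈ range k, g (lam t) := by
      intro k hk
      apply Finset.sum_congr rfl
      intro t ht
      rw [Finset.mem_range] at ht
      simp only [ext, dif_pos (lt_of_lt_of_le ht hk)]
    simp only [Bad, Finset.mem_filter, Finset.mem_univ, true_and]
    constructor
    · intro k hk
      rw [hS k hk.le]
      exact h1 k hk
    · intro k hk k' hk' hkk'
      rw [hS k hk.le, hS k' hk'.le]
      exact h2 k hk k' hk' hkk'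
  have hBad : ∀ p, #(Bad p) * (2 ^ l) ^ (T * v) ≤ Fintype.card (Fin T → Fin m → Blk b → Bool) := by
    intro p
    obtain ⟨x, mu⟩ := p
    by_cases hdist : ∀ k < v, ∀ k' < v, k < k' →
        ∑ t ∈ range k, g (ext mu t) ≠ ∑ t ∈ range k', g (ext mu t)
    · obtain ⟨J, hJm, hJ⟩ := hgood _ hdist
      have hr : ∀ j ∈ J, Function.Injective
          (fun k : Fin v => rep t0 (blk (x + ∑ t ∈ range k, g (ext mu t)) j)) := by
        intro j hj k k' hkk'
        by_contra hne
        have key : ∀ a b : Fin v, a < b →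
            rep t0 (blk (x + ∑ t ∈ range a, g (ext mu t)) j) =
            rep t0 (blk (x + ∑ t ∈ range b, g (ext mu t)) j) → False := by
          intro a b hab heq
          have h1 := rep_eq t0 _ _ heq
          rw [← blk_add] at h1
          have h2 : x + ∑ t ∈ range a, g (ext mu t) + (x + ∑ t ∈ range b, g (ext mu t)) =
              ∑ t ∈ range a, g (ext mu t) + ∑ t ∈ range b, g (ext mu t) := by
            have hxx : x + x = 0 := by
              funext t
              simp only [Pi.add_apply, Pi.zero_apply]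
              rcases zmod2_cases (x t) with h | h <;> rw [h] <;> decide
            calc _ = (x + x) + (∑ t ∈ range a, g (ext mu t) + ∑ t ∈ range b, g (ext mu t)) := by abel
              _ = _ := by rw [hxx, zero_add]
          rw [h2] at h1
          exact hJ j hj a a.2 b b.2 hab h1
        rcases lt_or_gt_of_ne hne with h | h
        · exact key k k' h hkk'
        · exact key k' k h hkk'.symm
      have hc := count_h (I := Fin T) (K := Fin v) J
        (fun k j => rep t0 (blk (x + ∑ t ∈ range k, g (ext mu t)) j))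
        (fun k j => par t0 (blk (x + ∑ t ∈ range k, g (ext mu t)) j)) C hr
      rw [Fintype.card_fin, Fintype.card_fin] at hc
      obtain ⟨S, hS, hc⟩ : ∃ S : Finset (Fin T → Fin m → Blk b → Bool),
          (∀ h, h ∈ S ↔ ∀ i (k : Fin v),
          |∑ j, sgn (xor (h i j (rep t0 (blk (x + ∑ t ∈ range k, g (ext mu t)) j)))
            (par t0 (blk (x + ∑ t ∈ range k, g (ext mu t)) j)))| ≤ 2 * (C : ℤ)) ∧
          #S * (2 ^ #J) ^ (T * v) ≤ Fintype.card (Fin T → Fin m → Blk b → Bool) *
            ((4 * C + 1) * (#J).choose (#J / 2)) ^ (T * v) :=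
        ⟨_, fun h => by simp only [Finset.mem_filter, Finset.mem_univ, true_and], hc⟩
      have hsub : #(Bad (x, mu)) ≤ #S := by
        apply Finset.card_le_card
        intro h hh
        rw [hS]
        simp only [Bad, Finset.mem_filter, Finset.mem_univ, true_and] at hh
        intro i k
        exact hh.1 k k.2 i
      set Q := #S with hQ
      have hBJ := hB (#J) hJm
      have h6 : (Q * (2 ^ l) ^ (T * v)) * (2 ^ #J) ^ (T * v) ≤
          Fintype.card (Fin T → Fin m → Blk b → Bool) * (2 ^ #J) ^ (T * v) := by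
        calc (Q * (2 ^ l) ^ (T * v)) * (2 ^ #J) ^ (T * v) = (Q * (2 ^ #J) ^ (T * v)) * (2 ^ l) ^ (T * v) := by ring
          _ ≤ (Fintype.card (Fin T → Fin m → Blk b → Bool) *
                ((4 * C + 1) * (#J).choose (#J / 2)) ^ (T * v)) * (2 ^ l) ^ (T * v) :=
              Nat.mul_le_mul_right _ hc
          _ = Fintype.card (Fin T → Fin m → Blk b → Bool) *
                ((4 * C + 1) * (#J).choose (#J / 2) * 2 ^ l) ^ (T * v) := by
              rw [mul_assoc, ← mul_pow]
          _ ≤ _ := Nat.mul_le_mul_left _ (Nat.pow_le_pow_left hBJ _)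
      have h7 : Q * (2 ^ l) ^ (T * v) ≤ Fintype.card (Fin T → Fin m → Blk b → Bool) :=
        Nat.le_of_mul_le_mul_right h6 (by positivity)
      exact le_trans (Nat.mul_le_mul_right _ hsub) h7
    · have : Bad (x, mu) = ∅ := by
        apply Finset.filter_eq_empty_iff.mpr
        intro h _ hh
        exact hdist hh.2
      rw [this]
      simp
  have hpos : 0 < Fintype.card (Fin T → Fin m → Blk b → Bool) := Fintype.card_pos
  have htot : Fintype.card (Fin T → Fin m → Blk b → Bool) * (2 ^ l) ^ (T * v) ≤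
      2 ^ (m * b) * M ^ v * Fintype.card (Fin T → Fin m → Blk b → Bool) := by
    calc Fintype.card (Fin T → Fin m → Blk b → Bool) * (2 ^ l) ^ (T * v)
        ≤ (∑ p, #(Bad p)) * (2 ^ l) ^ (T * v) := by
          apply Nat.mul_le_mul_right
          rw [← Finset.card_univ]
          exact le_trans (Finset.card_le_card hcover) Finset.card_biUnion_le
      _ = ∑ p, #(Bad p) * (2 ^ l) ^ (T * v) := by rw [Finset.sum_mul]
      _ ≤ ∑ p : (Fin (m * b) → ZMod 2) × (Fin v → Fin M), Fintype.card (Fin T → Fin m → Blk b → Bool) :=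
          Finset.sum_le_sum (fun p _ => hBad p)
      _ = _ := by
          rw [Finset.sum_const, Finset.card_univ, smul_eq_mul, Fintype.card_prod, Fintype.card_fun,
            Fintype.card_fun, ZMod.card, Fintype.card_fin, Fintype.card_fin, Fintype.card_fin]
  rw [mul_comm] at htot
  have := Nat.le_of_mul_le_mul_right htot hpos
  omega

end Pool.Agent.Helper235.CosetFun
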