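import Mathlib
import Pool.Agent.Helper235.CosetFun
set_option autoImplicit false

namespace Pool.Agent.Helper235.CosetGood

open Finset Pool.Agent.Helper235.CosetFun

/-- fibre count -/
lemma fiber_card {M : ℕ} {A : Type*} [AddCommGroup A] [Fintype A] [DecidableEq A] (h2 : ∀ a : A, a + a = 0)
    (s : Finset ℕ) (lam : ℕ → Fin M) (i0 : Fin M) (hodd : Odd #{t ∈ s | lam t = i0}) (w : A) :
    #{om : Fin M → A | ∑ t ∈ s, om (lam t) = w} * Fintype.card A ≤ Fintype.card (Fin M → A) := by
  classical
  have hs : ∀ (om : Fin M → A) (a : A), ∑ t ∈ s, (om + Pi.single i0 a : Fin M → A) (lam t) =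
      ∑ t ∈ s, om (lam t) + a := by
    intro om a
    simp only [Pi.add_apply]
    rw [Finset.sum_add_distrib]
    congr 1
    have : ∀ t ∈ s, (Pi.single i0 a : Fin M → A) (lam t) = if lam t = i0 then a else 0 := by
      intro t _
      rw [Pi.single_apply]
    rw [Finset.sum_congr rfl this, ← Finset.sum_filter, Finset.sum_const]
    obtain ⟨r, hr⟩ := hodd
    rw [hr, add_nsmul, mul_comm, mul_nsmul', two_nsmul, h2, nsmul_zero, one_nsmul, zero_add]
  have hinj : Set.InjOn (fun p : (Fin M → A) × A => (p.1 + Pi.single i0 p.2 : Fin M → A))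
      (({om : Fin M → A | ∑ t ∈ s, om (lam t) = w} : Finset (Fin M → A)) ×ˢ (Finset.univ : Finset A) : Finset _) := by
    rintro ⟨om, a⟩ h ⟨om', a'⟩ h' heq
    simp only [Finset.coe_product, Set.mem_prod, Finset.mem_coe, Finset.mem_filter, Finset.mem_univ, true_and,
      and_true] at h h'
    have heq' : (om + Pi.single i0 a : Fin M → A) = om' + Pi.single i0 a' := heq
    have h1 := hs om a
    rw [heq', hs om' a', h, h'] at h1
    have ha : a' = a := add_left_cancel h1
    subst ha
    have : om = om' := add_right_cancel heq'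
    rw [this]
  calc #{om : Fin M → A | ∑ t ∈ s, om (lam t) = w} * Fintype.card A
      = #(({om : Fin M → A | ∑ t ∈ s, om (lam t) = w} : Finset (Fin M → A)) ×ˢ (Finset.univ : Finset A)) := by
        rw [Finset.card_product, Finset.card_univ]
    _ = #((({om : Fin M → A | ∑ t ∈ s, om (lam t) = w} : Finset (Fin M → A)) ×ˢ (Finset.univ : Finset A)).image
          (fun p : (Fin M → A) × A => (p.1 + Pi.single i0 p.2 : Fin M → A))) :=
        (Finset.card_image_of_injOn hinj).symm
    _ ≤ Fintype.card (Fin M → A) := Finset.card_le_univ _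

lemma sum_even {M : ℕ} {A : Type*} [AddCommGroup A] (h2 : ∀ a : A, a + a = 0)
    (s : Finset ℕ) (lam : ℕ → Fin M) (g : Fin M → A) (he : ∀ i, ¬ Odd #{t ∈ s | lam t = i}) :
    ∑ t ∈ s, g (lam t) = 0 := by
  classical
  rw [← Finset.sum_fiberwise s lam]
  apply Finset.sum_eq_zero
  intro i _
  have : ∀ t ∈ s.filter (fun t => lam t = i), g (lam t) = g i := by
    intro t ht
    rw [(Finset.mem_filter.mp ht).2]
  rw [Finset.sum_congr rfl this, Finset.sum_const]
  obtain ⟨r, hr⟩ := Nat.not_odd_iff_even.mp (he i)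
  rw [hr, ← two_mul, mul_comm, mul_nsmul', two_nsmul, h2, nsmul_zero]

/-- formally distinct partial sums -/
def FD {M : ℕ} (v : ℕ) (lam : ℕ → Fin M) : Prop :=
  ∀ k < v, ∀ k' < v, k < k' → ∃ i, Odd #{t ∈ Finset.Ico k k' | lam t = i}

lemma blk_two {b : ℕ} (a : Blk b) : a + a = 0 := by
  funext t
  simp only [Pi.add_apply, Pi.zero_apply]
  rcases zmod2_cases (a t) with h | h <;> rw [h] <;> decide

lemma vec_two {n : ℕ} (a : Fin n → ZMod 2) : a + a = 0 := by
  funext t
  simp only [Pi.add_apply, Pi.zero_apply]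
  rcases zmod2_cases (a t) with h | h <;> rw [h] <;> decide

open Classical in
/-- collision set in one block -/
noncomputable def BadB (M b v : ℕ) (lam : ℕ → Fin M) : Finset (Fin M → Blk b) :=
  {om | ∃ k < v, ∃ k' < v, k < k' ∧
    (∑ t ∈ Finset.Ico k k', om (lam t) = 0 ∨ ∑ t ∈ Finset.Ico k k', om (lam t) = 1)}

lemma card_BadB (M b v : ℕ) (lam : ℕ → Fin M) (hFD : FD v lam) :
    #(BadB M b v lam) * 2 ^ b ≤ 2 * v ^ 2 * Fintype.card (Fin M → Blk b) := by
  classical
  have hcov : BadB M b v lam ⊆ ((Finset.range v ×ˢ Finset.range v).filter (fun p => p.1 < p.2)).biUnion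
      (fun p => ({om : Fin M → Blk b | ∑ t ∈ Finset.Ico p.1 p.2, om (lam t) = 0} : Finset _) ∪
        ({om : Fin M → Blk b | ∑ t ∈ Finset.Ico p.1 p.2, om (lam t) = 1} : Finset _)) := by
    intro om hom
    unfold BadB at hom
    simp only [Finset.mem_filter, Finset.mem_univ, true_and] at hom
    obtain ⟨k, hk, k', hk', hkk', h⟩ := hom
    simp only [Finset.mem_biUnion, Finset.mem_filter, Finset.mem_product, Finset.mem_range,
      Finset.mem_union, Finset.mem_univ, true_and]
    exact ⟨(k, k'), ⟨⟨hk, hk'⟩, hkk'⟩, h⟩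
  have hcardA : Fintype.card (Blk b) = 2 ^ b := by
    rw [Fintype.card_fun, ZMod.card, Fintype.card_fin]
  calc #(BadB M b v lam) * 2 ^ b ≤
      (∑ p ∈ (Finset.range v ×ˢ Finset.range v).filter (fun p => p.1 < p.2),
        #(({om : Fin M → Blk b | ∑ t ∈ Finset.Ico p.1 p.2, om (lam t) = 0} : Finset _) ∪
        ({om : Fin M → Blk b | ∑ t ∈ Finset.Ico p.1 p.2, om (lam t) = 1} : Finset _))) * 2 ^ b :=
        Nat.mul_le_mul_right _ (le_trans (Finset.card_le_card hcov) Finset.card_biUnion_le)
    _ = ∑ p ∈ (Finset.range v ×ˢ Finset.range v).filter (fun p => p.1 < p.2),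
        #(({om : Fin M → Blk b | ∑ t ∈ Finset.Ico p.1 p.2, om (lam t) = 0} : Finset _) ∪
        ({om : Fin M → Blk b | ∑ t ∈ Finset.Ico p.1 p.2, om (lam t) = 1} : Finset _)) * 2 ^ b := by
        rw [Finset.sum_mul]
    _ ≤ ∑ p ∈ (Finset.range v ×ˢ Finset.range v).filter (fun p => p.1 < p.2),
        2 * Fintype.card (Fin M → Blk b) := by
        apply Finset.sum_le_sum
        rintro ⟨k, k'⟩ hp
        simp only [Finset.mem_filter, Finset.mem_product, Finset.mem_range] at hp
        obtain ⟨i0, hi0⟩ := hFD k hp.1.1 k' hp.1.2 hp.2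
        have h0 := fiber_card (A := Blk b) blk_two (Finset.Ico k k') lam i0 hi0 0
        have h1 := fiber_card (A := Blk b) blk_two (Finset.Ico k k') lam i0 hi0 1
        rw [hcardA] at h0 h1
        have h3 := Finset.card_union_le ({om : Fin M → Blk b | ∑ t ∈ Finset.Ico k k', om (lam t) = 0} : Finset _)
          ({om : Fin M → Blk b | ∑ t ∈ Finset.Ico k k', om (lam t) = 1} : Finset _)
        calc _ ≤ (#({om : Fin M → Blk b | ∑ t ∈ Finset.Ico k k', om (lam t) = 0} : Finset _) +
          #({om : Fin M → Blk b | ∑ t ∈ Finset.Ico k k', om (lam t) = 1} : Finset _)) * 2 ^ b :=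
              Nat.mul_le_mul_right _ h3
          _ ≤ _ := by rw [add_mul]; omega
    _ = #((Finset.range v ×ˢ Finset.range v).filter (fun p => p.1 < p.2)) *
        (2 * Fintype.card (Fin M → Blk b)) := by rw [Finset.sum_const, smul_eq_mul]
    _ ≤ (v * v) * (2 * Fintype.card (Fin M → Blk b)) := by
        apply Nat.mul_le_mul_right
        refine le_trans (Finset.card_filter_le _ _) ?_
        rw [Finset.card_product, Finset.card_range]
    _ = _ := by ring

/-- blocks of a family -/
def blkEquiv (m b M : ℕ) : (Fin M → (Fin (m * b) → ZMod 2)) ≃ (Fin m → Fin M → Blk b) where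
  toFun g := fun j i => blk (g i) j
  invFun om := fun i s => om (finProdFinEquiv.symm s).1 i (finProdFinEquiv.symm s).2
  left_inv g := by
    funext i s
    change g i (finProdFinEquiv ((finProdFinEquiv.symm s).1, (finProdFinEquiv.symm s).2)) = g i s
    rw [Prod.mk.eta, Equiv.apply_symm_apply]
  right_inv om := by
    funext j i t
    simp [blk]

open Classical in
lemma count_bad_b (m' b M v w : ℕ) (lam : ℕ → Fin M) (hFD : FD v lam)
    (hw : 2 ^ w * (2 * v ^ 2) ≤ 2 ^ b) :
    #{g : Fin M → (Fin (2 * m' * b) → ZMod 2) |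
        2 * #{j : Fin (2 * m') | (fun i => blk (g i) j) ∉ BadB M b v lam} < 2 * m'} * 2 ^ (w * m') ≤
      2 ^ (2 * m') * Fintype.card (Fin M → (Fin (2 * m' * b) → ZMod 2)) := by
  set Om := Fintype.card (Fin M → Blk b) with hOm
  have hbad : 2 ^ w * #(BadB M b v lam) ≤ Om := by
    have h := card_BadB M b v lam hFD
    have h2 : (2 ^ w * #(BadB M b v lam)) * 2 ^ b ≤ Om * 2 ^ b := by
      calc (2 ^ w * #(BadB M b v lam)) * 2 ^ b = 2 ^ w * (#(BadB M b v lam) * 2 ^ b) := by ring
        _ ≤ 2 ^ w * (2 * v ^ 2 * Om) := Nat.mul_le_mul_left _ h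
        _ = (2 ^ w * (2 * v ^ 2)) * Om := by ring
        _ ≤ 2 ^ b * Om := Nat.mul_le_mul_right _ hw
        _ = Om * 2 ^ b := by ring
    exact Nat.le_of_mul_le_mul_right h2 (by positivity)
  let wt : (Fin M → Blk b) → ℕ := fun om => if om ∈ BadB M b v lam then 2 ^ w else 1
  have hsum : ∑ om, wt om ≤ 2 * Om := by
    have h1 : ∀ om, wt om ≤ (if om ∈ BadB M b v lam then 2 ^ w else 0) + 1 := by
      intro om
      simp only [wt]
      split_ifs <;> omega
    calc ∑ om, wt om ≤ ∑ om : Fin M → Blk b, ((if om ∈ BadB M b v lam then 2 ^ w else 0) + 1) :=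
          Finset.sum_le_sum (fun om _ => h1 om)
      _ = #(BadB M b v lam) * 2 ^ w + Om := by
          rw [Finset.sum_add_distrib, Finset.sum_const, Finset.card_univ, smul_eq_mul, mul_one,
            ← Finset.sum_filter, Finset.sum_const, smul_eq_mul]
          congr 3
          ext om
          simp
      _ ≤ 2 * Om := by rw [mul_comm (#(BadB M b v lam))]; omega
  have hprod : ∑ g : Fin M → (Fin (2 * m' * b) → ZMod 2), ∏ j : Fin (2 * m'), wt (fun i => blk (g i) j) =
      (∑ om, wt om) ^ (2 * m') := by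
    have h0 : (∑ g : Fin M → (Fin (2 * m' * b) → ZMod 2), ∏ j : Fin (2 * m'), wt (fun i => blk (g i) j)) =
        ∑ om : Fin (2 * m') → Fin M → Blk b, ∏ j, wt (om j) :=
      Equiv.sum_comp (blkEquiv (2 * m') b M) (fun om => ∏ j, wt (om j))
    rw [h0]
    have := Finset.prod_univ_sum (fun _ : Fin (2 * m') => (Finset.univ : Finset (Fin M → Blk b)))
      (fun _ om => wt om)
    rw [Fintype.piFinset_univ] at this
    rw [← this, Finset.prod_const, Finset.card_univ, Fintype.card_fin]
  have hlow : ∀ g ∈ ({g : Fin M → (Fin (2 * m' * b) → ZMod 2) |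
        2 * #{j : Fin (2 * m') | (fun i => blk (g i) j) ∉ BadB M b v lam} < 2 * m'} : Finset _),
      2 ^ (w * m') ≤ ∏ j : Fin (2 * m'), wt (fun i => blk (g i) j) := by
    intro g hg
    simp only [Finset.mem_filter, Finset.mem_univ, true_and] at hg
    have hcompl : #{j : Fin (2 * m') | (fun i => blk (g i) j) ∈ BadB M b v lam} +
        #{j : Fin (2 * m') | (fun i => blk (g i) j) ∉ BadB M b v lam} = 2 * m' := by
      rw [Finset.card_filter_add_card_filter_not]
      simp
    have hge : m' ≤ #{j : Fin (2 * m') | (fun i => blk (g i) j) ∈ BadB M b v lam} := by omega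
    calc 2 ^ (w * m') ≤ (2 ^ w) ^ #{j : Fin (2 * m') | (fun i => blk (g i) j) ∈ BadB M b v lam} := by
          rw [pow_mul]
          exact Nat.pow_le_pow_right (by positivity) hge
      _ = ∏ j ∈ ({j : Fin (2 * m') | (fun i => blk (g i) j) ∈ BadB M b v lam} : Finset _), 2 ^ w := by
          rw [Finset.prod_const]
      _ = ∏ j ∈ ({j : Fin (2 * m') | (fun i => blk (g i) j) ∈ BadB M b v lam} : Finset _),
            wt (fun i => blk (g i) j) := by
          apply Finset.prod_congr rfl
          intro j hj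
          simp only [Finset.mem_filter, Finset.mem_univ, true_and] at hj
          simp only [wt, if_pos hj]
      _ ≤ ∏ j : Fin (2 * m'), wt (fun i => blk (g i) j) := by
          apply Finset.prod_le_prod_of_subset_of_one_le' (Finset.subset_univ _)
          intro j _ _
          simp only [wt]
          split_ifs
          · exact Nat.one_le_two_pow
          · exact le_refl _
  calc _ = ∑ g ∈ ({g : Fin M → (Fin (2 * m' * b) → ZMod 2) |
        2 * #{j : Fin (2 * m') | (fun i => blk (g i) j) ∉ BadB M b v lam} < 2 * m'} : Finset _), 2 ^ (w * m') := by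
        rw [Finset.sum_const, smul_eq_mul]
    _ ≤ ∑ g ∈ ({g : Fin M → (Fin (2 * m' * b) → ZMod 2) |
        2 * #{j : Fin (2 * m') | (fun i => blk (g i) j) ∉ BadB M b v lam} < 2 * m'} : Finset _),
          ∏ j : Fin (2 * m'), wt (fun i => blk (g i) j) := Finset.sum_le_sum hlow
    _ ≤ ∑ g : Fin M → (Fin (2 * m' * b) → ZMod 2), ∏ j : Fin (2 * m'), wt (fun i => blk (g i) j) :=
        Finset.sum_le_sum_of_subset (Finset.subset_univ _)
    _ = (∑ om, wt om) ^ (2 * m') := hprod
    _ ≤ (2 * Om) ^ (2 * m') := Nat.pow_le_pow_left hsum _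
    _ = 2 ^ (2 * m') * Fintype.card (Fin M → (Fin (2 * m' * b) → ZMod 2)) := by
        rw [mul_pow]
        congr 1
        rw [Fintype.card_congr (blkEquiv (2 * m') b M), Fintype.card_fun, Fintype.card_fin]

end Pool.Agent.Helper235.CosetGood
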