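import Mathlib
import Pool.Agent.Helper235.CosetGood
set_option autoImplicit false

namespace Pool.Agent.Helper235.CosetExist

open Finset Pool.Agent.Helper235.CosetFun Pool.Agent.Helper235.CosetGood

lemma bern (a n : ℕ) : a ^ n + n * a ^ (n - 1) ≤ (a + 1) ^ n := by
  induction n with
  | zero => simp
  | succ n ih =>
    rw [pow_succ (a+1) n, Nat.add_sub_cancel]
    have h1 : n * a ^ (n - 1) * a = n * a ^ n := by
      rcases n with _ | n
      · simp
      · rw [Nat.add_sub_cancel, mul_assoc, ← pow_succ]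
    calc a ^ (n+1) + (n+1) * a ^ n = a ^ n * a + n * a ^ n + a ^ n := by ring
      _ = (a ^ n + n * a ^ (n - 1)) * a + a ^ n := by rw [add_mul, h1]
      _ ≤ (a ^ n + n * a ^ (n - 1)) * a + (a ^ n + n * a ^ (n - 1)) := by omega
      _ = (a ^ n + n * a ^ (n - 1)) * (a + 1) := by ring
      _ ≤ (a + 1) ^ n * (a + 1) := Nat.mul_le_mul_right _ ih

lemma pow_half (Q M q : ℕ) (hQ : 1 ≤ Q) (hM : q * Q ≤ M) : (Q - 1) ^ M * 2 ^ q ≤ Q ^ M := by
  obtain ⟨a, rfl⟩ : ∃ a, Q = a + 1 := ⟨Q - 1, by omega⟩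
  rw [Nat.add_sub_cancel]
  have h1 : a ^ (a+1) * 2 ≤ (a+1) ^ (a+1) := by
    have := bern a (a+1)
    rw [Nat.add_sub_cancel] at this
    calc a ^ (a+1) * 2 = a ^ (a+1) + a * a ^ a := by ring
      _ ≤ a ^ (a+1) + (a+1) * a ^ a := by
          have : a * a ^ a ≤ (a+1) * a ^ a := Nat.mul_le_mul_right _ (by omega)
          omega
      _ ≤ _ := this
  obtain ⟨r, rfl⟩ : ∃ r, M = (a+1) * q + r := ⟨M - (a+1) * q, by rw [mul_comm q] at hM; omega⟩
  calc a ^ ((a+1) * q + r) * 2 ^ q = (a ^ (a+1) * 2) ^ q * a ^ r := by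
        rw [pow_add, pow_mul, mul_pow]; ring
    _ ≤ ((a+1) ^ (a+1)) ^ q * (a+1) ^ r :=
        Nat.mul_le_mul (Nat.pow_le_pow_left h1 _) (Nat.pow_le_pow_left (by omega) _)
    _ = (a+1) ^ ((a+1) * q + r) := by rw [pow_add _ ((a+1) * q) r, pow_mul (a+1) (a+1) q]

/-- vectors -/
abbrev Vec (n : ℕ) := Fin n → ZMod 2

open Classical in
lemma count_bad_a {n M C q : ℕ} (p : Vec n →ₗ[ZMod 2] Vec n) (x : Vec n)
    (hp : n ≤ Module.finrank (ZMod 2) (LinearMap.range p) + C) (hM : q * 2 ^ C ≤ M) :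
    #{g : Fin M → Vec n | ∀ i y, g i ≠ x + p y} * 2 ^ q ≤
      Fintype.card (Fin M → Vec n) := by
  set S : Finset (Vec n) := Finset.univ.image (fun y => x + p y) with hS
  have hcardW : Fintype.card (Vec n) = 2 ^ n := by rw [Fintype.card_fun, ZMod.card, Fintype.card_fin]
  have hcardS : #S = 2 ^ Module.finrank (ZMod 2) (LinearMap.range p) := by
    have h1 : Fintype.card (LinearMap.range p) = 2 ^ Module.finrank (ZMod 2) (LinearMap.range p) := by
      rw [Module.card_eq_pow_finrank (K := ZMod 2), ZMod.card]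
    rw [← h1, ← Fintype.card_coe]
    symm
    apply Fintype.card_congr
    refine ⟨fun z => ⟨x + z.1, ?_⟩, fun z => ⟨z.1 - x, ?_⟩, ?_, ?_⟩
    · obtain ⟨y, hy⟩ := z.2
      rw [hS, Finset.mem_image]
      exact ⟨y, Finset.mem_univ _, by rw [hy]⟩
    · obtain ⟨z, hz⟩ := z
      rw [hS, Finset.mem_image] at hz
      obtain ⟨y, _, hy⟩ := hz
      exact ⟨y, by change p y = z - x; rw [← hy]; abel⟩
    · intro z; ext1; simp
    · intro z; ext1; simp
  have hSC : Fintype.card (Vec n) ≤ #S * 2 ^ C := by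
    rw [hcardW, hcardS, ← pow_add]
    exact Nat.pow_le_pow_right (by norm_num) hp
  have hcompl : #Sᶜ * 2 ^ C ≤ Fintype.card (Vec n) * (2 ^ C - 1) := by
    rw [Finset.card_compl, Nat.mul_sub, Nat.sub_mul, mul_one]
    exact Nat.sub_le_sub_left hSC _
  have heq : ({g : Fin M → Vec n | ∀ i y, g i ≠ x + p y} : Finset (Fin M → Vec n)) =
      Fintype.piFinset (fun _ : Fin M => Sᶜ) := by
    ext g
    simp only [Finset.mem_filter, Finset.mem_univ, true_and, Fintype.mem_piFinset, Finset.mem_compl, hS,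
      Finset.mem_image, not_exists]
    constructor
    · intro h i y hy
      exact h i y hy.symm
    · intro h i y hy
      exact h i y hy.symm
  rw [heq, Fintype.card_piFinset, Finset.prod_const, Finset.card_univ, Fintype.card_fin]
  rw [show Fintype.card (Fin M → Vec n) = Fintype.card (Vec n) ^ M by rw [Fintype.card_fun, Fintype.card_fin]]
  have h2 : (#Sᶜ ^ M * 2 ^ q) * (2 ^ C) ^ M ≤ Fintype.card (Vec n) ^ M * (2 ^ C) ^ M := by
    calc (#Sᶜ ^ M * 2 ^ q) * (2 ^ C) ^ M = (#Sᶜ * 2 ^ C) ^ M * 2 ^ q := by rw [mul_pow]; ring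
      _ ≤ (Fintype.card (Vec n) * (2 ^ C - 1)) ^ M * 2 ^ q :=
          Nat.mul_le_mul_right _ (Nat.pow_le_pow_left hcompl _)
      _ = Fintype.card (Vec n) ^ M * ((2 ^ C - 1) ^ M * 2 ^ q) := by rw [mul_pow]; ring
      _ ≤ _ := Nat.mul_le_mul_left _ (pow_half (2 ^ C) M q Nat.one_le_two_pow hM)
  exact Nat.le_of_mul_le_mul_right h2 (by positivity)

lemma sum_congr_lt {M : ℕ} {A : Type*} [AddCommMonoid A] (lam lam' : ℕ → Fin M) (N k k' : ℕ) (hk : k' ≤ N)
    (h : ∀ t < N, lam t = lam' t) (om : Fin M → A) :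
    ∑ t ∈ Finset.Ico k k', om (lam t) = ∑ t ∈ Finset.Ico k k', om (lam' t) := by
  apply Finset.sum_congr rfl
  intro t ht
  rw [Finset.mem_Ico] at ht
  rw [h t (by omega)]

lemma FD_congr {M v : ℕ} (lam lam' : ℕ → Fin M) (h : ∀ t < v, lam t = lam' t) (hF : FD v lam) : FD v lam' := by
  intro k hk k' hk' hkk'
  obtain ⟨i, hi⟩ := hF k hk k' hk' hkk'
  refine ⟨i, ?_⟩
  have : ({t ∈ Finset.Ico k k' | lam' t = i} : Finset ℕ) = {t ∈ Finset.Ico k k' | lam t = i} := by
    apply Finset.filter_congr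
    intro t ht
    rw [Finset.mem_Ico] at ht
    rw [h t (by omega)]
  rw [this]
  exact hi

lemma BadB_congr {M b v : ℕ} (lam lam' : ℕ → Fin M) (h : ∀ t < v, lam t = lam' t) :
    BadB M b v lam = BadB M b v lam' := by
  unfold BadB
  apply Finset.filter_congr
  intro om _
  constructor
  · rintro ⟨k, hk, k', hk', hkk', hh⟩
    refine ⟨k, hk, k', hk', hkk', ?_⟩
    rwa [← sum_congr_lt lam lam' v k k' hk'.le h]
  · rintro ⟨k, hk, k', hk', hkk', hh⟩
    refine ⟨k, hk, k', hk', hkk', ?_⟩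
    rwa [sum_congr_lt lam lam' v k k' hk'.le h]

/-- extension of a finite sequence -/
def extS {M v : ℕ} (i0 : Fin M) (mu : Fin v → Fin M) : ℕ → Fin M :=
  fun t => if ht : t < v then mu ⟨t, ht⟩ else i0

lemma extS_eq {M v : ℕ} (i0 : Fin M) (lam : ℕ → Fin M) : ∀ t < v, lam t = extS i0 (fun t : Fin v => lam t) t := by
  intro t ht
  simp only [extS, dif_pos ht]

open Classical in
theorem exists_g (m' b M v w C q : ℕ) (hM0 : 0 < M) (hv : 1 ≤ v)
    (hw : 2 ^ w * (2 * v ^ 2) ≤ 2 ^ b) (hM : q * 2 ^ C ≤ M)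
    (hq : (2 * m' * b) * (2 * m' * b) + 2 * m' * b + 2 ≤ q)
    (hb : 4 * M ^ v * 2 ^ (2 * m') ≤ 2 ^ (w * m')) (hc : 4 * M ^ (2 * v - 1) ≤ 2 ^ (2 * m' * b)) :
    ∃ g : Fin M → (Fin (2 * m' * b) → ZMod 2),
      (∀ (p : (Fin (2 * m' * b) → ZMod 2) →ₗ[ZMod 2] (Fin (2 * m' * b) → ZMod 2)) (x : Fin (2 * m' * b) → ZMod 2),
        2 * m' * b ≤ Module.finrank (ZMod 2) (LinearMap.range p) + C → ∃ i y, g i = x + p y) ∧
      (∀ lam : ℕ → Fin M, FD v lam →
        2 * m' ≤ 2 * #{j : Fin (2 * m') | (fun i => blk (g i) j) ∉ BadB M b v lam}) ∧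
      (∀ lam : ℕ → Fin M, ∑ t ∈ range (2 * v - 1), g (lam t) ≠ 0) := by
  set n := 2 * m' * b with hn
  set Om := Fintype.card (Fin M → Vec n) with hOm
  have hOmpos : 0 < Om := Fintype.card_pos
  let i0 : Fin M := ⟨0, hM0⟩
  have hcardW : Fintype.card (Vec n) = 2 ^ n := by rw [Fintype.card_fun, ZMod.card, Fintype.card_fin]
  -- (a)
  have hfin : Finite (Vec n →ₗ[ZMod 2] Vec n) :=
    Finite.of_injective (fun f => (f : Vec n → Vec n)) DFunLike.coe_injective
  have hft : Fintype (Vec n →ₗ[ZMod 2] Vec n) := Fintype.ofFinite _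
  have hcardL : Fintype.card (Vec n →ₗ[ZMod 2] Vec n) = 2 ^ (n * n) := by
    rw [Module.card_eq_pow_finrank (K := ZMod 2), ZMod.card, Module.finrank_linearMap,
      Module.finrank_fin_fun]
  let Aa : Finset (Fin M → Vec n) := (Finset.univ.filter (fun px : (Vec n →ₗ[ZMod 2] Vec n) × Vec n =>
      n ≤ Module.finrank (ZMod 2) (LinearMap.range px.1) + C)).biUnion
        (fun px => {g : Fin M → Vec n | ∀ i y, g i ≠ px.2 + px.1 y})
  have hAa : #Aa * 4 ≤ Om := by
    have h1 : #Aa * 2 ^ q ≤ 2 ^ (n * n + n) * Om := by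
      calc #Aa * 2 ^ q ≤ (∑ px ∈ (Finset.univ.filter (fun px : (Vec n →ₗ[ZMod 2] Vec n) × Vec n =>
            n ≤ Module.finrank (ZMod 2) (LinearMap.range px.1) + C)),
            #{g : Fin M → Vec n | ∀ i y, g i ≠ px.2 + px.1 y}) * 2 ^ q :=
            Nat.mul_le_mul_right _ Finset.card_biUnion_le
        _ = ∑ px ∈ (Finset.univ.filter (fun px : (Vec n →ₗ[ZMod 2] Vec n) × Vec n =>
            n ≤ Module.finrank (ZMod 2) (LinearMap.range px.1) + C)),
            #{g : Fin M → Vec n | ∀ i y, g i ≠ px.2 + px.1 y} * 2 ^ q := by rw [Finset.sum_mul]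
        _ ≤ ∑ px ∈ (Finset.univ.filter (fun px : (Vec n →ₗ[ZMod 2] Vec n) × Vec n =>
            n ≤ Module.finrank (ZMod 2) (LinearMap.range px.1) + C)), Om := by
            apply Finset.sum_le_sum
            intro px hpx
            exact count_bad_a px.1 px.2 (Finset.mem_filter.mp hpx).2 hM
        _ ≤ ∑ px : (Vec n →ₗ[ZMod 2] Vec n) × Vec n, Om := Finset.sum_le_sum_of_subset (Finset.filter_subset _ _)
        _ = 2 ^ (n * n + n) * Om := by
            rw [Finset.sum_const, Finset.card_univ, smul_eq_mul, Fintype.card_prod, hcardL, hcardW, ← pow_add]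
    have h2 : (#Aa * 4) * 2 ^ (n * n + n) ≤ Om * 2 ^ (n * n + n) := by
      calc (#Aa * 4) * 2 ^ (n * n + n) = #Aa * 2 ^ (n * n + n + 2) := by rw [pow_add]; ring
        _ ≤ #Aa * 2 ^ q := Nat.mul_le_mul_left _ (Nat.pow_le_pow_right (by norm_num) hq)
        _ ≤ _ := by rw [mul_comm Om]; exact h1
    exact Nat.le_of_mul_le_mul_right h2 (by positivity)
  -- (b)
  let Ab : Finset (Fin M → Vec n) := (Finset.univ.filter (fun mu : Fin v → Fin M => FD v (extS i0 mu))).biUnion
        (fun mu => {g : Fin M → Vec n | 2 * #{j : Fin (2 * m') | (fun i => blk (g i) j) ∉ BadB M b v (extS i0 mu)} < 2 * m'})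
  have hAb : #Ab * 4 ≤ Om := by
    have h1 : #Ab * 2 ^ (w * m') ≤ M ^ v * (2 ^ (2 * m') * Om) := by
      calc #Ab * 2 ^ (w * m') ≤ (∑ mu ∈ (Finset.univ.filter (fun mu : Fin v → Fin M => FD v (extS i0 mu))),
            #{g : Fin M → Vec n | 2 * #{j : Fin (2 * m') | (fun i => blk (g i) j) ∉ BadB M b v (extS i0 mu)} < 2 * m'}) *
              2 ^ (w * m') := Nat.mul_le_mul_right _ Finset.card_biUnion_le
        _ = ∑ mu ∈ (Finset.univ.filter (fun mu : Fin v → Fin M => FD v (extS i0 mu))),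
            #{g : Fin M → Vec n | 2 * #{j : Fin (2 * m') | (fun i => blk (g i) j) ∉ BadB M b v (extS i0 mu)} < 2 * m'} *
              2 ^ (w * m') := by rw [Finset.sum_mul]
        _ ≤ ∑ mu ∈ (Finset.univ.filter (fun mu : Fin v → Fin M => FD v (extS i0 mu))), 2 ^ (2 * m') * Om := by
            apply Finset.sum_le_sum
            intro mu hmu
            exact count_bad_b m' b M v w (extS i0 mu) (Finset.mem_filter.mp hmu).2 hw
        _ ≤ ∑ mu : Fin v → Fin M, 2 ^ (2 * m') * Om := Finset.sum_le_sum_of_subset (Finset.filter_subset _ _)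
        _ = _ := by rw [Finset.sum_const, Finset.card_univ, smul_eq_mul, Fintype.card_fun, Fintype.card_fin,
              Fintype.card_fin]
    have h2 : (#Ab * 4) * 2 ^ (w * m') ≤ Om * 2 ^ (w * m') := by
      calc (#Ab * 4) * 2 ^ (w * m') = 4 * (#Ab * 2 ^ (w * m')) := by ring
        _ ≤ 4 * (M ^ v * (2 ^ (2 * m') * Om)) := Nat.mul_le_mul_left _ h1
        _ = (4 * M ^ v * 2 ^ (2 * m')) * Om := by ring
        _ ≤ 2 ^ (w * m') * Om := Nat.mul_le_mul_right _ hb
        _ = _ := by ring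
    exact Nat.le_of_mul_le_mul_right h2 (by positivity)
  -- (c)
  let Ac : Finset (Fin M → Vec n) := (Finset.univ : Finset (Fin (2 * v - 1) → Fin M)).biUnion
        (fun mu => {g : Fin M → Vec n | ∑ t ∈ range (2 * v - 1), g (extS i0 mu t) = 0})
  have hAc : #Ac * 4 ≤ Om := by
    have hone : ∀ mu : Fin (2 * v - 1) → Fin M,
        #{g : Fin M → Vec n | ∑ t ∈ range (2 * v - 1), g (extS i0 mu t) = 0} * 2 ^ n ≤ Om := by
      intro mu
      obtain ⟨i1, hi1⟩ : ∃ i, Odd #{t ∈ range (2 * v - 1) | extS i0 mu t = i} := by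
        by_contra hcon
        push Not at hcon
        have h1 := Finset.card_eq_sum_card_fiberwise (s := range (2 * v - 1)) (t := (Finset.univ : Finset (Fin M)))
          (f := extS i0 mu) (fun _ _ => by simp)
        rw [Finset.card_range] at h1
        have h2 : Even (2 * v - 1) := by
          rw [h1]
          apply Finset.even_sum
          intro i _
          exact Nat.not_odd_iff_even.mp (hcon i)
        obtain ⟨r, hr⟩ := h2
        omega
      have h := fiber_card (A := Vec n) vec_two (range (2 * v - 1)) (extS i0 mu) i1 hi1 0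
      rw [hcardW] at h
      exact h
    have h1 : #Ac * 2 ^ n ≤ M ^ (2 * v - 1) * Om := by
      calc #Ac * 2 ^ n ≤ (∑ mu : Fin (2 * v - 1) → Fin M,
            #{g : Fin M → Vec n | ∑ t ∈ range (2 * v - 1), g (extS i0 mu t) = 0}) * 2 ^ n :=
            Nat.mul_le_mul_right _ Finset.card_biUnion_le
        _ = ∑ mu : Fin (2 * v - 1) → Fin M,
            #{g : Fin M → Vec n | ∑ t ∈ range (2 * v - 1), g (extS i0 mu t) = 0} * 2 ^ n := by rw [Finset.sum_mul]
        _ ≤ ∑ mu : Fin (2 * v - 1) → Fin M, Om := Finset.sum_le_sum (fun mu _ => hone mu)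
        _ = _ := by rw [Finset.sum_const, Finset.card_univ, smul_eq_mul, Fintype.card_fun, Fintype.card_fin,
              Fintype.card_fin]
    have h2 : (#Ac * 4) * 2 ^ n ≤ Om * 2 ^ n := by
      calc (#Ac * 4) * 2 ^ n = 4 * (#Ac * 2 ^ n) := by ring
        _ ≤ 4 * (M ^ (2 * v - 1) * Om) := Nat.mul_le_mul_left _ h1
        _ = (4 * M ^ (2 * v - 1)) * Om := by ring
        _ ≤ 2 ^ n * Om := Nat.mul_le_mul_right _ hc
        _ = _ := by ring
    exact Nat.le_of_mul_le_mul_right h2 (by positivity)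
  -- conclude
  have hlt : #(Aa ∪ Ab ∪ Ac) < Om := by
    have h1 := Finset.card_union_le (Aa ∪ Ab) Ac
    have h2 := Finset.card_union_le Aa Ab
    omega
  obtain ⟨g, hg⟩ : ∃ g, g ∉ Aa ∪ Ab ∪ Ac := by
    by_contra hcon
    push Not at hcon
    have : (Finset.univ : Finset (Fin M → Vec n)) ⊆ Aa ∪ Ab ∪ Ac := fun g _ => hcon g
    have := Finset.card_le_card this
    rw [Finset.card_univ] at this
    omega
  rw [Finset.mem_union, Finset.mem_union, not_or, not_or] at hg
  obtain ⟨⟨hga, hgb⟩, hgc⟩ := hg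
  refine ⟨g, ?_, ?_, ?_⟩
  · intro p x hp
    by_contra hcon
    push Not at hcon
    apply hga
    rw [Finset.mem_biUnion]
    refine ⟨(p, x), Finset.mem_filter.mpr ⟨Finset.mem_univ _, hp⟩, ?_⟩
    simp only [Finset.mem_filter, Finset.mem_univ, true_and]
    exact hcon
  · intro lam hF
    by_contra hcon
    rw [not_le] at hcon
    apply hgb
    rw [Finset.mem_biUnion]
    have he := extS_eq (v := v) i0 lam
    refine ⟨fun t : Fin v => lam t, Finset.mem_filter.mpr ⟨Finset.mem_univ _, FD_congr _ _ he hF⟩, ?_⟩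
    simp only [Finset.mem_filter, Finset.mem_univ, true_and]
    rw [← BadB_congr lam _ he]
    exact hcon
  · intro lam h0
    apply hgc
    rw [Finset.mem_biUnion]
    have he := extS_eq (v := 2 * v - 1) i0 lam
    refine ⟨fun t : Fin (2 * v - 1) => lam t, Finset.mem_univ _, ?_⟩
    simp only [Finset.mem_filter, Finset.mem_univ, true_and]
    rw [← h0]
    apply Finset.sum_congr rfl
    intro t ht
    rw [← he t (Finset.mem_range.mp ht)]

end Pool.Agent.Helper235.CosetExist
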