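import Mathlib
import Pool.Agent.Helper235.CosetBip
import Pool.Agent.Helper235.CosetExist
set_option autoImplicit false

namespace Pool.Agent.Helper235.CosetMain

open Finset Pool.Agent.Helper235.CosetFun Pool.Agent.Helper235.CosetGood
open Pool.Agent.Helper235.CosetExist Pool.Agent.Helper235.CosetSign
open scoped Pointwise

/-- an affine subspace of codimension at most C has a point with at most C coordinates different from 1 -/
lemma hit_ball {n C : ℕ} (S : AffineSubspace (ZMod 2) (Vec n)) (hne : (S : Set (Vec n)).Nonempty)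
    (hS : n ≤ Module.finrank (ZMod 2) S.direction + C) :
    ∃ d ∈ S, #{s : Fin n | d s ≠ 1} ≤ C := by
  classical
  obtain ⟨d, hdS, hmin⟩ : ∃ d ∈ S, ∀ d' ∈ S, #{s : Fin n | d s ≠ 1} ≤ #{s : Fin n | d' s ≠ 1} := by
    obtain ⟨d, hd, hm⟩ := Set.exists_min_image (S : Set (Vec n)) (fun d => #{s : Fin n | d s ≠ 1})
      (Set.toFinite _) hne
    exact ⟨d, hd, hm⟩
  refine ⟨d, hdS, ?_⟩
  by_contra hlt
  rw [not_le] at hlt
  let phi : S.direction →ₗ[ZMod 2] ({s : Fin n // d s = 1} → ZMod 2) :=
    (LinearMap.funLeft (ZMod 2) (ZMod 2) (Subtype.val : {s : Fin n // d s = 1} → Fin n)) ∘ₗ S.direction.subtype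
  have hninj : ¬ Function.Injective phi := by
    intro hinj
    have h1 := LinearMap.finrank_le_finrank_of_injective hinj
    rw [Module.finrank_fintype_fun_eq_card, Fintype.card_subtype] at h1
    have h2 : #{s : Fin n | d s = 1} + #{s : Fin n | d s ≠ 1} = n := by
      rw [Finset.card_filter_add_card_filter_not]
      simp
    omega
  have hker : LinearMap.ker phi ≠ ⊥ := fun h => hninj (LinearMap.ker_eq_bot.mp h)
  obtain ⟨w, hw, hw0⟩ := Submodule.exists_mem_ne_zero_of_ne_bot hker
  have hw1 : ∀ s, d s = 1 → (w : Vec n) s = 0 := by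
    intro s hs
    have := congrFun (LinearMap.mem_ker.mp hw) ⟨s, hs⟩
    simpa [phi] using this
  have hmem : (w : Vec n) + d ∈ S := by
    have := AffineSubspace.vadd_mem_of_mem_direction w.2 hdS
    simpa using this
  have hne' : ∃ s, (w : Vec n) s ≠ 0 := by
    by_contra hcon
    push Not at hcon
    apply hw0
    ext s
    exact hcon s
  obtain ⟨s0, hs0⟩ := hne'
  have hss : ({s : Fin n | ((w : Vec n) + d) s ≠ 1} : Finset (Fin n)) ⊂
      ({s : Fin n | d s ≠ 1} : Finset (Fin n)) := by
    rw [Finset.ssubset_iff_of_subset]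
    · refine ⟨s0, ?_, ?_⟩
      · simp only [Finset.mem_filter, Finset.mem_univ, true_and]
        intro h
        exact hs0 (hw1 s0 h)
      · simp only [Finset.mem_filter, Finset.mem_univ, true_and, not_not, Pi.add_apply]
        have h1 : (w : Vec n) s0 = 1 := (zmod2_cases _).resolve_left hs0
        have h2 : d s0 = 0 := by
          rcases zmod2_cases (d s0) with h | h
          · exact h
          · exact absurd (hw1 s0 h) hs0
        rw [h1, h2]; decide
    · intro s hs
      simp only [Finset.mem_filter, Finset.mem_univ, true_and, Pi.add_apply] at hs ⊢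
      intro h
      rw [h, hw1 s h] at hs
      exact hs (by decide)
  have h1 := Finset.card_lt_card hss
  have h2 := hmin _ hmem
  omega

lemma exists_proj {n : ℕ} (D : Submodule (ZMod 2) (Vec n)) :
    ∃ p : Vec n →ₗ[ZMod 2] Vec n, LinearMap.range p = D := by
  obtain ⟨f, hf⟩ := D.subtype.exists_leftInverse_of_injective (by simp)
  refine ⟨D.subtype ∘ₗ f, ?_⟩
  apply le_antisymm
  · rintro _ ⟨y, rfl⟩
    exact (f y).2
  · intro y hy
    refine ⟨y, ?_⟩
    have := LinearMap.congr_fun hf ⟨y, hy⟩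
    simp only [LinearMap.comp_apply, Submodule.subtype_apply, LinearMap.id_apply] at this ⊢
    rw [this]

lemma blk_sum {m b M : ℕ} (g : Fin M → (Fin (m * b) → ZMod 2)) (s : Finset ℕ) (lam : ℕ → Fin M) (j : Fin m) :
    blk (∑ t ∈ s, g (lam t)) j = ∑ t ∈ s, blk (g (lam t)) j := by
  funext u
  simp [blk, Finset.sum_apply]

/-- classes -/
abbrev Cls (T : ℕ) := (Fin T × Bool) ⊕ Bool

theorem construct (m' b M v w C q T l : ℕ) (hM0 : 0 < M) (hv : 2 ≤ v) (hb0 : 0 < b)
    (hw : 2 ^ w * (2 * v ^ 2) ≤ 2 ^ b) (hM : q * 2 ^ C ≤ M)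
    (hq : (2 * m' * b) * (2 * m' * b) + 2 * m' * b + 2 ≤ q)
    (hb : 4 * M ^ v * 2 ^ (2 * m') ≤ 2 ^ (w * m')) (hc : 4 * M ^ (2 * v - 1) ≤ 2 ^ (2 * m' * b))
    (hB : ∀ N : ℕ, 2 * m' ≤ 2 * N → (4 * C + 1) * N.choose (N / 2) * 2 ^ l ≤ 2 ^ N)
    (hnum : 2 ^ (2 * m' * b) * M ^ v < (2 ^ l) ^ (T * v))
    (hnC : C < 2 * m' * b) :
    ∃ cls : Vec (2 * m' * b) → Cls T, ∀ (k : Cls T) (S : AffineSubspace (ZMod 2) (Vec (2 * m' * b))),
      2 * m' * b ≤ Module.finrank (ZMod 2) S.direction + C →
      ¬ ((S : Set (Vec (2 * m' * b))) ⊆ {x | cls x = k} + {x | cls x = k}) := by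
  classical
  obtain ⟨g, hga, hgb, hgc⟩ := exists_g m' b M v w C q hM0 (by omega) hw hM hq hb hc
  let t0 : Fin b := ⟨0, hb0⟩
  have hgood : ∀ lam : ℕ → Fin M,
      (∀ k < v, ∀ k' < v, k < k' → ∑ t ∈ range k, g (lam t) ≠ ∑ t ∈ range k', g (lam t)) →
      ∃ J : Finset (Fin (2 * m')), 2 * m' ≤ 2 * #J ∧ ∀ j ∈ J, ∀ k < v, ∀ k' < v, k < k' →
        ¬ (blk (∑ t ∈ range k, g (lam t) + ∑ t ∈ range k', g (lam t)) j = 0 ∨
          blk (∑ t ∈ range k, g (lam t) + ∑ t ∈ range k', g (lam t)) j = 1) := by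
    intro lam hdist
    have hFD : FD v lam := by
      intro k hk k' hk' hkk'
      by_contra hcon
      push Not at hcon
      have h1 := sum_even vec_two (Finset.Ico k k') lam g (fun i => hcon i)
      apply hdist k hk k' hk' hkk'
      rw [← Finset.sum_range_add_sum_Ico _ hkk'.le, h1, add_zero]
    refine ⟨_, hgb lam hFD, ?_⟩
    intro j hj k hk k' hk' hkk' hcon
    simp only [Finset.mem_filter, Finset.mem_univ, true_and] at hj
    apply hj
    have h1 : ∑ t ∈ range k, g (lam t) + ∑ t ∈ range k', g (lam t) = ∑ t ∈ Finset.Ico k k', g (lam t) := by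
      rw [← Finset.sum_range_add_sum_Ico _ hkk'.le, ← add_assoc, vec_two, zero_add]
    rw [h1, blk_sum] at hcon
    unfold BadB
    simp only [Finset.mem_filter, Finset.mem_univ, true_and]
    exact ⟨k, hk, k', hk', hkk', hcon⟩
  obtain ⟨h, hh⟩ := exists_h (T := T) (C := C) (l := l) t0 g hgood hB hnum
  obtain ⟨c, hcol⟩ := Pool.Agent.Helper235.CosetBip.exists_coloring g (Mid t0 C h) vec_two v hv hh hgc
  have hout : ∀ x, x ∉ Mid t0 C h → ∃ i, 2 * (C : ℤ) < |F t0 h i x| := by
    intro x hx
    unfold Mid at hx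
    simp only [Set.mem_ofPred_eq, not_forall, not_le] at hx
    exact hx
  let cls : Vec (2 * m' * b) → Cls T := fun x =>
    if hx : x ∈ Mid t0 C h then Sum.inr (c x)
    else Sum.inl ((hout x hx).choose, decide (0 < F t0 h (hout x hx).choose x))
  have hcls1 : ∀ x i, cls x = Sum.inl (i, true) → 2 * (C : ℤ) < F t0 h i x := by
    intro x i hx
    simp only [cls] at hx
    split_ifs at hx with h1
    have h2 := Sum.inl.inj hx
    have h3 := (hout x h1).choose_spec
    have h4 : (hout x h1).choose = i := (Prod.mk.inj h2).1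
    have h5 := (Prod.mk.inj h2).2
    rw [h4] at h3 h5
    have h6 : 0 < F t0 h i x := by simpa using h5
    rwa [abs_of_pos h6] at h3
  have hcls2 : ∀ x i, cls x = Sum.inl (i, false) → F t0 h i x < -(2 * (C : ℤ)) := by
    intro x i hx
    simp only [cls] at hx
    split_ifs at hx with h1
    have h2 := Sum.inl.inj hx
    have h3 := (hout x h1).choose_spec
    have h4 : (hout x h1).choose = i := (Prod.mk.inj h2).1
    have h5 := (Prod.mk.inj h2).2
    rw [h4] at h3 h5
    have h6 : ¬ (0 < F t0 h i x) := by simpa using h5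
    rw [abs_of_nonpos (not_lt.mp h6)] at h3
    linarith
  have hcls3 : ∀ x c0, cls x = Sum.inr c0 → x ∈ Mid t0 C h ∧ c x = c0 := by
    intro x c0 hx
    simp only [cls] at hx
    split_ifs at hx with h1
    exact ⟨h1, Sum.inr.inj hx⟩
  refine ⟨cls, ?_⟩
  intro k S hS hsub
  have hSne : (S : Set (Vec (2 * m' * b))).Nonempty := by
    by_contra hcon
    rw [Set.not_nonempty_iff_eq_empty] at hcon
    have h1 : S = ⊥ := by
      apply SetLike.coe_injective
      rw [hcon]
      rfl
    rw [h1, AffineSubspace.direction_bot, finrank_bot] at hS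
    omega
  rcases k with ⟨i, s⟩ | c0
  · obtain ⟨d, hdS, hdC⟩ := hit_ball S hSne hS
    have hdblk : #{j : Fin (2 * m') | blk d j ≠ 1} ≤ C := by
      refine le_trans ?_ hdC
      have hsub2 : ({j : Fin (2 * m') | blk d j ≠ 1} : Finset (Fin (2 * m'))) ⊆
          ({s : Fin (2 * m' * b) | d s ≠ 1} : Finset _).image (fun s => (finProdFinEquiv.symm s).1) := by
        intro j hj
        simp only [Finset.mem_filter, Finset.mem_univ, true_and] at hj
        rw [Finset.mem_image]
        obtain ⟨u, hu⟩ : ∃ u, blk d j u ≠ 1 := by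
          by_contra hcon
          push Not at hcon
          apply hj
          funext u
          exact hcon u
        refine ⟨finProdFinEquiv (j, u), ?_, by rw [Equiv.symm_apply_apply]⟩
        simp only [Finset.mem_filter, Finset.mem_univ, true_and]
        exact hu
      exact le_trans (Finset.card_le_card hsub2) Finset.card_image_le
    obtain ⟨x, hx, y, hy, hxy⟩ := Set.mem_add.mp (hsub hdS)
    simp only [Set.mem_ofPred_eq] at hx hy
    have hy' : y = x + d := by
      rw [← hxy, ← add_assoc, vec_two, zero_add]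
    have hflip := F_flip t0 h i x d C hdblk
    rw [← hy', abs_le] at hflip
    cases s
    · have h1 := hcls2 x i hx
      have h2 := hcls2 y i hy
      have : (0:ℤ) ≤ C := by positivity
      linarith [hflip.1]
    · have h1 := hcls1 x i hx
      have h2 := hcls1 y i hy
      have : (0:ℤ) ≤ C := by positivity
      linarith [hflip.2]
  · obtain ⟨p, hp⟩ := exists_proj S.direction
    obtain ⟨x0, hx0⟩ := hSne
    rw [← hp] at hS
    obtain ⟨i, y0, hi⟩ := hga p x0 hS
    have hgS : g i ∈ S := by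
      rw [hi]
      have hpy : p y0 ∈ S.direction := by rw [← hp]; exact ⟨y0, rfl⟩
      have := AffineSubspace.vadd_mem_of_mem_direction hpy hx0
      rw [add_comm]
      simpa using this
    obtain ⟨x, hx, y, hy, hxy⟩ := Set.mem_add.mp (hsub hgS)
    simp only [Set.mem_ofPred_eq] at hx hy
    obtain ⟨hxR, hxc⟩ := hcls3 x c0 hx
    obtain ⟨hyR, hyc⟩ := hcls3 y c0 hy
    have hxgy : x + g i = y := by
      rw [← hxy, ← add_assoc, vec_two, zero_add]
    exact hcol x hxR y hyR i hxgy (by rw [hxc, hyc])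

end Pool.Agent.Helper235.CosetMain
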