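import Mathlib

open Finset

namespace Pool.Agent.Helper235.Round

lemma exists_round {ι : Type*} (J : Finset ι) (d c : ι → ℝ) (t : ℝ) (ht0 : 0 ≤ t) (ht1 : t ≤ 1)
    (hc : ∀ j ∈ J, |c j| ≤ 2) :
    ∃ b : ℝ, (b = 0 ∨ b = 1) ∧
      ∑ j ∈ J, (d j + (b - t) * c j) ^ 2 ≤ ∑ j ∈ J, (d j) ^ 2 + J.card := by
  have key : t * ∑ j ∈ J, (d j + (1 - t) * c j) ^ 2 + (1 - t) * ∑ j ∈ J, (d j + (0 - t) * c j) ^ 2
      ≤ ∑ j ∈ J, (d j) ^ 2 + J.card := by
    rw [Finset.mul_sum, Finset.mul_sum, ← Finset.sum_add_distrib]
    have h1 : ∑ j ∈ J, (d j) ^ 2 + (J.card : ℝ) = ∑ j ∈ J, ((d j) ^ 2 + 1) := by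
      rw [Finset.sum_add_distrib]; simp
    rw [h1]
    apply Finset.sum_le_sum
    intro j hj
    have hcj := hc j hj
    have h2 : (c j) ^ 2 ≤ 4 := by
      have := abs_le.mp hcj
      nlinarith
    have h3 : t * (1 - t) ≤ 1 / 4 := by nlinarith [sq_nonneg (t - 1 / 2)]
    have h4 : 0 ≤ t * (1 - t) := mul_nonneg ht0 (by linarith)
    have h5 : t * (d j + (1 - t) * c j) ^ 2 + (1 - t) * (d j + (0 - t) * c j) ^ 2
        = (d j) ^ 2 + t * (1 - t) * (c j) ^ 2 := by ring
    rw [h5]
    have h6 : t * (1 - t) * (c j) ^ 2 ≤ (1 / 4) * 4 :=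
      mul_le_mul h3 h2 (sq_nonneg _) (by norm_num)
    linarith
  by_contra hcon
  push Not at hcon
  have a0 := hcon 0 (Or.inl rfl)
  have a1 := hcon 1 (Or.inr rfl)
  have : ∑ j ∈ J, (d j) ^ 2 + (J.card : ℝ) <
      t * ∑ j ∈ J, (d j + (1 - t) * c j) ^ 2 + (1 - t) * ∑ j ∈ J, (d j + (0 - t) * c j) ^ 2 := by
    rcases eq_or_lt_of_le ht0 with h | h
    · subst h; simpa using a0
    · have e1 := mul_lt_mul_of_pos_left a1 h
      have e2 := mul_le_mul_of_nonneg_left a0.le (by linarith : (0:ℝ) ≤ 1 - t)
      nlinarith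
  linarith

/-- The linear functional (for `h = 0`) or the correlation at shift `h` (for `h ≠ 0`). -/
noncomputable def D (N : ℕ) (h : ℕ) (F : ℕ → ℝ) : ℝ :=
  if h = 0 then ∑ x ∈ range N, F x else ∑ x ∈ range N, F x * F (x + h)

/-- coefficient of the change -/
noncomputable def cf (N : ℕ) (h : ℕ) (F : ℕ → ℝ) (x0 : ℕ) : ℝ :=
  if h = 0 then 1 else F (x0 + h) + ∑ x ∈ range N, (if x + h = x0 then F x else 0)

lemma D_update (N h : ℕ) (F : ℕ → ℝ) (x0 : ℕ) (hx0 : x0 < N) (b : ℝ) :
    D N h (Function.update F x0 b) = D N h F + (b - F x0) * cf N h F x0 := by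
  unfold D cf
  by_cases hh : h = 0
  · simp only [hh, if_true]
    have : ∀ x, Function.update F x0 b x = F x + (if x = x0 then (b - F x0) else 0) := by
      intro x
      by_cases hx : x = x0
      · subst hx; simp
      · simp [hx]
    simp_rw [this]
    rw [Finset.sum_add_distrib, Finset.sum_ite_eq']
    simp [hx0]
  · simp only [hh, if_false]
    have : ∀ x, Function.update F x0 b x * Function.update F x0 b (x + h) =
        F x * F (x + h) + ((if x = x0 then (b - F x0) * F (x + h) else 0)
          + (b - F x0) * (if x + h = x0 then F x else 0)) := by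
      intro x
      by_cases hx : x = x0
      · subst hx
        have h2 : x + h ≠ x := by omega
        simp only [Function.update_self, Function.update_of_ne h2, if_true, if_neg h2]
        ring
      · by_cases hy : x + h = x0
        · simp only [hx, hy, Function.update_self, Function.update_of_ne hx, if_true, if_false]
          ring
        · simp [hx, hy, Function.update_of_ne hx, Function.update_of_ne hy]
    simp_rw [this]
    rw [Finset.sum_add_distrib, Finset.sum_add_distrib, Finset.sum_ite_eq', ← Finset.mul_sum]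
    simp only [Finset.mem_range, hx0, if_true]
    ring

lemma cf_abs_le (N h : ℕ) (F : ℕ → ℝ) (x0 : ℕ) (hF : ∀ x, 0 ≤ F x ∧ F x ≤ 1) :
    |cf N h F x0| ≤ 2 := by
  unfold cf
  by_cases hh : h = 0
  · simp [hh]
  · simp only [hh, if_false]
    have h1 : 0 ≤ ∑ x ∈ range N, (if x + h = x0 then F x else 0) := by
      apply Finset.sum_nonneg
      intro x _
      split_ifs
      · exact (hF x).1
      · exact le_refl _
    have h2 : ∑ x ∈ range N, (if x + h = x0 then F x else 0) ≤ 1 := by
      by_cases hle : h ≤ x0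
      · have : ∀ x ∈ range N, (if x + h = x0 then F x else 0) = if x = x0 - h then F x else 0 := by
          intro x _
          have : x + h = x0 ↔ x = x0 - h := by omega
          simp [this]
        rw [Finset.sum_congr rfl this, Finset.sum_ite_eq']
        split_ifs
        · exact (hF _).2
        · norm_num
      · have : ∀ x ∈ range N, (if x + h = x0 then F x else 0) = 0 := by
          intro x _
          have : ¬ (x + h = x0) := by omega
          simp [this]
        rw [Finset.sum_congr rfl this]; simp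
    rw [abs_le]
    constructor
    · have := (hF (x0 + h)).1; linarith
    · have := (hF (x0 + h)).2; linarith

/-- Derandomised rounding of a `[0,1]`-valued function to a `{0,1}`-valued one. -/
theorem rounding (N : ℕ) (J : Finset ℕ) (f : ℕ → ℝ) (hf : ∀ x, 0 ≤ f x ∧ f x ≤ 1)
    (hN : ∀ x, N ≤ x → f x = 0) :
    ∀ m ≤ N, ∃ F : ℕ → ℝ, (∀ x, 0 ≤ F x ∧ F x ≤ 1) ∧ (∀ x < m, F x = 0 ∨ F x = 1) ∧
      (∀ x, N ≤ x → F x = 0) ∧
      ∑ h ∈ J, (D N h F - D N h f) ^ 2 ≤ m * J.card := by
  intro m
  induction m with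
  | zero =>
    intro _
    exact ⟨f, hf, by simp, hN, by simp⟩
  | succ m ih =>
    intro hm
    obtain ⟨F, hF, hF01, hFN, hΦ⟩ := ih (by omega)
    obtain ⟨b, hb, hbΦ⟩ := exists_round J (fun h => D N h F - D N h f) (fun h => cf N h F m)
      (F m) (hF m).1 (hF m).2 (fun h _ => cf_abs_le N h F m hF)
    refine ⟨Function.update F m b, ?_, ?_, ?_, ?_⟩
    · intro x
      by_cases hx : x = m
      · subst hx
        simp only [Function.update_self]
        rcases hb with rfl | rfl <;> norm_num
      · simp only [Function.update_of_ne hx]; exact hF x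
    · intro x hx
      by_cases hxm : x = m
      · subst hxm; simpa using hb
      · simp only [Function.update_of_ne hxm]
        exact hF01 x (by omega)
    · intro x hx
      have : x ≠ m := by omega
      simp only [Function.update_of_ne this]
      exact hFN x hx
    · have : ∀ h ∈ J, (D N h (Function.update F m b) - D N h f) ^ 2 =
          (D N h F - D N h f + (b - F m) * cf N h F m) ^ 2 := by
        intro h _
        rw [D_update N h F m (by omega) b]
        ring
      rw [Finset.sum_congr rfl this]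
      push_cast
      nlinarith [hbΦ, hΦ]

end Pool.Agent.Helper235.Round
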