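import Pool.Agent.Helper235.Fun
import Pool.Agent.Helper235.Round

open Finset

namespace Pool.Agent.Helper235.Chars

lemma card_div_lt {L : ℕ} {S : Finset ℕ} (hS : ∀ p ∈ S, p.Prime ∧ L < p) (y K : ℕ) (hy : 0 < y)
    (hyK : y < L ^ K) : (S.filter (fun p => p ∣ y)).card ≤ K := by
  by_contra hcon
  push Not at hcon
  have h1 : ∏ p ∈ S.filter (fun p => p ∣ y), p ∣ y := by
    apply Finset.prod_primes_dvd
    · intro p hp
      rw [Finset.mem_filter] at hp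
      exact (hS p hp.1).1.prime
    · intro p hp
      rw [Finset.mem_filter] at hp
      exact hp.2
  have h2 := Nat.le_of_dvd hy h1
  have h3 : ∏ p ∈ S.filter (fun p => p ∣ y), L ≤ ∏ p ∈ S.filter (fun p => p ∣ y), p := by
    apply Finset.prod_le_prod'
    intro p hp
    rw [Finset.mem_filter] at hp
    exact (hS p hp.1).2.le
  rw [Finset.prod_const] at h3
  rcases Nat.eq_zero_or_pos L with rfl | hL
  · rcases Nat.eq_zero_or_pos K with rfl | hK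
    · simp at hyK; omega
    · rw [zero_pow hK.ne'] at hyK; omega
  · have h4 : L ^ K ≤ L ^ (S.filter (fun p => p ∣ y)).card := Nat.pow_le_pow_right hL hcon.le
    omega

lemma sum_mq_le {L : ℕ} {Pa Pb : Finset ℕ} {c : ℕ} (H : Data L Pa Pb c) (y : ℕ) :
    ∑ t ∈ Pa ×ˢ Pb, mq L t.1 t.2 y ≤
      2 * (L : ℝ) ^ 4 * (((Pa.filter (fun p => p ∣ y)).card : ℝ) *
        ((Pb.filter (fun p => p ∣ y)).card : ℝ))
      - (2 * L - 2) * (((Pa.filter (fun p => ¬ p ∣ y)).card : ℝ) *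
        ((Pb.filter (fun p => ¬ p ∣ y)).card : ℝ)) := by
  have e1 : ∀ P : Finset ℕ, ((P.filter (fun p => p ∣ y)).card : ℝ) =
      ∑ p ∈ P, (if p ∣ y then (1 : ℝ) else 0) := by
    intro P; simp
  have e2 : ∀ P : Finset ℕ, ((P.filter (fun p => ¬ p ∣ y)).card : ℝ) =
      ∑ p ∈ P, (if p ∣ y then (0 : ℝ) else 1) := by
    intro P
    rw [Finset.card_filter]
    push_cast
    apply Finset.sum_congr rfl
    intro p _
    by_cases h : p ∣ y <;> simp [h]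
  rw [e1, e1, e2, e2, Finset.sum_mul_sum, Finset.sum_mul_sum, ← Finset.sum_product',
    ← Finset.sum_product', Finset.mul_sum, Finset.mul_sum, ← Finset.sum_sub_distrib]
  apply Finset.sum_le_sum
  rintro ⟨p, q⟩ ht
  rw [Finset.mem_product] at ht
  obtain ⟨_, _, h3, _⟩ := H.ha _ ht.1
  obtain ⟨_, _, k3, _⟩ := H.hb _ ht.2
  simp only at h3 k3 ⊢
  have := mul_le_L4 h3 k3
  unfold mq
  by_cases c1 : p ∣ y <;> by_cases c2 : q ∣ y <;> simp only [c1, c2, if_true, if_false] <;> linarith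

lemma sum_mq_neg {L : ℕ} {Pa Pb : Finset ℕ} {c : ℕ} (H : Data L Pa Pb c) (y K s : ℕ) (hy : 0 < y)
    (hyK : y < L ^ K) (hsa : s + K ≤ Pa.card) (hsb : s + K ≤ Pb.card)
    (hcond : 2 * (L : ℝ) ^ 4 * (K : ℝ) ^ 2 + 1 ≤ (2 * L - 2) * (s : ℝ) ^ 2) :
    ∑ t ∈ Pa ×ˢ Pb, mq L t.1 t.2 y ≤ -1 := by
  have hL1 : (1 : ℝ) ≤ L := by exact_mod_cast (by have := H.hL; omega : 1 ≤ L)
  have ka := card_div_lt (S := Pa) (fun p hp => ⟨(H.ha p hp).1, (H.ha p hp).2.1⟩) y K hy hyK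
  have kb := card_div_lt (S := Pb) (fun p hp => ⟨(H.hb p hp).1, (H.hb p hp).2.1⟩) y K hy hyK
  have ea := Finset.card_filter_add_card_filter_not (s := Pa) (fun p => p ∣ y)
  have eb := Finset.card_filter_add_card_filter_not (s := Pb) (fun p => p ∣ y)
  have la : s ≤ (Pa.filter (fun p => ¬ p ∣ y)).card := by omega
  have lb : s ≤ (Pb.filter (fun p => ¬ p ∣ y)).card := by omega
  have := sum_mq_le H y
  have ka' : ((Pa.filter (fun p => p ∣ y)).card : ℝ) ≤ K := by exact_mod_cast ka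
  have kb' : ((Pb.filter (fun p => p ∣ y)).card : ℝ) ≤ K := by exact_mod_cast kb
  have la' : (s : ℝ) ≤ ((Pa.filter (fun p => ¬ p ∣ y)).card : ℝ) := by exact_mod_cast la
  have lb' : (s : ℝ) ≤ ((Pb.filter (fun p => ¬ p ∣ y)).card : ℝ) := by exact_mod_cast lb
  have m1 : ((Pa.filter (fun p => p ∣ y)).card : ℝ) * ((Pb.filter (fun p => p ∣ y)).card : ℝ)
      ≤ (K : ℝ) ^ 2 := by
    rw [sq]; exact mul_le_mul ka' kb' (by positivity) (by positivity)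
  have m2 : (s : ℝ) ^ 2 ≤ ((Pa.filter (fun p => ¬ p ∣ y)).card : ℝ) *
      ((Pb.filter (fun p => ¬ p ∣ y)).card : ℝ) := by
    rw [sq]; exact mul_le_mul la' lb' (by positivity) (by positivity)
  have m3 := mul_le_mul_of_nonneg_left m1 (by positivity : (0 : ℝ) ≤ 2 * (L : ℝ) ^ 4)
  have m4 := mul_le_mul_of_nonneg_left m2 (by linarith : (0 : ℝ) ≤ 2 * (L : ℝ) - 2)
  linarith

/-- the density function -/
noncomputable def ff (L : ℕ) (Pa Pb : Finset ℕ) (x : ℕ) : ℝ :=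
  (1 + Fz L Pa Pb x / (2 * (L : ℝ) ^ 8)) / 2

lemma ff_mem {L : ℕ} {Pa Pb : Finset ℕ} {c : ℕ} (H : Data L Pa Pb c) (x : ℕ) :
    0 ≤ ff L Pa Pb x ∧ ff L Pa Pb x ≤ 1 := by
  have hL0 : (0 : ℝ) < L := by exact_mod_cast (by have := H.hL; omega : 0 < L)
  have hB : (0 : ℝ) < 2 * (L : ℝ) ^ 8 := by positivity
  have h := abs_le.mp (Fz_bd H x)
  have h1 : -1 ≤ Fz L Pa Pb x / (2 * (L : ℝ) ^ 8) := by
    rw [le_div_iff₀ hB]; linarith
  have h2 : Fz L Pa Pb x / (2 * (L : ℝ) ^ 8) ≤ 1 := by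
    rw [div_le_iff₀ hB]; linarith
  unfold ff
  constructor <;> linarith

lemma ff_sum {L : ℕ} {Pa Pb : Finset ℕ} {c : ℕ} (H : Data L Pa Pb c) (n : ℕ) :
    ((n : ℝ) - (L : ℝ) ^ 4) / 2 ≤ ∑ x ∈ range n, ff L Pa Pb x := by
  have hL0 : (0 : ℝ) < L := by exact_mod_cast (by have := H.hL; omega : 0 < L)
  unfold ff
  rw [← Finset.sum_div, Finset.sum_add_distrib, ← Finset.sum_div]
  have h := (abs_le.mp (lin_bd H n)).1
  have h2 : -(L : ℝ) ^ 4 ≤ (∑ x ∈ range n, Fz L Pa Pb x) / (2 * (L : ℝ) ^ 8) := by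
    rw [le_div_iff₀ (by positivity)]
    calc _ = -(2 * (L : ℝ) ^ 12) := by ring
      _ ≤ _ := h
  simp only [sum_const, card_range, nsmul_eq_mul, mul_one]
  linarith

lemma ff_corr {L : ℕ} {Pa Pb : Finset ℕ} {c : ℕ} (H : Data L Pa Pb c) (y n : ℕ)
    (hneg : ∑ t ∈ Pa ×ˢ Pb, mq L t.1 t.2 y ≤ -1) :
    ∑ x ∈ range n, ff L Pa Pb x * ff L Pa Pb (x + y ^ 2) ≤
      ((n : ℝ) * (1 - 1 / (4 * (L : ℝ) ^ 16)) + 5 * (L : ℝ) ^ 8) / 4 := by
  have hL0 : (0 : ℝ) < L := by exact_mod_cast (by have := H.hL; omega : 0 < L)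
  have hL1 : (1 : ℝ) ≤ L := by exact_mod_cast (by have := H.hL; omega : 1 ≤ L)
  set B : ℝ := 2 * (L : ℝ) ^ 8 with hB
  have hBpos : 0 < B := by positivity
  have e : ∀ x, ff L Pa Pb x * ff L Pa Pb (x + y ^ 2) =
      (1 + (Fz L Pa Pb x + Fz L Pa Pb (x + y ^ 2)) / B
        + (Fz L Pa Pb x * Fz L Pa Pb (x + y ^ 2)) / B ^ 2) / 4 := by
    intro x
    unfold ff
    rw [← hB]
    field_simp
    ring
  simp_rw [e]
  rw [← Finset.sum_div, Finset.sum_add_distrib, Finset.sum_add_distrib, ← Finset.sum_div,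
    ← Finset.sum_div, Finset.sum_add_distrib]
  simp only [sum_const, card_range, nsmul_eq_mul, mul_one]
  have s1 : ∑ x ∈ range n, Fz L Pa Pb x ≤ 2 * (L : ℝ) ^ 12 := (abs_le.mp (lin_bd H n)).2
  have s2 : ∑ x ∈ range n, Fz L Pa Pb (x + y ^ 2) ≤ 4 * (L : ℝ) ^ 12 := by
    have e1 := Finset.sum_range_add (Fz L Pa Pb) (y ^ 2) n
    have e2 := (abs_le.mp (lin_bd H (y ^ 2 + n))).2
    have e3 := (abs_le.mp (lin_bd H (y ^ 2))).1
    have e4 : ∑ x ∈ range n, Fz L Pa Pb (x + y ^ 2) = ∑ x ∈ range n, Fz L Pa Pb (y ^ 2 + x) :=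
      Finset.sum_congr rfl (fun x _ => by rw [add_comm])
    rw [e4]
    linarith
  have s3 := quad_bd H y n
  have s4 : (n : ℝ) * (∑ t ∈ Pa ×ˢ Pb, mq L t.1 t.2 y) ≤ n * (-1) :=
    mul_le_mul_of_nonneg_left hneg (by positivity)
  have t1 : (∑ x ∈ range n, Fz L Pa Pb x + ∑ x ∈ range n, Fz L Pa Pb (x + y ^ 2)) / B ≤
      3 * (L : ℝ) ^ 4 := by
    rw [div_le_iff₀ hBpos, hB]
    calc _ ≤ 2 * (L : ℝ) ^ 12 + 4 * (L : ℝ) ^ 12 := add_le_add s1 s2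
      _ = _ := by ring
  have t2 : (∑ x ∈ range n, Fz L Pa Pb x * Fz L Pa Pb (x + y ^ 2)) / B ^ 2 ≤
      -((n : ℝ) * (1 / (4 * (L : ℝ) ^ 16))) + 2 * (L : ℝ) ^ 8 := by
    rw [div_le_iff₀ (by positivity), hB]
    calc _ ≤ n * (-1) + 8 * (L : ℝ) ^ 24 := by linarith
      _ = _ := by field_simp; ring
  have t3 : (L : ℝ) ^ 4 ≤ (L : ℝ) ^ 8 := pow_le_pow_right₀ hL1 (by norm_num)
  linarith

end Pool.Agent.Helper235.Chars
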