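import Pool.Agent.Helper235.Block

open Finset

namespace Pool.Agent.Helper235.Chars

/-- The hypotheses on the two finite sets of primes. -/
structure Data (L : ℕ) (Pa Pb : Finset ℕ) (c : ℕ) : Prop where
  hL : 2 ≤ L
  ha : ∀ p ∈ Pa, p.Prime ∧ L < p ∧ p ≤ L ^ 2 ∧ p % 4 = c
  hb : ∀ p ∈ Pb, p.Prime ∧ L < p ∧ p ≤ L ^ 2 ∧ p % 4 = c
  hd : Disjoint Pa Pb

/-- the sum of all building blocks -/
noncomputable def Fz (L : ℕ) (Pa Pb : Finset ℕ) (x : ℕ) : ℝ :=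
  ∑ t ∈ Pa ×ˢ Pb, G L t.1 t.2 x

lemma G_symm (L : ℝ) (p q x : ℕ) : G L p q x = G L q p x := by unfold G; ring

section
variable {L : ℕ} {Pa Pb : Finset ℕ} {c : ℕ}

lemma mul_le_L4 {p q L : ℕ} (hp : p ≤ L ^ 2) (hq : q ≤ L ^ 2) : (p : ℝ) * q ≤ (L : ℝ) ^ 4 := by
  have : p * q ≤ L ^ 2 * L ^ 2 := Nat.mul_le_mul hp hq
  calc (p : ℝ) * q = ((p * q : ℕ) : ℝ) := by push_cast; ring
    _ ≤ ((L ^ 2 * L ^ 2 : ℕ) : ℝ) := by exact_mod_cast this
    _ = (L : ℝ) ^ 4 := by push_cast; ring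

lemma G_bd {p q : ℕ} (hL : 2 ≤ L) (hp : p.Prime) (hq : q.Prime) (hp1 : L < p)
    (hp2 : p ≤ L ^ 2) (hq2 : q ≤ L ^ 2) (x : ℕ) : |G L p q x| ≤ 2 * (L : ℝ) ^ 4 := by
  have h1 : (L : ℝ) ≤ p * q := by
    have : L ≤ p * q := le_trans hp1.le (Nat.le_mul_of_pos_right p hq.pos)
    exact_mod_cast this
  have := rz_bound_G p q hp hq L (by positivity) h1 x
  have h2 := mul_le_L4 hp2 hq2
  linarith

lemma card_le_sq (hP : ∀ p ∈ Pa, p.Prime ∧ L < p ∧ p ≤ L ^ 2 ∧ p % 4 = c) :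
    Pa.card ≤ L ^ 2 := by
  have : Pa ⊆ Finset.Ioc 0 (L ^ 2) := by
    intro p hp
    rw [Finset.mem_Ioc]
    exact ⟨(hP p hp).1.pos, (hP p hp).2.2.1⟩
  have := Finset.card_le_card this
  simpa using this

lemma card_Q (H : Data L Pa Pb c) : ((Pa ×ˢ Pb).card : ℝ) ≤ (L : ℝ) ^ 4 := by
  rw [Finset.card_product]
  have h1 := card_le_sq H.ha
  have h2 := card_le_sq H.hb
  push_cast
  exact mul_le_L4 h1 h2

lemma ne_two (H : Data L Pa Pb c) {p : ℕ} (h : L < p) : p ≠ 2 := by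
  have := H.hL; omega

/-- `|Fz| ≤ 2 L^8` -/
lemma Fz_bd (H : Data L Pa Pb c) (x : ℕ) : |Fz L Pa Pb x| ≤ 2 * (L : ℝ) ^ 8 := by
  unfold Fz
  calc |∑ t ∈ Pa ×ˢ Pb, G L t.1 t.2 x| ≤ ∑ t ∈ Pa ×ˢ Pb, |G L t.1 t.2 x| :=
        Finset.abs_sum_le_sum_abs _ _
    _ ≤ ∑ t ∈ Pa ×ˢ Pb, 2 * (L : ℝ) ^ 4 := by
        apply Finset.sum_le_sum
        intro t ht
        rw [Finset.mem_product] at ht
        obtain ⟨h1, h2, h3, _⟩ := H.ha _ ht.1
        obtain ⟨k1, k2, k3, _⟩ := H.hb _ ht.2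
        exact G_bd H.hL h1 k1 h2 h3 k3 x
    _ = ((Pa ×ˢ Pb).card : ℝ) * (2 * (L : ℝ) ^ 4) := by simp
    _ ≤ (L : ℝ) ^ 4 * (2 * (L : ℝ) ^ 4) := by
        apply mul_le_mul_of_nonneg_right (card_Q H) (by positivity)
    _ = 2 * (L : ℝ) ^ 8 := by ring

/-- linear sums are small -/
lemma lin_bd (H : Data L Pa Pb c) (n : ℕ) : |∑ x ∈ range n, Fz L Pa Pb x| ≤ 2 * (L : ℝ) ^ 12 := by
  unfold Fz
  rw [Finset.sum_comm]
  calc |∑ t ∈ Pa ×ˢ Pb, ∑ x ∈ range n, G L t.1 t.2 x|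
      ≤ ∑ t ∈ Pa ×ˢ Pb, |∑ x ∈ range n, G L t.1 t.2 x| := Finset.abs_sum_le_sum_abs _ _
    _ ≤ ∑ t ∈ Pa ×ˢ Pb, 2 * (L : ℝ) ^ 8 := by
        apply Finset.sum_le_sum
        rintro ⟨p, q⟩ ht
        rw [Finset.mem_product] at ht
        obtain ⟨h1, h2, h3, _⟩ := H.ha _ ht.1
        obtain ⟨k1, k2, k3, _⟩ := H.hb _ ht.2
        simp only at h1 h2 h3 k1 k2 k3 ht ⊢
        have hpq : p ≠ q := by
          rintro rfl
          exact Finset.disjoint_left.mp H.hd ht.1 ht.2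
        have hco : Nat.Coprime p (q * 1) := by
          rw [mul_one]; exact (Nat.coprime_primes h1 k1).mpr hpq
        have hz := G_zero L p q 1 h1 (ne_two H h2) k1.pos one_pos hco (fun _ => 1) (fun _ => rfl)
        simp only [mul_one] at hz
        have := incomplete (p * q) (Nat.mul_pos h1.pos k1.pos) (G L p q) (per_G L p q) hz
          (2 * (L : ℝ) ^ 4) (fun x => G_bd H.hL h1 k1 h2 h3 k3 x) n
        have h4 := mul_le_L4 h3 k3
        push_cast at this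
        calc _ ≤ (p : ℝ) * q * (2 * (L : ℝ) ^ 4) := this
          _ ≤ (L : ℝ) ^ 4 * (2 * (L : ℝ) ^ 4) := mul_le_mul_of_nonneg_right h4 (by positivity)
          _ = 2 * (L : ℝ) ^ 8 := by ring
    _ = ((Pa ×ˢ Pb).card : ℝ) * (2 * (L : ℝ) ^ 8) := by simp
    _ ≤ (L : ℝ) ^ 4 * (2 * (L : ℝ) ^ 8) := by
        apply mul_le_mul_of_nonneg_right (card_Q H) (by positivity)
    _ = 2 * (L : ℝ) ^ 12 := by ring

lemma cross_bd {p q p' q' : ℕ} (hL : 2 ≤ L) (hp : p.Prime) (hq : q.Prime) (hp' : p'.Prime)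
    (hq' : q'.Prime) (a1 : L < p) (a2 : L < p') (b1 : p ≤ L ^ 2) (b2 : q ≤ L ^ 2)
    (b3 : p' ≤ L ^ 2) (b4 : q' ≤ L ^ 2) (c1 : p ≠ q) (c2 : p ≠ p') (c3 : p ≠ q') (h n : ℕ) :
    ∑ x ∈ range n, G L p q x * G L p' q' (x + h) ≤ 4 * (L : ℝ) ^ 16 := by
  have hco : Nat.Coprime p (q * (p' * q')) := by
    apply Nat.Coprime.mul_right
    · exact (Nat.coprime_primes hp hq).mpr c1
    · apply Nat.Coprime.mul_right
      · exact (Nat.coprime_primes hp hp').mpr c2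
      · exact (Nat.coprime_primes hp hq').mpr c3
  have hz := G_zero L p q (p' * q') hp (by omega) hq.pos (Nat.mul_pos hp'.pos hq'.pos) hco
    (fun x => G L p' q' (x + h)) ((per_G L p' q').shift h)
  have hper : Per (p * (q * (p' * q'))) (fun x => G L p q x * G L p' q' (x + h)) := by
    apply Per.mul
    · exact (per_G L p q).of_dvd (by rw [← mul_assoc]; exact dvd_mul_right _ _)
    · exact ((per_G L p' q').shift h).of_dvd (by rw [← mul_assoc]; exact dvd_mul_left _ _)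
  have hb : ∀ x, |G L p q x * G L p' q' (x + h)| ≤ (2 * (L : ℝ) ^ 4) * (2 * (L : ℝ) ^ 4) := by
    intro x
    rw [abs_mul]
    exact mul_le_mul (G_bd hL hp hq a1 b1 b2 x) (G_bd hL hp' hq' a2 b3 b4 _) (abs_nonneg _)
      (by positivity)
  have := incomplete (p * (q * (p' * q')))
    (Nat.mul_pos hp.pos (Nat.mul_pos hq.pos (Nat.mul_pos hp'.pos hq'.pos))) _ hper hz _ hb n
  have h1 := mul_le_L4 b1 b2
  have h2 := mul_le_L4 b3 b4
  have h3 : ((p * (q * (p' * q')) : ℕ) : ℝ) ≤ (L : ℝ) ^ 4 * (L : ℝ) ^ 4 := by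
    push_cast
    calc (p : ℝ) * (q * (p' * q')) = (p * q) * (p' * q') := by ring
      _ ≤ _ := mul_le_mul h1 h2 (by positivity) (by positivity)
  calc _ ≤ |∑ x ∈ range n, G L p q x * G L p' q' (x + h)| := le_abs_self _
    _ ≤ _ := this
    _ ≤ ((L : ℝ) ^ 4 * (L : ℝ) ^ 4) * ((2 * (L : ℝ) ^ 4) * (2 * (L : ℝ) ^ 4)) :=
        mul_le_mul_of_nonneg_right h3 (by positivity)
    _ = 4 * (L : ℝ) ^ 16 := by ring

lemma diag_bd {p q : ℕ} (hL : 2 ≤ L) (hp : p.Prime) (hq : q.Prime)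
    (a1 : L < p) (a2 : L < q) (b1 : p ≤ L ^ 2) (b2 : q ≤ L ^ 2) (c1 : p ≠ q)
    (hm : p % 4 = q % 4) (y n : ℕ) :
    ∑ x ∈ range n, G L p q x * G L p q (x + y ^ 2) ≤ n * mq L p q y + 8 * (L : ℝ) ^ 12 := by
  have hle := G_diag_le L p q hp hq c1 (by omega) (by omega) hm (by positivity)
    (by exact_mod_cast a1.le) (by exact_mod_cast a2.le) y
  have hT : 0 < p * q := Nat.mul_pos hp.pos hq.pos
  have hT' : (0 : ℝ) < ((p * q : ℕ) : ℝ) := by exact_mod_cast hT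
  set W : ℝ := (∑ x ∈ range (p * q), G L p q x * G L p q (x + y ^ 2)) / ((p * q : ℕ) : ℝ) with hW
  have hWle : W ≤ mq L p q y := by
    rw [hW, div_le_iff₀ hT']; linarith
  have hb : ∀ x, |G L p q x * G L p q (x + y ^ 2)| ≤ (2 * (L : ℝ) ^ 4) * (2 * (L : ℝ) ^ 4) := by
    intro x
    rw [abs_mul]
    exact mul_le_mul (G_bd hL hp hq a1 b1 b2 x) (G_bd hL hp hq a1 b1 b2 _) (abs_nonneg _)
      (by positivity)
  have := incomplete_mean (p * q) hT (fun x => G L p q x * G L p q (x + y ^ 2))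
    ((per_G L p q).mul ((per_G L p q).shift _)) W (by rw [hW]; field_simp) _ hb n
  have h1 := mul_le_L4 b1 b2
  calc _ ≤ _ := this
    _ ≤ n * mq L p q y + (L : ℝ) ^ 4 * (2 * ((2 * (L : ℝ) ^ 4) * (2 * (L : ℝ) ^ 4))) := by
        apply add_le_add
        · exact mul_le_mul_of_nonneg_left hWle (by positivity)
        · apply mul_le_mul_of_nonneg_right _ (by positivity)
          push_cast; exact h1
    _ = _ := by ring

/-- the quadratic sums -/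
lemma quad_bd (H : Data L Pa Pb c) (y n : ℕ) :
    ∑ x ∈ range n, Fz L Pa Pb x * Fz L Pa Pb (x + y ^ 2) ≤
      n * (∑ t ∈ Pa ×ˢ Pb, mq L t.1 t.2 y) + 8 * (L : ℝ) ^ 24 := by
  have hL1 : (1 : ℝ) ≤ L := by exact_mod_cast (by have := H.hL; omega : 1 ≤ L)
  have e : ∑ x ∈ range n, Fz L Pa Pb x * Fz L Pa Pb (x + y ^ 2) =
      ∑ s ∈ Pa ×ˢ Pb, ∑ t ∈ Pa ×ˢ Pb, ∑ x ∈ range n, G L s.1 s.2 x * G L t.1 t.2 (x + y ^ 2) := by
    unfold Fz
    simp_rw [Finset.sum_mul_sum]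
    rw [Finset.sum_comm]
    apply Finset.sum_congr rfl
    intro s _
    rw [Finset.sum_comm]
  rw [e]
  have key : ∀ s ∈ Pa ×ˢ Pb, ∀ t ∈ Pa ×ˢ Pb,
      ∑ x ∈ range n, G L s.1 s.2 x * G L t.1 t.2 (x + y ^ 2) ≤
        (if s = t then n * mq L s.1 s.2 y else 0) + 8 * (L : ℝ) ^ 16 := by
    rintro ⟨p, q⟩ hs ⟨p', q'⟩ ht
    rw [Finset.mem_product] at hs ht
    simp only at hs ht ⊢
    obtain ⟨h1, h2, h3, h4⟩ := H.ha _ hs.1
    obtain ⟨k1, k2, k3, k4⟩ := H.hb _ hs.2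
    obtain ⟨h1', h2', h3', h4'⟩ := H.ha _ ht.1
    obtain ⟨k1', k2', k3', k4'⟩ := H.hb _ ht.2
    have dis : ∀ a, a ∈ Pa → a ∉ Pb := fun a h => Finset.disjoint_left.mp H.hd h
    have n1 : p ≠ q := by rintro rfl; exact dis _ hs.1 hs.2
    have n2 : p ≠ q' := by rintro rfl; exact dis _ hs.1 ht.2
    have n3 : q ≠ p' := by rintro rfl; exact dis _ ht.1 hs.2
    by_cases hst : (p, q) = (p', q')
    · rw [if_pos hst]
      rw [Prod.mk.injEq] at hst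
      obtain ⟨rfl, rfl⟩ := hst
      have := diag_bd H.hL h1 k1 h2 k2 h3 k3 n1 (by rw [h4, k4]) y n
      have hp : (L : ℝ) ^ 12 ≤ (L : ℝ) ^ 16 := pow_le_pow_right₀ hL1 (by norm_num)
      linarith
    · rw [if_neg hst]
      have hpos : (0 : ℝ) ≤ (L : ℝ) ^ 16 := by positivity
      by_cases hpp : p = p'
      · have hqq : q ≠ q' := by
          rintro rfl; exact hst (by rw [hpp])
        have := cross_bd (L := L) (p := q) (q := p) (p' := p') (q' := q') H.hL k1 h1 h1' k1' k2 h2'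
          k3 h3 h3' k3' n1.symm n3 hqq (y ^ 2) n
        simp_rw [G_symm L q p] at this
        linarith
      · have := cross_bd (L := L) (p := p) (q := q) (p' := p') (q' := q') H.hL h1 k1 h1' k1' h2 h2'
          h3 k3 h3' k3' n1 hpp n2 (y ^ 2) n
        linarith
  calc _ ≤ ∑ s ∈ Pa ×ˢ Pb, ∑ t ∈ Pa ×ˢ Pb,
        ((if s = t then n * mq L s.1 s.2 y else 0) + 8 * (L : ℝ) ^ 16) :=
        Finset.sum_le_sum (fun s hs => Finset.sum_le_sum (fun t ht => key s hs t ht))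
    _ = n * (∑ t ∈ Pa ×ˢ Pb, mq L t.1 t.2 y) +
        ((Pa ×ˢ Pb).card : ℝ) * (((Pa ×ˢ Pb).card : ℝ) * (8 * (L : ℝ) ^ 16)) := by
        simp_rw [Finset.sum_add_distrib, Finset.sum_ite_eq, Finset.sum_const, nsmul_eq_mul]
        rw [Finset.mul_sum]
        congr 1
        apply Finset.sum_congr rfl
        intro s hs
        rw [if_pos hs]
    _ ≤ n * (∑ t ∈ Pa ×ˢ Pb, mq L t.1 t.2 y) +
        (L : ℝ) ^ 4 * ((L : ℝ) ^ 4 * (8 * (L : ℝ) ^ 16)) := by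
        have := card_Q H
        gcongr
    _ = _ := by ring

end

end Pool.Agent.Helper235.Chars
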