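import Mathlib

set_option autoImplicit false

namespace Pool.Agent.Helper235.Multipack

/-- vertices of a geodesic -/
theorem exists_geod {V : Type} (G : SimpleGraph V) (hG : G.Connected) (a b : V) :
    ∃ p : ℕ → V, p 0 = a ∧ p (G.dist a b) = b ∧
      ∀ i j, i ≤ j → j ≤ G.dist a b → G.dist (p i) (p j) = j - i := by
  obtain ⟨w, hw⟩ := hG.exists_walk_length_eq_dist a b
  have step : ∀ i, G.dist (w.getVert i) (w.getVert (i+1)) ≤ 1 := by
    intro i
    by_cases h : i < w.length
    · exact (SimpleGraph.dist_eq_one_iff_adj.mpr (w.adj_getVert_succ h)).le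
    · rw [w.getVert_of_length_le (by omega), w.getVert_of_length_le (by omega)]
      simp
  have le : ∀ i n, G.dist (w.getVert i) (w.getVert (i+n)) ≤ n := by
    intro i n
    induction n with
    | zero => simp
    | succ n ih =>
      have h1 := hG.dist_triangle (u := w.getVert i) (v := w.getVert (i+n)) (w := w.getVert (i+n+1))
      have h2 := step (i+n)
      have h3 : i + (n + 1) = i + n + 1 := by omega
      rw [h3]
      omega
  have e0 : w.getVert 0 = a := w.getVert_zero
  have e1 : w.getVert (G.dist a b) = b := by rw [← hw]; exact w.getVert_length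
  refine ⟨w.getVert, e0, e1, ?_⟩
  intro i j hij hj
  have h1 := le 0 i
  have h2 := le i (j - i)
  have h3 := le j (G.dist a b - j)
  rw [show (0 : ℕ) + i = i by omega, e0] at h1
  rw [show i + (j - i) = j by omega] at h2
  rw [show j + (G.dist a b - j) = G.dist a b by omega, e1] at h3
  have t1 := hG.dist_triangle (u := a) (v := w.getVert i) (w := b)
  have t2 := hG.dist_triangle (u := w.getVert i) (v := w.getVert j) (w := b)
  omega

theorem pack {V : Type} (d : V → V → ℕ) (hs : ∀ x y, d x y = d y x)
    (ht : ∀ x y z, d x z ≤ d x y + d y z) (h0 : ∀ x, d x x = 0)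
    (k α β j : ℕ) (hk : α + β + j = k) (h1 : 3 * (α + j) ≤ 2 * k + 2)
    (h2 : 3 * (β + j) ≤ 2 * k + 2) (h3 : 3 * j ≤ k + 1) (P Q : ℕ → V)
    (hP : ∀ i i', i ≤ i' → i' ≤ α + β → d (P i) (P i') = 3 * (i' - i))
    (hQ : ∀ h h', h ≤ h' → h' < j → d (Q h) (Q h') = 3 * (h' - h))
    (hPQ : ∀ h, h < j → 2 * k + 1 ≤ d (P α) (Q h) + 3 * h)
    (hfar : ∀ i h, i ≤ α + β → h < j → 3 ≤ d (P i) (Q h)) :
    ∃ S : Finset V, S.card = k + 1 ∧
      ∀ v : V, ∀ r : ℕ, 1 ≤ r → (S.filter (fun u => d v u ≤ r)).card ≤ r := by
  classical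
  have cardS : ((Finset.range (α + β + 1)).image P ∪ (Finset.range j).image Q).card = k + 1 := by
    rw [Finset.card_union_of_disjoint, Finset.card_image_of_injOn, Finset.card_image_of_injOn,
      Finset.card_range, Finset.card_range]
    · omega
    · intro x hx y hy hxy
      simp only [Finset.coe_range, Set.mem_Iio] at hx hy
      rcases le_total x y with h | h
      · have := hQ x y h hy
        rw [show Q x = Q y from hxy, h0] at this
        omega
      · have := hQ y x h hx
        rw [show Q x = Q y from hxy, h0] at this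
        omega
    · intro x hx y hy hxy
      simp only [Finset.coe_range, Set.mem_Iio] at hx hy
      rcases le_total x y with h | h
      · have := hP x y h (by omega)
        rw [show P x = P y from hxy, h0] at this
        omega
      · have := hP y x h (by omega)
        rw [show P x = P y from hxy, h0] at this
        omega
    · rw [Finset.disjoint_left]
      intro x hx hy
      simp only [Finset.mem_image, Finset.mem_range] at hx hy
      obtain ⟨i, hi, rfl⟩ := hx
      obtain ⟨h, hh, he⟩ := hy
      have := hfar i h (by omega) hh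
      rw [he, h0] at this
      omega
  refine ⟨(Finset.range (α + β + 1)).image P ∪ (Finset.range j).image Q, cardS, ?_⟩
  intro v r hr
  by_cases hrk : k + 1 ≤ r
  · exact (Finset.card_filter_le _ _).trans (by omega)
  push Not at hrk
  set A := (Finset.range (α + β + 1)).filter (fun i => d v (P i) ≤ r) with hA
  set B := (Finset.range j).filter (fun h => d v (Q h) ≤ r) with hB
  have hcard : (((Finset.range (α + β + 1)).image P ∪ (Finset.range j).image Q).filter
      (fun u => d v u ≤ r)).card ≤ A.card + B.card := by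
    have hsub : ((Finset.range (α + β + 1)).image P ∪ (Finset.range j).image Q).filter
      (fun u => d v u ≤ r) ⊆ A.image P ∪ B.image Q := by
      intro x hx
      simp only [Finset.mem_filter, Finset.mem_union, Finset.mem_image, Finset.mem_range] at hx
      simp only [hA, hB, Finset.mem_union, Finset.mem_image, Finset.mem_filter, Finset.mem_range]
      obtain ⟨hx1 | hx1, hx2⟩ := hx
      · obtain ⟨i, hi, rfl⟩ := hx1
        exact Or.inl ⟨i, ⟨hi, hx2⟩, rfl⟩
      · obtain ⟨i, hi, rfl⟩ := hx1
        exact Or.inr ⟨i, ⟨hi, hx2⟩, rfl⟩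
    calc _ ≤ (A.image P ∪ B.image Q).card := Finset.card_le_card hsub
      _ ≤ (A.image P).card + (B.image Q).card := Finset.card_union_le _ _
      _ ≤ A.card + B.card := Nat.add_le_add Finset.card_image_le Finset.card_image_le
  refine hcard.trans ?_
  have memA : ∀ i, i ∈ A ↔ i < α + β + 1 ∧ d v (P i) ≤ r := by
    intro i; simp [hA]
  have memB : ∀ i, i ∈ B ↔ i < j ∧ d v (Q i) ≤ r := by
    intro i; simp [hB]
  -- window bound for A
  have winA : A.Nonempty → ∃ i1 i2, i1 ∈ A ∧ i2 ∈ A ∧ (∀ i ∈ A, i1 ≤ i ∧ i ≤ i2) ∧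
      3 * (i2 - i1) ≤ 2 * r := by
    intro hne
    refine ⟨A.min' hne, A.max' hne, A.min'_mem hne, A.max'_mem hne,
      fun i hi => ⟨A.min'_le i hi, A.le_max' i hi⟩, ?_⟩
    have m1 := (memA _).1 (A.min'_mem hne)
    have m2 := (memA _).1 (A.max'_mem hne)
    have hle : A.min' hne ≤ A.max' hne := A.min'_le _ (A.max'_mem hne)
    rw [← hP _ _ hle (by omega)]
    have := ht (P (A.min' hne)) v (P (A.max' hne))
    rw [hs (P (A.min' hne)) v] at this
    omega
  have winB : B.Nonempty → ∃ i1 i2, i1 ∈ B ∧ i2 ∈ B ∧ (∀ i ∈ B, i1 ≤ i ∧ i ≤ i2) ∧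
      3 * (i2 - i1) ≤ 2 * r := by
    intro hne
    refine ⟨B.min' hne, B.max' hne, B.min'_mem hne, B.max'_mem hne,
      fun i hi => ⟨B.min'_le i hi, B.le_max' i hi⟩, ?_⟩
    have m1 := (memB _).1 (B.min'_mem hne)
    have m2 := (memB _).1 (B.max'_mem hne)
    have hle : B.min' hne ≤ B.max' hne := B.min'_le _ (B.max'_mem hne)
    rw [← hQ _ _ hle (by omega)]
    have := ht (Q (B.min' hne)) v (Q (B.max' hne))
    rw [hs (Q (B.min' hne)) v] at this
    omega
  rcases A.eq_empty_or_nonempty with hAe | hAne
  · rcases B.eq_empty_or_nonempty with hBe | hBne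
    · rw [hAe, hBe]; simp
    · obtain ⟨b1, b2, hb1, hb2, hb, hw⟩ := winB hBne
      have hsub : B ⊆ Finset.Icc b1 b2 := fun i hi => Finset.mem_Icc.2 (hb i hi)
      have := Finset.card_le_card hsub
      rw [Nat.card_Icc] at this
      rw [hAe, Finset.card_empty]
      have := (hb b2 hb2).1
      omega
  obtain ⟨i1, i2, hi1, hi2, hi, hwA⟩ := winA hAne
  have hi12 := (hi i2 hi2).1
  have hsubA : A ⊆ Finset.Icc i1 i2 := fun i hi' => Finset.mem_Icc.2 (hi i hi')
  have hcA := Finset.card_le_card hsubA
  rw [Nat.card_Icc] at hcA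
  rcases B.eq_empty_or_nonempty with hBe | hBne
  · rw [hBe, Finset.card_empty]
    omega
  obtain ⟨b1, b2, hb1, hb2, hb, hwB⟩ := winB hBne
  have hcB : B.card ≤ j - b1 := by
    have hsub : B ⊆ Finset.Ico b1 j := fun i hi' =>
      Finset.mem_Ico.2 ⟨(hb i hi').1, ((memB i).1 hi').1⟩
    have := Finset.card_le_card hsub
    rwa [Nat.card_Ico] at this
  have mb1 := (memB _).1 hb1
  have mi1 := (memA _).1 hi1
  have mi2 := (memA _).1 hi2
  -- r ≥ 2
  have hr2 : 2 ≤ r := by
    by_contra hcon
    have hr1 : r = 1 := by omega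
    have := hfar i1 b1 (by omega) mb1.1
    have t := ht (P i1) v (Q b1)
    rw [hs (P i1) v] at t
    omega
  -- nearest to α
  obtain ⟨im, him, hmin⟩ := A.exists_min_image (fun i => (i - α) + (α - i)) hAne
  have mim := (memA _).1 him
  have key : 2 * k + 1 ≤ 3 * ((im - α) + (α - im)) + 2 * r + 3 * b1 := by
    have e1 := hPQ b1 mb1.1
    have t1 := ht (P α) v (Q b1)
    have t2 := ht (P α) (P im) v
    rw [hs (P im) v] at t2
    have e2 : d (P α) (P im) = 3 * ((im - α) + (α - im)) := by
      rcases le_total α im with h | h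
      · rw [hP _ _ h (by omega)]; omega
      · rw [hs, hP _ _ h (by omega)]; omega
    omega
  set μ := (im - α) + (α - im) with hμ
  have hmin' : ∀ i ∈ A, μ ≤ (i - α) + (α - i) := hmin
  by_cases c1 : i2 ≤ α
  · have hsub : A ⊆ Finset.Icc 0 (α - μ) := by
      intro i hi'
      have := hmin' i hi'
      have := (hi i hi').2
      rw [Finset.mem_Icc]
      omega
    have hc := Finset.card_le_card hsub
    rw [Nat.card_Icc] at hc
    have := (hi im him).2
    omega
  by_cases c2 : α ≤ i1
  · have hsub : A ⊆ Finset.Icc (α + μ) (α + β) := by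
      intro i hi'
      have := hmin' i hi'
      have := (hi i hi').1
      have := ((memA i).1 hi').1
      rw [Finset.mem_Icc]
      omega
    have hc := Finset.card_le_card hsub
    rw [Nat.card_Icc] at hc
    have := (hi im him).1
    omega
  by_cases c3 : μ = 0
  · rw [c3] at key
    omega
  · have hsub : A ⊆ Finset.Icc i1 (α - μ) ∪ Finset.Icc (α + μ) i2 := by
      intro i hi'
      have := hmin' i hi'
      have := hi i hi'
      rw [Finset.mem_union, Finset.mem_Icc, Finset.mem_Icc]
      omega
    have hc := (Finset.card_le_card hsub).trans (Finset.card_union_le _ _)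
    rw [Nat.card_Icc, Nat.card_Icc] at hc
    have := hmin' i1 hi1
    have := hmin' i2 hi2
    omega


/-- a multipacking -/
def MPk {V : Type} (G : SimpleGraph V) (S : Finset V) : Prop :=
  ∀ v : V, ∀ r : ℕ, 1 ≤ r → (S.filter (fun u => G.dist v u ≤ r)).card ≤ r

theorem pack_simple {V : Type} (G : SimpleGraph V) (hG : G.Connected)
    (k α β j : ℕ) (hk : α + β + j = k) (h1 : 3 * (α + j) ≤ 2 * k + 1)
    (h2 : 3 * (β + j) ≤ 2 * k + 1) (h3 : 3 * j ≤ k + 1)
    (hrad : ∀ v, ∃ u, 2 * k + 1 ≤ G.dist v u) (x y : V) (hxy : 3 * (α + β) ≤ G.dist x y) :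
    ∃ S : Finset V, S.card = k + 1 ∧ MPk G S := by
  obtain ⟨p, hp0, hp1, hp⟩ := exists_geod G hG x y
  obtain ⟨z, hz⟩ := hrad (p (3 * α))
  obtain ⟨q, hq0, hq1, hq⟩ := exists_geod G hG z (p (3 * α))
  have hzu : G.dist z (p (3 * α)) = G.dist (p (3 * α)) z := SimpleGraph.dist_comm
  have hPQ : ∀ h, h < j → 2 * k + 1 ≤ G.dist (p (3 * α)) (q (3 * h)) + 3 * h := by
    intro h hh
    have e := hq 0 (3 * h) (by omega) (by omega)
    rw [hq0] at e
    have t := hG.dist_triangle (u := p (3 * α)) (v := q (3 * h)) (w := z)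
    have e2 : G.dist (q (3 * h)) z = G.dist z (q (3 * h)) := SimpleGraph.dist_comm
    omega
  refine pack (fun a b => G.dist a b) (fun a b => SimpleGraph.dist_comm)
    (fun a b c => hG.dist_triangle) (fun a => SimpleGraph.dist_self) k α β j hk (by omega)
    (by omega) h3 (fun i => p (3 * i)) (fun h => q (3 * h)) ?_ ?_ hPQ ?_
  · intro i i' hi hi'
    show G.dist (p (3 * i)) (p (3 * i')) = _
    rw [hp _ _ (by omega) (by omega)]
    omega
  · intro i i' hi hi'
    show G.dist (q (3 * i)) (q (3 * i')) = _
    rw [hq _ _ (by omega) (by omega)]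
    omega
  · intro i h hi hh
    show 3 ≤ G.dist (p (3 * i)) (q (3 * h))
    have e := hPQ h hh
    have t := hG.dist_triangle (u := p (3 * α)) (v := p (3 * i)) (w := q (3 * h))
    rcases le_total α i with hc | hc
    · have := hp (3 * α) (3 * i) (by omega) (by omega)
      omega
    · have := hp (3 * i) (3 * α) (by omega) (by omega)
      have e2 : G.dist (p (3 * i)) (p (3 * α)) = G.dist (p (3 * α)) (p (3 * i)) :=
        SimpleGraph.dist_comm
      omega

theorem pack_special {V : Type} (G : SimpleGraph V) (hG : G.Connected)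
    (a : ℕ) (ha : 1 ≤ a) (hrad : ∀ v, ∃ u, 2 * (3 * a + 2) + 1 ≤ G.dist v u)
    (hdiam : ∀ u v, G.dist u v ≤ 2 * (3 * a + 2) + 1) (x : V) :
    ∃ S : Finset V, S.card = 3 * a + 2 + 1 ∧ MPk G S := by
  obtain ⟨y, hy⟩ := hrad x
  have hxy : G.dist x y = 6 * a + 5 := by have := hdiam x y; omega
  obtain ⟨p, hp0, hp1, hp⟩ := exists_geod G hG x y
  rw [hxy] at hp1 hp
  obtain ⟨z, hz⟩ := hrad (p (2 + 3 * a))
  obtain ⟨q, hq0, hq1, hq⟩ := exists_geod G hG z x
  have hzx : 3 * a + 3 ≤ G.dist z x := by
    have e := hp 0 (2 + 3 * a) (by omega) (by omega)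
    rw [hp0] at e
    have t := hG.dist_triangle (u := p (2 + 3 * a)) (v := x) (w := z)
    have e2 : G.dist (p (2 + 3 * a)) x = G.dist x (p (2 + 3 * a)) := SimpleGraph.dist_comm
    have e3 : G.dist x z = G.dist z x := SimpleGraph.dist_comm
    omega
  have hPQ : ∀ h, h < a + 1 → 2 * (3 * a + 2) + 1 ≤
      G.dist (p (2 + 3 * a)) (q (3 * h)) + 3 * h := by
    intro h hh
    have e := hq 0 (3 * h) (by omega) (by omega)
    rw [hq0] at e
    have t := hG.dist_triangle (u := p (2 + 3 * a)) (v := q (3 * h)) (w := z)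
    have e2 : G.dist (q (3 * h)) z = G.dist z (q (3 * h)) := SimpleGraph.dist_comm
    omega
  refine pack (fun a b => G.dist a b) (fun a b => SimpleGraph.dist_comm)
    (fun a b c => hG.dist_triangle) (fun a => SimpleGraph.dist_self) (3 * a + 2) a (a + 1) (a + 1)
    (by omega) (by omega) (by omega) (by omega)
    (fun i => p (2 + 3 * i)) (fun h => q (3 * h)) ?_ ?_ hPQ ?_
  · intro i i' hi hi'
    show G.dist (p (2 + 3 * i)) (p (2 + 3 * i')) = _
    rw [hp _ _ (by omega) (by omega)]
    omega
  · intro i i' hi hi'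
    show G.dist (q (3 * i)) (q (3 * i')) = _
    rw [hq _ _ (by omega) (by omega)]
    omega
  · intro i h hi hh
    show 3 ≤ G.dist (p (2 + 3 * i)) (q (3 * h))
    have e := hPQ h hh
    have t := hG.dist_triangle (u := p (2 + 3 * a)) (v := p (2 + 3 * i)) (w := q (3 * h))
    have e2 : G.dist (p (2 + 3 * i)) (p (2 + 3 * a)) = G.dist (p (2 + 3 * a)) (p (2 + 3 * i)) :=
      SimpleGraph.dist_comm
    by_cases hc : i = 2 * a + 1 ∧ h = a
    · obtain ⟨rfl, rfl⟩ := hc
      rw [show 2 + 3 * (2 * h + 1) = 6 * h + 5 by ring, hp1]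
      by_contra hcon
      push Not at hcon
      have d1 := hq (3 * h) (G.dist z x) (by omega) le_rfl
      rw [hq1] at d1
      have t1 := hG.dist_triangle (u := x) (v := q (3 * h)) (w := y)
      have e3 : G.dist x (q (3 * h)) = G.dist (q (3 * h)) x := SimpleGraph.dist_comm
      have e4 : G.dist (q (3 * h)) y = G.dist y (q (3 * h)) := SimpleGraph.dist_comm
      have := hdiam z x
      omega
    · rcases le_total a i with hc' | hc'
      · have := hp (2 + 3 * a) (2 + 3 * i) (by omega) (by omega)
        omega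
      · have := hp (2 + 3 * i) (2 + 3 * a) (by omega) (by omega)
        omega

theorem big {V : Type} (G : SimpleGraph V) (hG : G.Connected) (x : V)
    (k : ℕ) (hk2 : k ≠ 2) (hrad : ∀ v, ∃ u, 2 * k + 1 ≤ G.dist v u) :
    ∃ S : Finset V, S.card = k + 1 ∧ MPk G S := by
  obtain ⟨y, hy⟩ := hrad x
  have h3 := Nat.div_add_mod k 3
  have h4 : k % 3 < 3 := Nat.mod_lt _ (by norm_num)
  set a := k / 3 with ha
  interval_cases hm : k % 3
  · exact pack_simple G hG k a a a (by omega) (by omega) (by omega) (by omega) hrad x y (by omega)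
  · exact pack_simple G hG k a (a+1) a (by omega) (by omega) (by omega) (by omega) hrad x y
      (by omega)
  · by_cases hD : ∃ u v, 2 * k + 2 ≤ G.dist u v
    · obtain ⟨u, v, huv⟩ := hD
      exact pack_simple G hG k (a+1) (a+1) a (by omega) (by omega) (by omega) (by omega) hrad u v
        (by omega)
    · push Not at hD
      have hk : k = 3 * a + 2 := by omega
      clear_value a
      subst hk
      exact pack_special G hG a (by omega) hrad (fun u v => by have := hD u v; omega) x

/-- The theorem: broadcast domination number is at most twice the multipacking number. -/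
theorem main {V : Type} [Fintype V] (G : SimpleGraph V) (hG : G.Connected) :
    ∃ (f : V → ℕ) (S : Finset V),
        (∀ u : V, ∃ v : V, 0 < f v ∧ G.dist u v ≤ f v) ∧
        (∀ v : V, ∀ r : ℕ, 1 ≤ r → (S.filter (fun u => G.dist v u ≤ r)).card ≤ r) ∧
        ∑ v, f v ≤ 2 * S.card := by
  classical
  obtain ⟨x0⟩ := hG.nonempty
  have hne : ((Finset.univ : Finset (Finset V)).filter (fun S => MPk G S)).Nonempty := by
    refine ⟨{x0}, ?_⟩
    rw [Finset.mem_filter]
    refine ⟨Finset.mem_univ _, ?_⟩
    intro v r hr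
    exact (Finset.card_filter_le _ _).trans (by simpa using hr)
  obtain ⟨S, hS, hmax⟩ := Finset.exists_max_image _ Finset.card hne
  rw [Finset.mem_filter] at hS
  have hS1 := hS.2
  have hmax' : ∀ T : Finset V, MPk G T → T.card ≤ S.card := fun T hT =>
    hmax T (Finset.mem_filter.2 ⟨Finset.mem_univ _, hT⟩)
  have hcard : 1 ≤ S.card := by
    have := hmax' {x0} (by
      intro v r hr
      exact (Finset.card_filter_le _ _).trans (by simpa using hr))
    simpa using this
  by_cases hrad : ∀ v, ∃ u, 2 * S.card + 1 ≤ G.dist v u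
  · by_cases hk2 : S.card = 2
    · rw [hk2] at hrad
      obtain ⟨y, hy⟩ := hrad x0
      have hcover : ∀ z, G.dist z x0 ≤ 2 ∨ G.dist z y ≤ 2 := by
        intro z
        by_contra hcon
        push Not at hcon
        have hxy : x0 ≠ y := by
          rintro rfl
          rw [SimpleGraph.dist_self] at hy
          omega
        have hzx : z ≠ x0 := by
          rintro rfl
          rw [SimpleGraph.dist_self] at hcon
          omega
        have hzy : z ≠ y := by
          rintro rfl
          rw [SimpleGraph.dist_self] at hcon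
          omega
        have hc3 : ({x0, y, z} : Finset V).card = 3 := by
          rw [Finset.card_insert_of_notMem, Finset.card_insert_of_notMem, Finset.card_singleton]
          · simpa using hzy.symm
          · simp only [Finset.mem_insert, Finset.mem_singleton, not_or]
            exact ⟨hxy, hzx.symm⟩
        have hT : MPk G {x0, y, z} := by
          intro v r hr
          by_cases hr3 : 3 ≤ r
          · exact (Finset.card_filter_le _ _).trans (by omega)
          push Not at hr3
          have t1 := hG.dist_triangle (u := x0) (v := v) (w := y)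
          have t2 := hG.dist_triangle (u := z) (v := v) (w := y)
          have t3 := hG.dist_triangle (u := z) (v := v) (w := x0)
          have e1 : G.dist x0 v = G.dist v x0 := SimpleGraph.dist_comm
          have e2 : G.dist z v = G.dist v z := SimpleGraph.dist_comm
          rw [Finset.filter_insert, Finset.filter_insert, Finset.filter_singleton]
          have hr12 : r = 1 ∨ r = 2 := by omega
          split_ifs with c1 c2 c3 c2 c3 c2 c3 <;> first
            | omega
            | (simp; done)
            | (simp; omega)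
            | (rw [Finset.card_insert_of_notMem (by simpa using hzx.symm)]; simp; omega)
            | (rw [Finset.card_insert_of_notMem (by simpa using hzy.symm)]; simp; omega)
        have := hmax' _ hT
        omega
      refine ⟨Pi.single x0 2 + Pi.single y 2, S, ?_, hS1, ?_⟩
      · intro u
        rcases hcover u with h | h
        · refine ⟨x0, ?_, ?_⟩ <;> simp only [Pi.add_apply, Pi.single_eq_same] <;> omega
        · refine ⟨y, ?_, ?_⟩ <;> simp only [Pi.add_apply, Pi.single_eq_same] <;> omega
      · simp only [Pi.add_apply, Finset.sum_add_distrib]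
        rw [Finset.sum_pi_single' , Finset.sum_pi_single']
        simp only [Finset.mem_univ, if_true]
        omega
    · obtain ⟨T, hT, hT2⟩ := big G hG x0 S.card hk2 hrad
      have := hmax' T hT2
      omega
  · push Not at hrad
    obtain ⟨v, hv⟩ := hrad
    refine ⟨Pi.single v (2 * S.card), S, ?_, hS1, ?_⟩
    · intro u
      refine ⟨v, ?_, ?_⟩
      · rw [Pi.single_eq_same]; omega
      · rw [Pi.single_eq_same]
        have := hv u
        rw [SimpleGraph.dist_comm] at this
        omega
    · rw [Finset.sum_pi_single']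
      simp

end Pool.Agent.Helper235.Multipack
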