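import Pool.Agent.Helper235.Assemble

open Finset

namespace Pool.Agent.Helper235.Chars

lemma pi_lower (m : ℕ) (hm : 1000 ≤ m) : (13 : ℝ) * (m : ℝ) ^ 18 ≤ (Nat.primeCounting (m ^ 20) : ℝ) := by
  have hmr : (1000 : ℝ) ≤ m := by exact_mod_cast hm
  have hm0 : (0 : ℝ) < m := by linarith
  have h := Chebyshev.pi_ge (m ^ 20)
  refine le_trans ?_ h
  have hlogm : Real.log m ≤ m := by
    have := Real.log_le_sub_one_of_pos hm0
    linarith
  have hlogm1 : 0 < Real.log m := Real.log_pos (by linarith)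
  push_cast
  rw [Real.log_pow]
  have e1 : Real.log ((m : ℝ) ^ 20 + 1) ≤ 21 * m := by
    have : (m : ℝ) ^ 20 + 1 ≤ (m : ℝ) ^ 21 := by
      have h1 : (1 : ℝ) ≤ (m : ℝ) ^ 20 := one_le_pow₀ (by linarith)
      have h2 : (m : ℝ) ^ 21 = m * (m : ℝ) ^ 20 := by ring
      rw [h2]; nlinarith
    calc Real.log ((m : ℝ) ^ 20 + 1) ≤ Real.log ((m : ℝ) ^ 21) :=
          Real.log_le_log (by positivity) this
      _ = 21 * Real.log m := by rw [Real.log_pow]; norm_num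
      _ ≤ 21 * m := by linarith
  rw [le_div_iff₀ (by positivity)]
  have hlog2 := Real.log_two_gt_d9
  have hlog2' : (0.6 : ℝ) ≤ Real.log 2 := by linarith
  push_cast
  have e2 : (m : ℝ) ^ 20 * 0.6 ≤ (m : ℝ) ^ 20 * Real.log 2 :=
    mul_le_mul_of_nonneg_left hlog2' (by positivity)
  have e3 : 13 * (m : ℝ) ^ 18 * (20 * Real.log m) ≤ 13 * (m : ℝ) ^ 18 * (20 * m) :=
    mul_le_mul_of_nonneg_left (by linarith) (by positivity)
  have e4 : (1000 : ℝ) * (m : ℝ) ^ 19 ≤ (m : ℝ) ^ 20 := by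
    have : (m : ℝ) ^ 20 = m * (m : ℝ) ^ 19 := by ring
    rw [this]; exact mul_le_mul_of_nonneg_right hmr (by positivity)
  have e5 : (m : ℝ) ≤ (m : ℝ) ^ 19 := by
    calc (m : ℝ) = (m : ℝ) ^ 1 := (pow_one _).symm
      _ ≤ (m : ℝ) ^ 19 := pow_le_pow_right₀ (by linarith) (by norm_num)
  have e6 : 13 * (m : ℝ) ^ 18 * (20 * m) = 260 * (m : ℝ) ^ 19 := by ring
  linarith

theorem exists_not_good (m : ℕ) (hm : 1000 ≤ m) (ε : ℝ) (hε : ε ≤ 1 / (32 * (m : ℝ) ^ 160)) :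
    ¬ IsGood ε ((m ^ 10) ^ (4 * m ^ 2)) := by
  have hmr : (1000 : ℝ) ≤ m := by exact_mod_cast hm
  set L : ℕ := m ^ 10 with hL
  have hL2 : 1000 ≤ L := by
    rw [hL]
    calc 1000 ≤ m := hm
      _ = m ^ 1 := (pow_one m).symm
      _ ≤ m ^ 10 := Nat.pow_le_pow_right (by omega) (by norm_num)
  -- all primes in (L, L^2]
  set P : Finset ℕ := (Finset.Ioc L (L ^ 2)).filter Nat.Prime with hP
  have hPcard : Nat.primeCounting (L ^ 2) ≤ P.card + L := by
    have e : Nat.primeCounting (L ^ 2) = ((Finset.range (L ^ 2 + 1)).filter Nat.Prime).card := by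
      rw [Nat.primeCounting, Nat.primeCounting', Nat.count_eq_card_filter_range]
    rw [e]
    have hsub : (Finset.range (L ^ 2 + 1)).filter Nat.Prime ⊆ P ∪ Finset.Ioc 0 L := by
      intro p hp
      rw [Finset.mem_filter, Finset.mem_range] at hp
      rw [Finset.mem_union, hP, Finset.mem_filter, Finset.mem_Ioc, Finset.mem_Ioc]
      have := hp.2.pos
      by_cases h : p ≤ L
      · right; exact ⟨this, h⟩
      · left; exact ⟨⟨by omega, by omega⟩, hp.2⟩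
    calc _ ≤ (P ∪ Finset.Ioc 0 L).card := Finset.card_le_card hsub
      _ ≤ P.card + (Finset.Ioc 0 L).card := Finset.card_union_le _ _
      _ = P.card + L := by simp
  have hbig : 4 * (m ^ 18 + 2 * m ^ 2) ≤ P.card := by
    have h1 := pi_lower m hm
    have e : L ^ 2 = m ^ 20 := by rw [hL, ← pow_mul]
    rw [← e] at h1
    have h2 : 13 * m ^ 18 ≤ Nat.primeCounting (L ^ 2) := by exact_mod_cast h1
    have h3 : m ^ 10 ≤ m ^ 18 := Nat.pow_le_pow_right (by omega) (by norm_num)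
    have h4 : m ^ 2 ≤ m ^ 18 := Nat.pow_le_pow_right (by omega) (by norm_num)
    omega
  -- choose the larger residue class
  obtain ⟨c, hc⟩ : ∃ c : ℕ, 2 * (m ^ 18 + 2 * m ^ 2) ≤ (P.filter (fun p => p % 4 = c)).card := by
    have hunion : P ⊆ P.filter (fun p => p % 4 = 1) ∪ P.filter (fun p => p % 4 = 3) := by
      intro p hp
      refine Finset.mem_union.mpr ?_
      have hp' := hp
      rw [hP, Finset.mem_filter, Finset.mem_Ioc] at hp'
      have hodd : p % 2 = 1 := by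
        rcases hp'.2.eq_two_or_odd with h | h
        · omega
        · exact h
      have : p % 4 = 1 ∨ p % 4 = 3 := by omega
      rcases this with h | h
      · left; exact Finset.mem_filter.mpr ⟨hp, h⟩
      · right; exact Finset.mem_filter.mpr ⟨hp, h⟩
    have := (Finset.card_le_card hunion).trans (Finset.card_union_le _ _)
    by_cases h1 : 2 * (m ^ 18 + 2 * m ^ 2) ≤ (P.filter (fun p => p % 4 = 1)).card
    · exact ⟨1, h1⟩
    · refine ⟨3, ?_⟩
      omega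
  obtain ⟨Pa, hPa, hPacard⟩ := Finset.exists_subset_card_eq
    (show m ^ 18 + 2 * m ^ 2 ≤ (P.filter (fun p => p % 4 = c)).card by omega)
  set Pb : Finset ℕ := (P.filter (fun p => p % 4 = c)) \ Pa with hPb
  have hPbcard : m ^ 18 + 2 * m ^ 2 ≤ Pb.card := by
    rw [hPb, Finset.card_sdiff_of_subset hPa]
    omega
  have hmem : ∀ p ∈ P.filter (fun p => p % 4 = c), p.Prime ∧ L < p ∧ p ≤ L ^ 2 ∧ p % 4 = c := by
    intro p hp
    rw [Finset.mem_filter, hP, Finset.mem_filter, Finset.mem_Ioc] at hp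
    exact ⟨hp.1.2, hp.1.1.1, hp.1.1.2, hp.2⟩
  have H : Data L Pa Pb c := by
    refine ⟨by omega, fun p hp => hmem p (hPa hp), fun p hp => hmem p ?_, ?_⟩
    · rw [hPb] at hp
      exact (Finset.mem_sdiff.mp hp).1
    · rw [hPb]; exact Finset.disjoint_sdiff
  have hLr : (L : ℝ) = (m : ℝ) ^ 10 := by rw [hL]; push_cast; ring
  have h18 : 18 ≤ m ^ 2 := by nlinarith
  refine not_good (k := m ^ 2) (s := m ^ 18) H h18 (by omega) (by omega) hPbcard ?_ ε ?_
  · push_cast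
    rw [hLr]
    have e1 : 2 * ((m : ℝ) ^ 10) ^ 4 * (2 * (m : ℝ) ^ 2) ^ 2 + 1 = 8 * (m : ℝ) ^ 44 + 1 := by ring
    have e2 : (2 * (m : ℝ) ^ 10 - 2) * ((m : ℝ) ^ 18) ^ 2 = 2 * (m : ℝ) ^ 46 - 2 * (m : ℝ) ^ 36 := by
      ring
    rw [e1, e2]
    have e3 : (m : ℝ) ^ 36 ≤ (m : ℝ) ^ 44 := pow_le_pow_right₀ (by linarith) (by norm_num)
    have e4 : (1 : ℝ) ≤ (m : ℝ) ^ 44 := one_le_pow₀ (by linarith)
    have e5 : 1000 * (m : ℝ) ^ 44 ≤ (m : ℝ) ^ 46 := by
      have : (m : ℝ) ^ 46 = (m : ℝ) ^ 2 * (m : ℝ) ^ 44 := by ring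
      rw [this]
      apply mul_le_mul_of_nonneg_right _ (by positivity)
      nlinarith
    linarith
  · rw [hLr]
    calc ε ≤ _ := hε
      _ = _ := by ring

/-- `N₀(ε) > exp (ε^(-1/100))`, witnessed by an explicit bad `N`. -/
theorem bad_exists (ε : ℝ) (hε0 : 0 < ε) (hε : (1000 : ℝ) ≤ ε ^ (-(1 / 200 : ℝ))) :
    ∃ N : ℕ, Real.exp (ε ^ (-(1 / 100 : ℝ))) ≤ N ∧ ¬ IsGood ε N := by
  set t : ℝ := ε ^ (-(1 / 200 : ℝ)) with ht
  set m : ℕ := ⌈t⌉₊ with hm
  have ht0 : 0 < t := by linarith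
  have htm : t ≤ m := Nat.le_ceil t
  have hmt : (m : ℝ) ≤ 2 * t := by
    have := Nat.ceil_lt_add_one ht0.le
    linarith
  have hm1000 : 1000 ≤ m := by
    have : (1000 : ℝ) ≤ m := by linarith
    exact_mod_cast this
  have ht200 : t ^ (200 : ℕ) = ε⁻¹ := by
    rw [ht, ← Real.rpow_natCast, ← Real.rpow_mul hε0.le, ← Real.rpow_neg_one]
    norm_num
  have ht2 : t ^ 2 = ε ^ (-(1 / 100 : ℝ)) := by
    rw [ht, ← Real.rpow_natCast, ← Real.rpow_mul hε0.le]
    norm_num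
  refine ⟨(m ^ 10) ^ (4 * m ^ 2), ?_, ?_⟩
  · rw [← ht2]
    have hmr : (1000 : ℝ) ≤ m := by exact_mod_cast hm1000
    have h1 : Real.exp (t ^ 2) ≤ Real.exp ((m ^ 2 : ℕ) : ℝ) := by
      apply Real.exp_le_exp.mpr
      push_cast
      exact pow_le_pow_left₀ ht0.le htm 2
    have h2 : Real.exp ((m ^ 2 : ℕ) : ℝ) = (Real.exp 1) ^ (m ^ 2) := by
      rw [← Real.exp_nat_mul, mul_one]
    have h3 : Real.exp 1 ≤ (m : ℝ) := by
      have := Real.exp_one_lt_d9
      linarith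
    have h4 : (Real.exp 1) ^ (m ^ 2) ≤ (m : ℝ) ^ (m ^ 2) :=
      pow_le_pow_left₀ (Real.exp_pos 1).le h3 _
    have h5 : (m : ℝ) ^ (m ^ 2) ≤ (((m ^ 10) ^ (4 * m ^ 2) : ℕ) : ℝ) := by
      push_cast
      rw [← pow_mul]
      apply pow_le_pow_right₀ (by linarith)
      nlinarith [sq_nonneg m]
    linarith
  · apply exists_not_good m hm1000
    rw [le_div_iff₀ (by positivity)]
    have h1 : (m : ℝ) ^ 160 ≤ (2 * t) ^ 160 := pow_le_pow_left₀ (by positivity) hmt 160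
    have h2 : 32 * (2 * t) ^ 160 ≤ t ^ 200 := by
      have e1 : t ^ 200 = t ^ 40 * t ^ 160 := by ring
      have e2 : 32 * (2 * t) ^ 160 = 2 ^ 165 * t ^ 160 := by ring
      rw [e1, e2]
      apply mul_le_mul_of_nonneg_right _ (by positivity)
      calc (2 : ℝ) ^ 165 ≤ 1000 ^ 40 := by norm_num
        _ ≤ t ^ 40 := pow_le_pow_left₀ (by norm_num) hε 40
    calc ε * (32 * (m : ℝ) ^ 160) ≤ ε * (32 * (2 * t) ^ 160) := by gcongr
      _ ≤ ε * t ^ 200 := by gcongr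
      _ = 1 := by rw [ht200]; field_simp

end Pool.Agent.Helper235.Chars
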